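import Pool.Agent.Work.MP_8f87b2_fin.ClsInv
import Pool.Agent.Work.MP_8f87b2_h60.TyA0

/-!
MP_8f87b2_co: the classes without parts 1 and 2 consist of ONE T-cycle.
`eq_of_Rd`, `cl_single`, `cls_single`, `cls_inX`, `bare_A0`.
-/

set_option autoImplicit false

namespace Pool.OddHC

open Finset Equiv BinaryTree Pool.Agent.Work.MP_8f87b2_co

variable {j k : ℕ}

/-- inflated words without beads: the powers of `TT` -/
theorem pow_rep0 {u : X j} {w : X k} (hw : w.1 = ins u.1 (List.replicate (2 * j + 1) 0)) (n : ℕ) :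
    ((TT ^ n) w).1 = ins ((TT ^ n) u).1 (List.replicate (2 * j + 1) 0) := by
  induction n with
  | zero => exact hw
  | succ n ih =>
    rw [pow_succ', Perm.mul_apply, pow_succ', Perm.mul_apply]
    have h3 := (TF_ins ((TT ^ n) u) _ (by rw [List.length_replicate]) ((TT ^ n) w) ih).1
    rw [← TT_apply, ← TT_apply, List.rotate_replicate] at h3
    exact h3

theorem eq_rep0 {e : List ℕ} {n : ℕ} (he : e.length = n) (hs : e.sum = 0) : e = List.replicate n 0 := by
  rw [List.eq_replicate_iff]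
  exact ⟨he, fun b hb => List.sum_eq_zero_iff.1 hs b hb⟩

/-- without beads a T-cycle is determined by its reduction -/
theorem eq_of_Rd {p q : Cyc k} (h : Rd p = Rd q) (h0 : 1 ∉ contc p) : p = q := by
  have hc : contc q = contc p := contc_of_Rd (by rw [h]) (by rw [h])
  obtain ⟨j, U, hR⟩ : ∃ (j : ℕ) (U : Cyc j), Rd p = ⟨j, U⟩ := ⟨_, _, rfl⟩
  obtain ⟨u0, rfl⟩ := Quotient.exists_rep U
  obtain ⟨i, e, w, hw, he, hwe, -, h1⟩ := Rd_fibre u0 hR
  obtain ⟨i', e', w', hw', he', hwe', -, h1'⟩ := Rd_fibre u0 (h.symm.trans hR)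
  rw [Multiset.count_eq_zero.2 h0] at h1
  rw [hc, Multiset.count_eq_zero.2 h0] at h1'
  rw [eq_rep0 he h1] at hwe
  rw [eq_rep0 he' h1'] at hwe'
  have hs : (TT : Perm (X j)).SameCycle ((TT ^ i) u0) ((TT ^ i') u0) :=
    (Perm.SameCycle.symm ⟨i, by rw [zpow_natCast]⟩).trans ⟨i', by rw [zpow_natCast]⟩
  obtain ⟨n, hn⟩ := sameCycle_nat hs
  have h2 := pow_rep0 hwe n
  rw [hn, ← hwe'] at h2
  rw [← hw, ← hw']
  exact cyc_eq.2 ⟨n, by rw [zpow_natCast]; exact Subtype.ext h2⟩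

theorem not_mem_Rd {p : Cyc k} {x : ℕ} (h : x + 1 ∉ contc p) : x ∉ contc (Rd p).2 := by
  intro hx
  apply h
  rw [contc_eq p]
  exact Multiset.mem_add.2 (Or.inl (Multiset.mem_map.2 ⟨x, hx, rfl⟩))

/-- **a class without parts 1 and 2 is one T-cycle** -/
theorem cl_single {p p0 : Cyc k} (h1 : 1 ∉ contc p0) (h2 : 2 ∉ contc p0) (h : cl p = cl p0) : p = p0 := by
  obtain ⟨e1, e2⟩ := cl_iff.1 h
  have hc : contc p = contc p0 := congrArg Prod.snd h
  have h1' : 1 ∉ contc p := by rw [hc]; exact h1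
  apply eq_of_Rd _ h1'
  have h3 : 1 ∉ contc (Rd p0).2 := not_mem_Rd h2
  obtain ⟨⟨j, U⟩, hR⟩ : ∃ d : RD, Rd p = d := ⟨_, rfl⟩
  obtain ⟨⟨j', U'⟩, hR'⟩ : ∃ d : RD, Rd p0 = d := ⟨_, rfl⟩
  rw [hR, hR'] at e1 e2
  rw [hR'] at h3
  change j = j' at e1
  subst e1
  have e3 : U' = U := eq_of_Rd e2.symm h3
  rw [hR, hR', e3]

variable {τp τw : Type} {Pp : τp → Set (Cyc k) → DG k → Prop} {Pw : τw → Set (Cyc k) → DG k → Prop}
  {AE : Cyc k → Cyc k → Prop}

/-- **the class of a bare T-cycle with its own window** -/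
theorem cls_single {p0 : Cyc k} (h1 : 1 ∉ contc p0) (h2 : 2 ∉ contc p0) {X : Set (Cyc k)}
    (hX : p0 ∉ X) (hw : ∃ t g, Pw t {p0} g) : ClsOK AE (cl p0) X ∅ {{p0}} Pp Pw := by
  have hG : ∀ F : Set (Cyc k), F ∈ (∅ : Set (Set (Cyc k))) ∪ {{p0}} → F = {p0} := by
    rintro F (hF | hF)
    · exact absurd hF (Set.notMem_empty F)
    · exact hF
  constructor
  · intro F hF
    rw [hG F hF]
    exact ⟨p0, rfl⟩
  · intro F hF c hc
    rw [hG F hF] at hc
    rw [Set.mem_singleton_iff.1 hc]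
    exact ⟨rfl, hX⟩
  · intro F hF F' hF' c _ _
    rw [hG F hF, hG F' hF']
  · intro F hF
    exact absurd hF (Set.notMem_empty F)
  · intro F hF
    exact absurd hF (Set.notMem_empty F)
  · intro F hF
    rw [Set.mem_singleton_iff.1 hF]
    exact hw
  · intro p hp
    apply remA_all
    intro q hq
    left
    refine ⟨{p0}, Or.inr rfl, ?_⟩
    exact cl_single h1 h2 ((cl_fam hq).trans hp)

/-- the class of a bare T-cycle which is used by a group over several classes -/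
theorem cls_inX {p0 : Cyc k} (h1 : 1 ∉ contc p0) (h2 : 2 ∉ contc p0) {X : Set (Cyc k)}
    (hX : p0 ∈ X) : ClsOK AE (cl p0) X ∅ ∅ Pp Pw := by
  have hG : ∀ F : Set (Cyc k), F ∉ (∅ : Set (Set (Cyc k))) ∪ ∅ := by
    rintro F (hF | hF)
    · exact hF
    · exact hF
  constructor
  · intro F hF
    exact absurd hF (hG F)
  · intro F hF
    exact absurd hF (hG F)
  · intro F hF
    exact absurd hF (hG F)
  · intro F hF
    exact absurd hF (Set.notMem_empty F)
  · intro F hF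
    exact absurd hF (Set.notMem_empty F)
  · intro F hF
    exact absurd hF (Set.notMem_empty F)
  · intro p hp
    apply remA_all
    intro q hq
    right
    rw [cl_single h1 h2 ((cl_fam hq).trans hp)]
    exact hX

/-- the window of a bare T-cycle, smallest part `q + 3` at least twice -/
theorem bare_A0 {q : ℕ} {p0 : Cyc k} (hc : q + 3 ∈ (contc p0).erase (q + 3))
    (hmin : ∀ x ∈ contc p0, q + 3 ≤ x) (htop : q + 3 < htc p0)
    (hz : ∃ z : X k, cyc z = p0 ∧ TT z ≠ z) : ∃ g : DG k, TyA0 {p0} g := by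
  obtain ⟨z, rfl, hz⟩ := hz
  rw [htc_cyc] at htop
  exact TyA0.ex z hc hmin htop hz

end Pool.OddHC
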