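import Pool.Agent.Work.MP_8f87b2_h60.TyB0
import Pool.Agent.Work.MP_8f87b2_fin.R1b
import Pool.Agent.Work.MP_8f87b2_fin.Win
import Pool.Agent.Work.MP_8f87b2_end.Inv2

/-!
# MP_8f87b2_co: the T-cycles of the words 1, 2, 18 of the mirrored bare window

`NodeM.h12`: for `1 ≤ q` the words 1 and 2 are on different T-cycles (levels `2 q`, `2 q + 1` over one word).
`NodeM.h118`: for `1 ≤ q`, `B = e` word 18 is not on the T-cycle of word 1.
-/

set_option autoImplicit false

namespace Pool.OddHC

open Finset Equiv BinaryTree Multiset Pool.Agent.Work.MP_8f87b2_co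

namespace B76

/-- one bead in the last gap -/
theorem ins_end (C : BinaryTree Unit) :
    ins C (List.replicate (2 * C.numNodes) 0 ++ [1]) = app (inf C) (.nil △ .nil) := by
  induction C with
  | nil => rfl
  | node _ A B _ ih =>
    have e1 : (BinaryTree.node () A B).numNodes = A.numNodes + B.numNodes + 1 := rfl
    have e2 : List.replicate (2 * (BinaryTree.node () A B).numNodes) 0 ++ [1] =
        0 :: (List.replicate (2 * A.numNodes + 1) 0 ++ (List.replicate (2 * B.numNodes) 0 ++ [1])) := by
      rw [← List.append_assoc, List.replicate_append_replicate, ← List.cons_append,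
        ← List.replicate_succ, e1]
      congr 2
      ring
    rw [e2]
    change ins (A △ B) _ = app (inf (A △ B)) _
    rw [ins, List.headD_cons, List.tail_cons, List.take_left' List.length_replicate,
      List.drop_succ_cons, List.drop_left' List.length_replicate, ih, inf_node, lv]
    have e4 := ins_bump A 0
    rw [lv, ← List.replicate_succ] at e4
    rw [e4]
    rfl

/-- `0 …` in front -/
theorem ins_mid (A B : BinaryTree Unit) (f : List ℕ) :
    ins (app A B) (List.replicate (2 * A.numNodes) 0 ++ (1 :: f)) =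
      app (inf A) (.nil △ ins B (0 :: f)) := by
  have e1 : List.replicate (2 * A.numNodes) 0 ++ (1 :: f) =
      (List.replicate (2 * A.numNodes) 0 ++ [1]) ++ f := by simp
  rw [e1, ins_app _ _ _ _ (by simp), ins_end, H1.app_assoc]
  rfl

/-- two beads: `A()B()` -/
theorem w_ABo (A B : BinaryTree Unit) (hB : 1 ≤ B.numNodes) :
    app (inf A) (.nil △ app (inf B) (.nil △ .nil)) =
      ins (app A B) (List.replicate (2 * A.numNodes) 0 ++
        (1 :: (List.replicate (2 * B.numNodes - 1) 0 ++ [1]))) := by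
  rw [ins_mid, ← List.cons_append, ← List.replicate_succ,
    show 2 * B.numNodes - 1 + 1 = 2 * B.numNodes by omega, ins_end]

/-- two beads: `()A()B` -/
theorem w_oAB (A B : BinaryTree Unit) (hA : 1 ≤ A.numNodes) :
    .nil △ app (inf A) (.nil △ inf B) =
      ins (app A B) (1 :: (List.replicate (2 * A.numNodes - 1) 0 ++
        (1 :: List.replicate (2 * B.numNodes) 0))) := by
  have h1 := ins_mid A B (List.replicate (2 * B.numNodes) 0)
  rw [← List.replicate_succ] at h1
  change ins (app A B) _ = app (inf A) (.nil △ inf B) at h1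
  rw [← h1, ins_lv (app A B) 1]
  change _ = .nil △ ins (app A B) _
  rw [← List.cons_append, ← List.replicate_succ,
    show 2 * A.numNodes - 1 + 1 = 2 * A.numNodes by omega]

theorem getD_two (m n p i : ℕ) :
    (List.replicate m 0 ++ (1 :: (List.replicate n 0 ++ (1 :: List.replicate p 0)))).getD i 0 =
      (if i = m then 1 else 0) + if i = m + n + 1 then 1 else 0 := by
  rcases Nat.lt_or_ge i m with h | h
  · rw [List.getD_append _ _ _ _ (by simpa using h), List.getD_replicate _ h, if_neg (by omega),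
      if_neg (by omega)]
  · rw [List.getD_append_right _ _ _ _ (by simpa using h), List.length_replicate]
    obtain ⟨i, rfl⟩ : ∃ i', i = m + i' := ⟨i - m, by omega⟩
    rw [Nat.add_sub_cancel_left]
    rcases i with _ | i
    · rw [List.getD_cons_zero, if_pos (by omega), if_neg (by omega)]
    · rw [List.getD_cons_succ, if_neg (by omega)]
      rcases Nat.lt_or_ge i n with h1 | h1
      · rw [List.getD_append _ _ _ _ (by simpa using h1), List.getD_replicate _ h1,
          if_neg (by omega)]
      · rw [List.getD_append_right _ _ _ _ (by simpa using h1), List.length_replicate]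
        obtain ⟨i, rfl⟩ : ∃ i', i = n + i' := ⟨i - n, by omega⟩
        rw [Nat.add_sub_cancel_left]
        rcases i with _ | i
        · rw [List.getD_cons_zero, if_pos (by omega)]
        · rw [List.getD_cons_succ, if_neg (by omega)]
          rcases Nat.lt_or_ge i p with h2 | h2
          · rw [List.getD_replicate _ h2]
          · rw [List.getD_eq_default _ _ (by simpa using h2)]

variable {j k : ℕ}

/-- two beads with `n` gaps between them -/
theorem tc_two (u : X j) (hk : j + pkn u.1 + 2 = k) {m n p : ℕ} (hj : m + n + p + 2 = 2 * j + 1)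
    {w : X k} (hw : w.1 = ins u.1 (List.replicate m 0 ++ (1 :: (List.replicate n 0 ++
      (1 :: List.replicate p 0))))) :
    cyc w = tc u hk (m : ZMod (2 * j + 1)) (n + 1) ∧
    cyc w = tc u hk ((m + n + 1 : ℕ) : ZMod (2 * j + 1)) (m + p + 1) := by
  have hl : (List.replicate m 0 ++ (1 :: (List.replicate n 0 ++ (1 :: List.replicate p 0)))).length =
      2 * j + 1 := by
    simp only [List.length_append, List.length_cons, List.length_replicate]
    omega
  have key : (List.replicate m 0 ++ (1 :: (List.replicate n 0 ++ (1 :: List.replicate p 0)))) =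
      lf (fun z : ZMod (2 * j + 1) => (if z = (m : ZMod (2 * j + 1)) then 1 else 0) +
        if z = ((m + n + 1 : ℕ) : ZMod (2 * j + 1)) then 1 else 0) := by
    refine lf_of_getD hl fun z => ?_
    rw [getD_two]
    have e1 := val_eq_iff z (x := m) (by omega)
    have e2 := val_eq_iff z (x := m + n + 1) (by omega)
    simp only [e1, e2]
  constructor
  · apply tc_word
    rw [hw, key]
    congr 2
    funext z
    have e3 : ((m + n + 1 : ℕ) : ZMod (2 * j + 1)) = (m : ZMod (2 * j + 1)) + ((n + 1 : ℕ) : ZMod (2 * j + 1)) := by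
      push_cast; ring
    rw [e3]
  · apply tc_word
    rw [hw, key]
    congr 2
    funext z
    have e3 : (m : ZMod (2 * j + 1)) =
        ((m + n + 1 : ℕ) : ZMod (2 * j + 1)) + ((m + p + 1 : ℕ) : ZMod (2 * j + 1)) := by
      have e4 : ((m + n + p + 2 : ℕ) : ZMod (2 * j + 1)) = 0 := by
        rw [hj]; exact ZMod.natCast_self _
      have e5 : ((m + n + 1 : ℕ) : ZMod (2 * j + 1)) + ((m + p + 1 : ℕ) : ZMod (2 * j + 1)) =
          (m : ZMod (2 * j + 1)) + ((m + n + p + 2 : ℕ) : ZMod (2 * j + 1)) := by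
        push_cast; ring
      rw [e5, e4, add_zero]
    rw [← e3, add_comm]

end B76

namespace HM

open B76 H1

variable {j k q : ℕ} {R B S : BinaryTree Unit}

theorem ht_num76 : ∀ t : BinaryTree Unit, ht t ≤ t.numNodes
  | .nil => le_rfl
  | .node _ A B => by
    have h1 := ht_num76 A
    have h2 := ht_num76 B
    change max (ht A + 1) (ht B) ≤ A.numNodes + B.numNodes + 1
    omega

theorem count_one_bare {t : BinaryTree Unit} {c : ℕ} (hc : 2 ≤ c) (h : ∀ x ∈ cont t, c ≤ x) :
    (cont t).count 1 = 0 := by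
  rw [Multiset.count_eq_zero]
  intro h1
  have := h 1 h1
  omega

/-- a bare tree is a bare inflation -/
theorem bare_inf {t : BinaryTree Unit} {c : ℕ} (hc : 2 ≤ c) (h : ∀ x ∈ cont t, c ≤ x) :
    ∃ r : BinaryTree Unit, t = inf r := by
  obtain ⟨l, u, hu⟩ := exists_inf (⟨t, mem_treesOfNumNodesEq.2 rfl⟩ : X t.numNodes)
    (count_one_bare hc h)
  exact ⟨u.1, hu⟩

theorem num_of_inf {r : BinaryTree Unit} : (inf r).numNodes = r.numNodes + pkn r := by
  have h1 := cont_sum (inf r)
  rw [cont_inf, Multiset.sum_map_add, Multiset.map_id', cont_sum, Multiset.map_const',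
    Multiset.sum_replicate, cont_card] at h1
  rw [← h1]
  simp

theorem NodeM.inf_ex (h : NodeM k q R B S) (hq : 1 ≤ q) : ∃ r : BinaryTree Unit, R = inf r ∧
    q + 2 < ht r ∧ ch (q + 1) = inf (ch q) := by
  obtain ⟨r, hr⟩ := bare_inf (by omega) h.part
  refine ⟨r, hr, ?_, ?_⟩
  · have h1 := ht_inf_le r
    rw [← hr] at h1
    have := h.top
    omega
  · rw [ch_eq, ch_eq, inf_pc hq]

/-- the T-cycles of the words 1, 2 of the right window -/
theorem NodeM.tc12 (h : NodeM k q R B S) (hq : 1 ≤ q) (w0 : X k) :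
    ∃ (j : ℕ) (u : X j) (hk : j + pkn u.1 + 2 = k) (x : ZMod (2 * j + 1)), 2 * q + 1 ≤ j ∧ 1 ≤ j ∧
      cyc (wX R B S q w0 1) = tc u hk x (2 * q) ∧ cyc (wX R B S q w0 2) = tc u hk x (2 * q + 1) := by
  obtain ⟨r, hr, hr1, hc⟩ := h.inf_ex hq
  have hn : q + 3 ≤ r.numNodes := by
    have := ht_num76 r
    omega
  have hu : (app r (ch q)).numNodes = r.numNodes + q := by rw [num_app, ch_num]
  let u : X (r.numNodes + q) := ⟨app r (ch q), mem_treesOfNumNodesEq.2 hu⟩
  have hk : r.numNodes + q + pkn u.1 + 2 = k := by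
    have h1 := h.size
    rw [hr, num_of_inf] at h1
    have h2 : pkn (app r (ch q)) = pkn r + 1 := by
      rw [← cont_card, ← cont_card, cont_app, Multiset.card_add]
      obtain ⟨q', rfl⟩ : ∃ q', q = q' + 1 := ⟨q - 1, by omega⟩
      rw [ch_cont, Multiset.card_singleton]
    change r.numNodes + q + pkn (app r (ch q)) + 2 = k
    omega
  refine ⟨_, u, hk, ((2 * r.numNodes : ℕ) : ZMod (2 * (r.numNodes + q) + 1)), by omega, by omega,
    ?_, ?_⟩
  · have e1 : (wX R B S q w0 1).1 = ins u.1 (List.replicate (2 * r.numNodes) 0 ++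
        (1 :: (List.replicate (2 * q - 1) 0 ++ (1 :: List.replicate 0 0)))) := by
      rw [wX_eq h.dat h.size w0 (by norm_num), W, hr, hc, w_ABo _ _ (by rw [ch_num]; exact hq), ch_num]
      rfl
    have h2 := (tc_two u hk (by omega) e1).1
    rw [show 2 * q - 1 + 1 = 2 * q by omega] at h2
    exact h2
  · have e1 : (wX R B S q w0 2).1 = ins u.1 (List.replicate 0 0 ++
        (1 :: (List.replicate (2 * r.numNodes - 1) 0 ++ (1 :: List.replicate (2 * q) 0)))) := by
      rw [wX_eq h.dat h.size w0 (by norm_num), W, hr, hc, w_oAB _ _ (by omega), ch_num]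
      rfl
    have h2 := (tc_two u hk (by omega) e1).2
    rw [show 0 + (2 * r.numNodes - 1) + 1 = 2 * r.numNodes by omega, Nat.zero_add] at h2
    exact h2

theorem same_of_mir {x y : X k} (h : (TT : Perm (X k)).SameCycle (Tsq.mirX x) (Tsq.mirX y)) :
    (TT : Perm (X k)).SameCycle x y := by
  have h1 := same_mir h
  rwa [mirX_mirX, mirX_mirX] at h1

/-- **words 1, 2 are on different T-cycles** -/
theorem NodeM.h12 (h : NodeM k q R B S) (hq : 1 ≤ q) (w0 : X k) :
    ¬ TT.SameCycle (mX R B S q w0 1) (mX R B S q w0 2) := by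
  intro hs
  have h1 : cyc (wX R B S q w0 1) = cyc (wX R B S q w0 2) := cyc_eq.2 (same_of_mir hs)
  obtain ⟨j, u, hk, x, hj, hj1, e1, e2⟩ := h.tc12 hq w0
  rw [e1, e2] at h1
  have h2 := (two_family hj1 u hk).2.1 _ _ _ _ (by omega) hj h1
  omega

/-- **`B = e`: word 18 is not on the T-cycle of word 1** -/
theorem NodeM.h118 (h : NodeM k q R B S) (hq : 1 ≤ q) (hB : B = .nil) (w0 : X k) :
    ¬ TT.SameCycle (mX R B S q w0 1) (mX R B S q w0 18) := by
  intro hs
  have h1 : cyc (wX R B S q w0 1) = cyc (wX R B S q w0 18) := cyc_eq.2 (same_of_mir hs)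
  obtain ⟨j, u, hk, x, hj, hj1, e1, e2⟩ := h.tc12 hq w0
  have hS : cont S = cont R := by
    have := h.eq
    rwa [hB, cont_nil, zero_add] at this
  obtain ⟨s, hs1⟩ : ∃ s, S = inf s := bare_inf (c := q + 3) (by omega) (by rw [hS]; exact h.part)
  obtain ⟨r, hr, hr1, hc⟩ := h.inf_ex hq
  have hn : (inf s).numNodes = (inf r).numNodes := by
    rw [← hr, ← hs1, ← cont_sum, ← cont_sum, hS]
  have hcr : cont s = cont r := by
    have h3 : cont (inf s) = cont (inf r) := by rw [← hs1, ← hr, hS]
    rw [cont_inf, cont_inf] at h3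
    exact Multiset.map_injective (add_left_injective 1) h3
  have hnr : s.numNodes = r.numNodes := by rw [← cont_sum, ← cont_sum, hcr]
  have hpk : pkn s = pkn r := by rw [← cont_card, ← cont_card, hcr]
  have hn3 : q + 3 ≤ s.numNodes := by
    have := ht_num76 r
    omega
  have hu : (app (ch q) s).numNodes = s.numNodes + q := by rw [num_app, ch_num]; omega
  let u' : X (s.numNodes + q) := ⟨app (ch q) s, mem_treesOfNumNodesEq.2 hu⟩
  have hk' : s.numNodes + q + pkn u'.1 + 2 = k := by
    have h1 := h.size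
    rw [hr, num_of_inf] at h1
    have h2 : pkn (app (ch q) s) = pkn s + 1 := by
      rw [← cont_card, ← cont_card, cont_app, Multiset.card_add]
      obtain ⟨q', rfl⟩ : ∃ q', q = q' + 1 := ⟨q - 1, by omega⟩
      rw [ch_cont, Multiset.card_singleton]
      omega
    change s.numNodes + q + pkn (app (ch q) s) + 2 = k
    omega
  have e3 : cyc (wX R B S q w0 18) = tc u' hk' ((2 * q + (2 * s.numNodes - 1) + 1 : ℕ) :
      ZMod (2 * (s.numNodes + q) + 1)) (2 * q + 0 + 1) := by
    have e1 : (wX R B S q w0 18).1 = ins u'.1 (List.replicate (2 * q) 0 ++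
        (1 :: (List.replicate (2 * s.numNodes - 1) 0 ++ (1 :: List.replicate 0 0)))) := by
      rw [wX_eq h.dat h.size w0 (by norm_num), W, hs1, hB, hc, w_ABo _ _ (by omega), ch_num]
      rfl
    exact (tc_two u' hk' (by omega) e1).2
  have e4 : Rd (cyc (wX R B S q w0 1)) = ⟨j, cyc u⟩ := by rw [e1]; exact Rd_tc u hk _ _
  have e5 : Rd (cyc (wX R B S q w0 18)) = ⟨s.numNodes + q, cyc u'⟩ := by rw [e3]; exact Rd_tc u' hk' _ _
  rw [h1, e5] at e4
  have e6 : s.numNodes + q = j := congrArg Sigma.fst e4
  obtain ⟨v, hv⟩ : ∃ v : X (s.numNodes + q), v = u' := ⟨u', rfl⟩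
  subst e6
  have e7 : cyc u' = cyc u := by
    have := e4
    simpa using this
  obtain ⟨t, ht⟩ := tc_phase e7 hk hk'
  rw [e1, e3, ht] at h1
  have h2 := (two_family hj1 u hk).2.1 _ _ _ _ (by omega) (by omega) h1
  omega

end HM

end Pool.OddHC
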