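import Pool.Agent.Work.MP_8f87b2_h76.Fix
import Pool.Agent.Work.MP_8f87b2_h13.N3

/-!
# MP_8f87b2_co: features of the three words of the link of a `T`-fixed bare word

`FyP t`: no part `2`, at most one part `1`, at least three parts `≥ 3`, at least two components, the first and the last
component have no parts `1`, `2`. `TyFy.fyp`: all words of the link. Rows against E, L, K, K', C, DOWN.
-/

set_option autoImplicit false

namespace Pool.OddHC

open Finset Equiv BinaryTree Multiset Pool.Agent.Work.MP_8f87b2_co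

variable {k c : ℕ} {R t X S : BinaryTree Unit} {F F' : Set (Cyc k)} {g g' : DG k}

/-- features of the words -/
structure FyP (t : BinaryTree Unit) : Prop where
  c2 : 2 ∉ cont t
  c1 : (cont t).count 1 ≤ 1
  n3 : 3 ≤ np3 (cont t)
  fst : ∃ A l, comps t = A :: l ∧ 1 ∉ raise (cont A) ∧ 2 ∉ raise (cont A)
  lst : ∃ A l, comps t = l ++ [A] ∧ 1 ∉ raise (cont A) ∧ 2 ∉ raise (cont A)
  len : 2 ≤ (comps t).length

theorem raise_ch76 {c : ℕ} (hc : 1 ≤ c) : raise (cont (H1.ch (c - 1))) = {c} := by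
  obtain ⟨c, rfl⟩ : ∃ c', c = c' + 1 := ⟨c - 1, by omega⟩
  have h1 : cont (pc c △ .nil) = {c + 1} := cont_pc c
  rw [cont_node, cont_nil, add_zero] at h1
  rwa [Nat.add_sub_cancel, H1.ch_eq]

theorem comps_le_card (t : BinaryTree Unit) : (comps t).length ≤ Multiset.card (cont t) := by
  induction t with
  | nil => simp [comps]
  | node _ A B _ ih =>
    change (comps (A △ B)).length ≤ Multiset.card (cont (A △ B))
    rw [comps_node, List.length_cons, cont_node, Multiset.card_add, HM.card_raise]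
    have := le_max_left 1 (Multiset.card (cont A))
    omega

theorem FxD.card (h : FxD c R) : 2 ≤ Multiset.card (cont R) := by
  have h1 := comps_le_card R
  have h2 := h.two
  omega

theorem FxD.rpart (h : FxD c R) {x : ℕ} (hx : x ∈ raise (cont R)) : c + 1 ≤ x := by
  unfold raise at hx
  rcases Multiset.mem_cons.1 hx with h1 | h1
  · have := h.ht
    rw [ht_eq] at this
    omega
  · exact h.part x (Multiset.mem_of_mem_erase h1)

theorem FxD.cpart (h : FxD c R) {A : BinaryTree Unit} (hA : A ∈ comps R) {x : ℕ}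
    (hx : x ∈ raise (cont A)) : c + 1 ≤ x := h.part x (mem_comps hA hx)

theorem FxD.cons (h : FxD c R) : ∃ A l, comps R = A :: l ∧ A ∈ comps R := by
  rcases hR : comps R with _ | ⟨A, l⟩
  · have := h.two
    rw [hR] at this
    simp at this
  · exact ⟨A, l, rfl, by simp⟩

theorem FxD.snoc (h : FxD c R) : ∃ A l, comps R = l ++ [A] ∧ A ∈ comps R := by
  have h1 : comps R ≠ [] := by
    intro e
    have := h.two
    rw [e] at this
    simp at this
  refine ⟨(comps R).getLast h1, (comps R).dropLast, (List.dropLast_append_getLast h1).symm,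
    List.getLast_mem h1⟩

theorem FxD.np3 (h : FxD c R) : 2 ≤ np3 (cont R) := by
  rw [np3_all fun x hx => by
    have := h.part x hx
    have := h.c3
    omega]
  exact h.card

theorem comps_chc (hc : 1 ≤ c) : comps (H1.ch c) = [H1.ch (c - 1)] := by
  obtain ⟨c, rfl⟩ : ∃ c', c = c' + 1 := ⟨c - 1, by omega⟩
  rfl

theorem cont_chc (hc : 1 ≤ c) : cont (H1.ch c) = {c} := by
  obtain ⟨c, rfl⟩ : ∃ c', c = c' + 1 := ⟨c - 1, by omega⟩
  exact H1.ch_cont c

/-- the host `(R)[c]` -/
theorem FxD.host (h : FxD c R) : FyP (w1 .nil R (H1.ch c)) := by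
  have hc := h.c3
  have e : comps (w1 .nil R (H1.ch c)) = [R, H1.ch (c - 1)] := by
    rw [comps_w1, comps_chc (by omega)]
    rfl
  have ec : cont (w1 .nil R (H1.ch c)) = raise (cont R) + {c} := by
    rw [cont_w1, cont_nil, zero_add, cont_chc (by omega)]
  have hall : ∀ x ∈ cont (w1 .nil R (H1.ch c)), c ≤ x := by
    intro x hx
    rw [ec] at hx
    rcases Multiset.mem_add.1 hx with hx | hx
    · have := h.rpart hx
      omega
    · rw [Multiset.mem_singleton] at hx
      omega
  refine ⟨?_, ?_, ?_, ?_, ?_, ?_⟩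
  · intro hx
    have := hall 2 hx
    omega
  · rw [Multiset.count_eq_zero.2 (fun hx => by have := hall 1 hx; omega)]
    omega
  · rw [ec, np3_add, np3_one, if_pos (by omega)]
    have := np3_raise_ge (cont R)
    have := h.np3
    omega
  · refine ⟨R, _, e, ?_, ?_⟩
    · intro hx
      have := h.rpart hx
      omega
    · intro hx
      have := h.rpart hx
      omega
  · refine ⟨H1.ch (c - 1), [R], e, ?_, ?_⟩ <;> rw [raise_ch76 (by omega), Multiset.mem_singleton] <;> omega
  · rw [e]; simp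

/-- the word `R[c + 1]` -/
theorem FxD.wz (h : FxD c R) : FyP (w1 R (H1.ch c) .nil) := by
  have hc := h.c3
  have e : comps (w1 R (H1.ch c) .nil) = comps R ++ [H1.ch c] := by
    rw [comps_w1]
    rfl
  have ec : cont (w1 R (H1.ch c) .nil) = {c + 1} + cont R := FxD.c_z' c R
  have hall : ∀ x ∈ cont (w1 R (H1.ch c) .nil), c ≤ x := by
    intro x hx
    rw [ec] at hx
    rcases Multiset.mem_add.1 hx with hx | hx
    · rw [Multiset.mem_singleton] at hx
      omega
    · have := h.part x hx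
      omega
  have hr := raise_ch76 (c := c + 1) (by omega)
  rw [Nat.add_sub_cancel] at hr
  refine ⟨?_, ?_, ?_, ?_, ?_, ?_⟩
  · intro hx
    have := hall 2 hx
    omega
  · rw [Multiset.count_eq_zero.2 (fun hx => by have := hall 1 hx; omega)]
    omega
  · rw [ec, np3_add, np3_one, if_pos (by omega)]
    have := h.np3
    omega
  · obtain ⟨A, l, h1, h2⟩ := h.cons
    refine ⟨A, _, by rw [e, h1]; rfl, ?_, ?_⟩
    · intro hx
      have := h.cpart h2 hx
      omega
    · intro hx
      have := h.cpart h2 hx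
      omega
  · refine ⟨H1.ch c, comps R, e, ?_, ?_⟩ <;> rw [hr, Multiset.mem_singleton] <;> omega
  · rw [e, List.length_append]
    have := h.two
    simp only [List.length_cons, List.length_nil]
    omega

/-- the word `[c]()R` -/
theorem FxD.wy (h : FxD c R) : FyP (w1 (H1.ch c) .nil R) := by
  have hc := h.c3
  have e : comps (w1 (H1.ch c) .nil R) = H1.ch (c - 1) :: .nil :: comps R := by
    rw [comps_w1, comps_chc (by omega)]
    rfl
  have ec : cont (w1 (H1.ch c) .nil R) = cont R + {1} + {c} := h.c_y'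
  refine ⟨?_, ?_, ?_, ?_, ?_, ?_⟩
  · intro hx
    rw [ec] at hx
    rcases Multiset.mem_add.1 hx with hx | hx
    · rcases Multiset.mem_add.1 hx with hx | hx
      · exact h.no2 hx
      · rw [Multiset.mem_singleton] at hx
        omega
    · rw [Multiset.mem_singleton] at hx
      omega
  · rw [ec, Multiset.count_add, Multiset.count_add, Multiset.count_eq_zero.2 h.no1,
      Multiset.count_singleton_self, Multiset.count_eq_zero.2 (by rw [Multiset.mem_singleton]; omega)]
  · rw [ec, np3_add, np3_add, np3_one, np3_one, if_pos (show 3 ≤ c by omega)]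
    have := h.np3
    omega
  · refine ⟨H1.ch (c - 1), _, e, ?_, ?_⟩ <;> rw [raise_ch76 (by omega), Multiset.mem_singleton] <;> omega
  · obtain ⟨A, l, h1, h2⟩ := h.snoc
    refine ⟨A, H1.ch (c - 1) :: .nil :: l, by rw [e, h1]; rfl, ?_, ?_⟩
    · intro hx
      have := h.cpart h2 hx
      omega
    · intro hx
      have := h.cpart h2 hx
      omega
  · rw [e]; simp

/-- TYPE Fz: host `(R)[c]`, new words `R[c + 1]` and `[c]()R`, all parts of `R` `≥ c + 1`, `c + 1` a part of `R`, `R` has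
at least two components (no condition of `T`-fixedness) -/
def TyFz (F : Set (Cyc k)) (g : DG k) : Prop :=
  ∃ (c : ℕ) (R : BinaryTree Unit), FxD c R ∧ TyC c R F g

theorem TyFy.fz (h : TyFy F g) : TyFz F g := by
  obtain ⟨c, R, h1, -, h2⟩ := h
  exact ⟨c, R, h1, h2⟩

/-- existence: the link of the word `R[c + 1]` -/
theorem fz_ex (hR : FxD c R) {z : OddHC.X k} (hz : z.1 = app R (H1.ch (c + 1))) :
    ∃ (y : OddHC.X k) (g : DG k), y.1 = app (H1.ch c) (.nil △ R) ∧ contc (cyc y) = cont R + {1} + {c} ∧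
      TyFz {cyc z, cyc y} g := by
  have hk : R.numNodes + c + 1 = k := by
    have h1 := X_num z
    rw [hz, num_app, H1.ch_num] at h1
    omega
  obtain ⟨z', y, g, hz', hy, hg⟩ := fx_mk' hR hk
  have e : z' = z := Subtype.ext (by rw [hz', hz])
  rw [e] at hg
  refine ⟨y, g, hy, ?_, c, R, hR, hg⟩
  change cont y.1 = _
  rw [hy]
  exact hR.c_y'

theorem TyFz.fyp (h : TyFz F g) : ∀ w ∈ g.B, FyP w.1 := by
  obtain ⟨c, R, h1, h2⟩ := h
  intro w hw
  rcases IsTri.words h2 w hw with e | ⟨_, e | e⟩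
  · rw [e]; exact h1.host
  · rw [e]; exact h1.wz
  · rw [e]; exact h1.wy

/-- the words -/
theorem TyFz.words (h : TyFz F g) : ∃ c R, FxD c R ∧ ∀ w ∈ g.B, w.1 = w1 .nil R (H1.ch c) ∨
    (cyc w ∈ F ∧ (w.1 = w1 R (H1.ch c) .nil ∨ w.1 = w1 (H1.ch c) .nil R)) := by
  obtain ⟨c, R, h1, h2⟩ := h
  exact ⟨c, R, h1, IsTri.words h2⟩

/-! ### The features against words -/

theorem FyP.no_fst (h : FyP t) {A : BinaryTree Unit} {l : List (BinaryTree Unit)}
    (hA : 1 ∈ raise (cont A) ∨ 2 ∈ raise (cont A)) : comps t ≠ A :: l := by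
  intro e
  obtain ⟨A', l', e', h1, h2⟩ := h.fst
  rw [e, List.cons.injEq] at e'
  rw [← e'.1] at h1 h2
  exact hA.elim h1 h2

theorem FyP.no_lst (h : FyP t) {A : BinaryTree Unit} {l : List (BinaryTree Unit)}
    (hA : 1 ∈ raise (cont A) ∨ 2 ∈ raise (cont A)) : comps t ≠ l ++ [A] := by
  intro e
  obtain ⟨A', l', e', h1, h2⟩ := h.lst
  rw [e] at e'
  have e2 : A = A' := by
    have := congrArg List.getLast? e'
    simpa using this
  rw [← e2] at h1 h2
  exact hA.elim h1 h2

theorem r_nil : 1 ∈ raise (cont (.nil : BinaryTree Unit)) := by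
  rw [cont_nil, raise_zero]
  exact Multiset.mem_singleton_self _

theorem r_lf : 2 ∈ raise (cont (.nil △ .nil : BinaryTree Unit)) := by
  have : raise (cont (.nil △ .nil : BinaryTree Unit)) = {2} := rfl
  rw [this]
  exact Multiset.mem_singleton_self _

/-- no word of an E triple -/
theorem FyP.not_E (h : FyP t) : t ≠ w1 .nil X .nil ∧ t ≠ w1 X .nil .nil ∧ t ≠ w1 .nil .nil X := by
  refine ⟨?_, ?_, ?_⟩
  · rintro rfl
    have := h.len
    rw [comps_w1] at this
    simp [comps] at this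
  · rintro rfl
    exact h.no_lst (Or.inl r_nil) (by rw [comps_w1]; rfl)
  · rintro rfl
    exact h.no_fst (Or.inl r_nil) (by rw [comps_w1]; rfl)

theorem FyP.not_tri (h : FyP t) (ht : IsTri .nil X .nil F' g') {w : OddHC.X k} (hw : w.1 = t) : w ∉ g'.B := by
  intro hw'
  rcases ht.words w hw' with e | ⟨_, e | e⟩ <;> rw [hw] at e
  · exact h.not_E.1 e
  · exact h.not_E.2.1 e
  · exact h.not_E.2.2 e

/-- **row E** -/
theorem TyFz.disj_tri (h : TyFz F g) (h' : IsTri .nil X .nil F' g') : ∀ w ∈ g.B, w ∉ g'.B :=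
  fun w hw => (h.fyp w hw).not_tri h' rfl

theorem TyFz.disj_E (h : TyFz F g) (h' : TyE F' g') : ∀ w ∈ g.B, w ∉ g'.B := by
  obtain ⟨j, r, f, _, _, ht⟩ := h'
  exact h.disj_tri ht

/-- **row L** -/
theorem TyFz.disj_L (h : TyFz F g) (h' : TyL F' g') : ∀ w ∈ g.B, w ∉ g'.B := by
  obtain ⟨R', e, -, -, -, -, ht⟩ := h'
  intro w hw hw'
  have hp := h.fyp w hw
  rcases ht.words w hw' with e | ⟨_, e | e⟩
  · exact hp.no_fst (Or.inl r_nil) (by rw [e, comps_w1]; rfl)
  · exact hp.no_lst (Or.inl r_nil) (by rw [e, comps_w1]; exact (List.append_cons _ _ _))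
  · exact hp.no_fst (Or.inl r_nil) (by rw [e, comps_w1]; rfl)

/-- **row K** -/
theorem TyFz.disj_K (h : TyFz F g) (h' : TyK S F' g') : ∀ w ∈ g.B, w ∉ g'.B := by
  intro w hw hw'
  have hp := h.fyp w hw
  rcases IsTri.words h' w hw' with e | ⟨_, e | e⟩
  · exact hp.no_lst (l := [S]) (Or.inl r_nil) (by rw [e, comps_w1]; rfl)
  · exact hp.no_lst (Or.inr r_lf) (by rw [e, comps_w1]; rfl)
  · exact hp.no_fst (Or.inl r_nil) (by rw [e, comps_w1]; rfl)

/-- **row K'** -/
theorem TyFz.disj_K' (h : TyFz F g) (h' : TyK' S F' g') : ∀ w ∈ g.B, w ∉ g'.B := by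
  intro w hw hw'
  have hp := h.fyp w hw
  rcases IsTri.words h' w hw' with e | ⟨_, e | e⟩
  · exact hp.no_fst (Or.inl r_nil) (by rw [e, comps_w1]; rfl)
  · exact hp.no_lst (l := comps S ++ [.nil]) (Or.inl r_nil) (by rw [e, comps_w1]; simp [comps])
  · exact hp.no_fst (Or.inr r_lf) (by rw [e, comps_w1]; rfl)

/-- **row C** (links with at most one part `≥ 3` in `U`) -/
theorem TyFz.disj_Cr (h : TyFz F g) {d : ℕ} {U : BinaryTree Unit} (hU : np3 (cont U) ≤ 1)
    (h' : TyC d U F' g') : ∀ w ∈ g.B, w ∉ g'.B :=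
  fun w hw => np3_disj_C hU h' (h.fyp w hw).n3

theorem TyFz.disj_Cl (h : TyFz F g) {d : ℕ} {U : BinaryTree Unit} (hU : np3 (cont U) ≤ 1)
    (h' : TyC' d U F' g') : ∀ w ∈ g.B, w ∉ g'.B := by
  intro w hw hw'
  have h1 := np3_TyC' h' w hw'
  have h2 := (h.fyp w hw).n3
  omega

end Pool.OddHC
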