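import Pool.Agent.Work.MP_8f87b2_h63.BWg
import Pool.Agent.Work.MP_8f87b2_h14.P5W

/-!
# MP_8f87b2_co: the 5-cycle groups P5, P5M against all gadgets on window words with `q ≥ 1` (`PWb g`, helper63)

Word rows `PWb.r_P5`, `PWb.r_P5M` (with helper14's condition `EdIn`), inner rows `PWb.i_P5`, `PWb.i_P5M` (no condition).
-/

set_option autoImplicit false

namespace Pool.OddHC

open Finset Equiv BinaryTree Pool.Agent.Work.MP_8f87b2_co P5 P5W

variable {k q : ℕ} {F F' : Set (Cyc k)} {g g' : DG k} {R B S U : BinaryTree Unit}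

theorem H1.PT.pw76 (h : H1.PT q R B S) : Pw R B S := by
  refine Pw.of h.pd.neR h.pd.neS ?_ ?_ ?_
  · intro e
    have := h.pd.R3 1 e
    omega
  · intro e
    have := h.pd.B3 1 e
    omega
  · intro e
    have := h.pd.S3 1 e
    omega

/-- **P5 against a gadget on window words** -/
theorem PWb.r_P5 (h' : PWb g') (h : TyP5D U F g) (hd : ∀ c ∈ F, c ∉ F') (hE : EdIn F g') :
    ∀ w ∈ g.B, w ∉ g'.B := by
  refine h.row' hd hE ?_ ?_
  · intro w hw _ e
    obtain ⟨q, R, B, S, i, h1, hi, ew⟩ := h'.w w hw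
    rw [H1.ch_eq] at ew
    exact h1.pd.L1 hi h.1.ne h.1.lb (ew.symm.trans e)
  · intro w hw _ e
    obtain ⟨q, R, B, S, i, h1, hi, ew⟩ := h'.w w hw
    have h2 := (pw_W h1.pw76 h.1.ne hi (ew.symm.trans e)).2.1
    have := h1.pd.q1
    omega

/-- **P5M against a gadget on window words** -/
theorem PWb.r_P5M (h' : PWb g') (h : TyP5MD U F g) (hd : ∀ c ∈ F, c ∉ F') (hE : EdIn F g') :
    ∀ w ∈ g.B, w ∉ g'.B := by
  refine h.row' hd hE ?_ ?_
  · intro w hw _ e
    obtain ⟨q, R, B, S, i, h1, hi, ew⟩ := h'.w w hw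
    rw [H1.ch_eq] at ew
    exact h1.pd.L2 hi h.1.ne h.1.fb (ew.symm.trans e)
  · intro w hw _ e
    obtain ⟨q, R, B, S, i, h1, hi, ew⟩ := h'.w w hw
    have h2 := (pm_W h1.pw76 h.1.ne hi (ew.symm.trans e)).2.1
    have := h1.pd.q1
    omega

/-- an inner word of a window is no word of P5 -/
theorem InnP_P5 {t : BinaryTree Unit} (h : H1.InnP 3 t) (i : ℕ) : t ≠ wR U i := by
  rintro rfl
  match i with
  | 0 =>
    have h1 := h.start (n := 2) (v := wd (U △ .nil) ++ [false]) (by
      change wd ((.nil △ (U △ .nil)) △ .nil) = _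
      simp [wd_node, wd, List.replicate])
    omega
  | 1 =>
    have h1 := h.start (n := 1) (v := wd (U △ o)) (by
      change wd (.nil △ (U △ o)) = _
      simp [wd_node, wd, List.replicate])
    omega
  | 2 =>
    have h1 := h.stop (n := 1) (v := wd U ++ [true, true, false, false]) (by
      change wd (app U (o △ o)) = _
      rw [wd_app]
      simp [wd_node, wd, o, List.replicate])
    omega
  | 3 =>
    have h1 := h.start (n := 2) (v := true :: false :: false :: wd U) (by
      change wd ((.nil △ o) △ U) = _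
      simp [wd_node, wd, o, List.replicate])
    omega
  | n + 4 =>
    have h1 := h.start (n := 1) (v := wd (.nil △ (U △ .nil))) (by
      change wd (.nil △ (.nil △ (U △ .nil))) = _
      simp [wd_node, wd, List.replicate])
    omega

/-- an inner word of a window is no word of P5M -/
theorem InnP_P5M {t : BinaryTree Unit} (h : H1.InnP 3 t) (i : ℕ) : t ≠ wM U i := by
  rintro rfl
  match i with
  | 0 =>
    have h1 := h.stop (n := 2) (v := true :: true :: (wd U ++ [false])) (by
      change wd ((U △ o) △ .nil) = _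
      simp [wd_node, wd, o, List.replicate])
    omega
  | 1 =>
    have h1 := h.stop (n := 1) (v := wd (U △ (.nil △ .nil))) (by
      change wd (U △ (.nil △ o)) = _
      simp [wd_node, wd, o, List.replicate])
    omega
  | 2 =>
    have h1 := h.stop (n := 2) (v := wd U ++ [true, true, false]) (by
      change wd (app U ((.nil △ o) △ .nil)) = _
      rw [wd_app]
      simp [wd_node, wd, o, List.replicate])
    omega
  | 3 =>
    have h1 := h.start (n := 1) (v := wd (o △ U)) (by
      change wd (.nil △ (o △ U)) = _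
      simp [wd_node, wd, List.replicate])
    omega
  | n + 4 =>
    have h1 := h.start (n := 1) (v := wd (U △ o)) (by
      change wd (.nil △ (U △ o)) = _
      simp [wd_node, wd, List.replicate])
    omega

/-- **inner words against P5** -/
theorem PWb.i_P5 (h : PWb g) (h' : TyP5D U F' g') : ∀ p ∈ g.arcs, ∀ w ∈ innA p, w ∉ g'.B := by
  intro p hp w hw hw'
  have h1 := h.innP p hp w hw
  rcases h'.mem w hw' with ⟨e, -⟩ | ⟨-, e | e | e | e⟩
  · exact InnP_P5 h1 0 e
  · exact InnP_P5 h1 1 e
  · exact InnP_P5 h1 2 e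
  · exact InnP_P5 h1 3 e
  · exact InnP_P5 h1 4 e

/-- **inner words against P5M** -/
theorem PWb.i_P5M (h : PWb g) (h' : TyP5MD U F' g') : ∀ p ∈ g.arcs, ∀ w ∈ innA p, w ∉ g'.B := by
  intro p hp w hw hw'
  have h1 := h.innP p hp w hw
  rcases h'.mem w hw' with ⟨e, -⟩ | ⟨-, e | e | e | e⟩
  · exact InnP_P5M h1 0 e
  · exact InnP_P5M h1 1 e
  · exact InnP_P5M h1 2 e
  · exact InnP_P5M h1 3 e
  · exact InnP_P5M h1 4 e

/-- P5 has no arcs -/
theorem TyP5D.no_arcs76 (h : TyP5D U F g) : g.arcs = ∅ := h.2.arcs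

theorem TyP5MD.no_arcs76 (h : TyP5MD U F g) : g.arcs = ∅ := h.2.arcs

end Pool.OddHC
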