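import Pool.Agent.Work.MP_8f87b2_h62.W3f
import Pool.Agent.Work.MP_8f87b2_h20.S5Ty

/-!
MP_8f87b2_co: the windows of height 3 (`TyT`) against the plain links of section 5 (`TyS5`), `3 ≤ s`: rows W-T-S5, I-T-S5.
-/

set_option autoImplicit false

namespace Pool.OddHC

open BinaryTree Equiv

theorem lp_S5 (n : ℕ) : lp (n + 1) = .nil △ lp n := rfl

theorem lastB_lp76 (n : ℕ) : H1.lastB (lp (n + 1)) = true := by
  induction n with
  | zero => rfl
  | succ n ih =>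
    rw [lp_S5, H1.lastB_cons (by rw [lp_S5]; simp)]
    exact ih

theorem ch_S5 {s : ℕ} (h : 3 ≤ s) : ∃ t, s = t + 3 ∧ H1.ch s = (((H1.ch t △ .nil) △ .nil) △ .nil) :=
  ⟨s - 3, by omega, by obtain ⟨t, rfl⟩ : ∃ t, s = t + 3 := ⟨s - 3, by omega⟩; rfl⟩

namespace H1

variable {k b m a : ℕ}

theorem L3_ne_lp (j : ℕ) (X : BinaryTree Unit) (ha : 1 ≤ a) (e : app (L3 m a) X = lp j) : False := by
  obtain ⟨a, rfl⟩ : ∃ a', a = a' + 1 := ⟨a - 1, by omega⟩
  induction m generalizing j with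
  | zero =>
    cases j with
    | zero => simp [L3, lv, lv2, app, lp] at e
    | succ j => simp [L3, lv, lv2, app, lp] at e
  | succ m ih =>
    cases j with
    | zero => simp [L3, lv, lv2, app, lp] at e
    | succ j => exact ih j (node_inj e).2

theorem L3_ne_lp3 (j : ℕ) (X Y : BinaryTree Unit) (ha : 1 ≤ a)
    (e : app (L3 m a) X = app (lp j) (((.nil △ .nil) △ .nil) △ Y)) : False := by
  obtain ⟨a, rfl⟩ : ∃ a', a = a' + 1 := ⟨a - 1, by omega⟩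
  induction m generalizing j with
  | zero =>
    cases j with
    | zero => simp [L3, lv, lv2, app, lp] at e
    | succ j => simp [L3, lv, lv2, app, lp] at e
  | succ m ih =>
    cases j with
    | zero => simp [L3, lv, lv2, app, lp] at e
    | succ j => exact ih j (node_inj e).2

/-- four beads in front -/
theorem t3_ne_b4 (hm : 1 ≤ m) {i : ℕ} (hi : i < 20) {Y : BinaryTree Unit}
    (e : w3 b m a i = .nil △ (.nil △ (.nil △ (.nil △ Y)))) : False := by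
  obtain ⟨m, rfl⟩ : ∃ m', m = m' + 1 := ⟨m - 1, by omega⟩
  rw [w3_fw b _ a i hi] at e
  interval_cases i <;> rcases b with _ | _ | b <;>
    simp [fw3, th, app, L3_m, t3G] at e

/-- four beads in front of the first inside -/
theorem t3_ne_ib4 (hm : 1 ≤ m) {i : ℕ} (hi : i < 20) {Y Z : BinaryTree Unit}
    (e : w3 b m a i = (.nil △ (.nil △ (.nil △ (.nil △ Y)))) △ Z) : False := by
  obtain ⟨m, rfl⟩ : ∃ m', m = m' + 1 := ⟨m - 1, by omega⟩
  rw [w3_fw b _ a i hi] at e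
  interval_cases i <;> rcases b with _ | _ | b <;>
    simp [fw3, th, app, L3_m, t3G] at e

/-- the first component is `[c]`, `c ≥ 4` -/
theorem t3_ne_ch4 (hm : 1 ≤ m) {i : ℕ} (hi : i < 20) {Y Z : BinaryTree Unit}
    (e : w3 b m a i = (((Y △ .nil) △ .nil) △ .nil) △ Z) : False := by
  obtain ⟨m, rfl⟩ : ∃ m', m = m' + 1 := ⟨m - 1, by omega⟩
  rw [w3_fw b _ a i hi] at e
  interval_cases i <;> rcases b with _ | _ | b <;>
    simp [fw3, th, app, L3_m, t3G] at e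

/-- `()([c]..)..`, `c ≥ 3` -/
theorem t3_ne_bch (hm : 1 ≤ m) {i : ℕ} (hi : i < 20) {Y Z V : BinaryTree Unit}
    (e : w3 b m a i = .nil △ ((((Y △ .nil) △ .nil) △ Z) △ V)) : False := by
  obtain ⟨m, rfl⟩ : ∃ m', m = m' + 1 := ⟨m - 1, by omega⟩
  rw [w3_fw b _ a i hi] at e
  interval_cases i <;> rcases b with _ | _ | b <;>
    simp [fw3, th, app, L3_m, t3G] at e

/-- `[c](()..)..`, `c ≥ 3` -/
theorem t3_ne_chb (hm : 1 ≤ m) {i : ℕ} (hi : i < 20) {Y Z V : BinaryTree Unit}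
    (e : w3 b m a i = ((Y △ .nil) △ .nil) △ ((.nil △ Z) △ V)) : False := by
  obtain ⟨m, rfl⟩ : ∃ m', m = m' + 1 := ⟨m - 1, by omega⟩
  rw [w3_fw b _ a i hi] at e
  interval_cases i <;> rcases b with _ | _ | b <;>
    simp [fw3, th, app, L3_m, t3G] at e

/-- `[c]()^n`, `n ≥ 4` -/
theorem t3_ne_chl (hm : 1 ≤ m) (ha : 1 ≤ a) {i n : ℕ} (hi : i < 20) {Y : BinaryTree Unit}
    (e : w3 b m a i = ((Y △ .nil) △ .nil) △ lp (n + 4)) : False := by
  obtain ⟨m, rfl⟩ : ∃ m', m = m' + 1 := ⟨m - 1, by omega⟩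
  rw [w3_fw b _ a i hi, lp_S5, lp_S5, lp_S5, lp_S5] at e
  interval_cases i <;> rcases b with _ | _ | b <;>
    simp [fw3, th, app, L3_m, t3G] at e <;>
    exact L3_ne_lp (n + 3) _ ha e.2

/-- `[c]()^n[3]()`, `n ≥ 2` -/
theorem t3_ne_chl3 (hm : 1 ≤ m) (ha : 1 ≤ a) {i n : ℕ} (hi : i < 20) {Y : BinaryTree Unit}
    (e : w3 b m a i = ((Y △ .nil) △ .nil) △ app (lp (n + 2)) (((.nil △ .nil) △ .nil) △ (.nil △ .nil))) :
    False := by
  obtain ⟨m, rfl⟩ : ∃ m', m = m' + 1 := ⟨m - 1, by omega⟩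
  have hL : L3 m a ≠ .nil := L3_ne ha
  by_cases h11 : i = 11
  · subst h11
    rw [w3_fw b _ a 11 hi, lp_S5, lp_S5] at e
    rcases b with _ | _ | b <;> rcases n with _ | _ | n <;>
      simp [fw3, th, app, L3_m, lp, lv] at e
    exact hL e.2
  · rw [w3_fw b _ a i hi, lp_S5, lp_S5] at e
    interval_cases i <;> try exact absurd rfl h11
    all_goals rcases b with _ | _ | b
    all_goals simp [fw3, th, app, L3_m, t3G] at e
    all_goals exact L3_ne_lp3 (n + 1) _ _ ha e.2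

/-- `(())(())..` -/
theorem t3_ne_tt (hm : 1 ≤ m) {i : ℕ} (hi : i < 20) {Y : BinaryTree Unit}
    (e : w3 b m a i = (.nil △ .nil) △ ((.nil △ .nil) △ Y)) : False := by
  obtain ⟨m, rfl⟩ : ∃ m', m = m' + 1 := ⟨m - 1, by omega⟩
  rw [w3_fw b _ a i hi] at e
  interval_cases i <;> rcases b with _ | _ | b <;>
    simp [fw3, th, app, L3_m, t3G] at e

/-- inner word against `(()^n)[s]` -/
theorem t3Y_ne_long {A : BinaryTree Unit} {i s : ℕ} (hi : i ∈ [0, 1, 3, 6, 8, 9]) :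
    t3Y b m a i ≠ A △ ch (s + 3) := by
  intro e
  rw [Y3_eq] at e
  have e2 : app (app (lv2 a .nil) (th b .nil)) (t3Z i) = ch (s + 2) △ .nil := (node_inj e).2
  rcases a with _ | a
  · rcases b with _ | b
    · simp only [List.mem_cons, List.not_mem_nil, or_false] at hi
      rcases hi with rfl | rfl | rfl | rfl | rfl | rfl <;> rcases s with _ | _ | _ | s <;>
        simp [lv2, th, app, t3Z, t3M, ch] at e2
    · exact Z3_ne i (app_eq_nil.1 (node_inj e2).2).2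
  · exact Z3_ne i (app_eq_nil.1 (node_inj e2).2).2

end H1

variable {k : ℕ} {F F' : Set (Cyc k)} {g g' : DG k}

/-- the inner words of T, with the index -/
theorem TyT.innerI (h : TyT F g) : ∀ p ∈ g.arcs, ∀ w ∈ innA p, ∃ b m a i : ℕ, 1 ≤ m ∧
    i ∈ [0, 1, 3, 6, 8, 9] ∧ w.1 = H1.t3Y b m a i := by
  obtain ⟨b, m, a, w0, h1, rfl, rfl⟩ := h
  intro p hp w hw
  have hw' : w = TT p.1 := hw
  subst hw'
  have hp' : p = (H1.tX b m a w0 0, H1.tX b m a w0 10) ∨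
      p = (H1.tX b m a w0 1, H1.tX b m a w0 11) ∨
      p = (H1.tX b m a w0 3, H1.tX b m a w0 12) ∨
      p = (H1.tX b m a w0 6, H1.tX b m a w0 15) ∨
      p = (H1.tX b m a w0 8, H1.tX b m a w0 14) ∨
      p = (H1.tX b m a w0 9, H1.tX b m a w0 17) := hp
  rcases hp' with rfl | rfl | rfl | rfl | rfl | rfl
  · exact ⟨b, m, a - 1, 0, h1.mpos, by simp, H1.TT_w3 h1.pos (by simp) (h1.word w0 (by norm_num))⟩
  · exact ⟨b, m, a - 1, 1, h1.mpos, by simp, H1.TT_w3 h1.pos (by simp) (h1.word w0 (by norm_num))⟩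
  · exact ⟨b, m, a - 1, 3, h1.mpos, by simp, H1.TT_w3 h1.pos (by simp) (h1.word w0 (by norm_num))⟩
  · exact ⟨b, m, a - 1, 6, h1.mpos, by simp, H1.TT_w3 h1.pos (by simp) (h1.word w0 (by norm_num))⟩
  · exact ⟨b, m, a - 1, 8, h1.mpos, by simp, H1.TT_w3 h1.pos (by simp) (h1.word w0 (by norm_num))⟩
  · exact ⟨b, m, a - 1, 9, h1.mpos, by simp, H1.TT_w3 h1.pos (by simp) (h1.word w0 (by norm_num))⟩

/-- **T against LONG** -/
theorem dj_T_long {s n : ℕ} (hs : 3 ≤ s) (hn : 2 ≤ n) (h : TyT F g)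
    (h' : IsTri (lp (n + 2)) (H1.ch s) .nil F' g') : ∀ w ∈ g.B, w ∉ g'.B := by
  intro w hw hw'
  obtain ⟨b, m, a, i, h1, hi, e1⟩ := h.word hw
  obtain ⟨t, rfl, ec⟩ := ch_S5 hs
  obtain ⟨n, rfl⟩ : ∃ n', n = n' + 2 := ⟨n - 2, by omega⟩
  rcases h'.words w hw' with e2 | ⟨_, e2 | e2⟩
  · exact H1.t3_ne_b4 h1.mpos hi (e1.symm.trans e2)
  · exact H1.t3_ne_chl (n := n + 1) h1.mpos h1.pos hi (Y := H1.ch t) (e1.symm.trans e2)
  · exact H1.t3_ne_ib4 h1.mpos hi (e1.symm.trans e2)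

/-- **T against LONG**, mirrored -/
theorem dj_T_long' {s n : ℕ} (hs : 3 ≤ s) (hn : 2 ≤ n) (h : TyT F g)
    (h' : IsTri .nil (H1.ch s) (lp (n + 2)) F' g') : ∀ w ∈ g.B, w ∉ g'.B := by
  intro w hw hw'
  obtain ⟨b, m, a, i, h1, hi, e1⟩ := h.word hw
  obtain ⟨t, rfl, ec⟩ := ch_S5 hs
  obtain ⟨n, rfl⟩ : ∃ n', n = n' + 2 := ⟨n - 2, by omega⟩
  rcases h'.words w hw' with e2 | ⟨_, e2 | e2⟩
  · exact H1.t3_ne_ch4 h1.mpos hi (Y := H1.ch t) (Z := lp (n + 2 + 2)) (e1.symm.trans e2)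
  · exact H1.t3_ne_chb h1.mpos hi (Y := H1.ch t) (Z := lp (n + 2 + 1)) (V := .nil) (e1.symm.trans e2)
  · exact H1.t3_ne_b4 h1.mpos hi (e1.symm.trans e2)

/-- **T against** `() ([s] ()^n) (())` -/
theorem dj_T_s5 {s n : ℕ} (hs : 3 ≤ s) (hn : 2 ≤ n) (h : TyT F g)
    (h' : IsTri (lp 1) (app (H1.ch s) (lp n)) (H1.ch 2) F' g') : ∀ w ∈ g.B, w ∉ g'.B := by
  intro w hw hw'
  obtain ⟨b, m, a, i, h1, hi, e1⟩ := h.word hw
  obtain ⟨t, rfl, ec⟩ := ch_S5 hs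
  obtain ⟨n, rfl⟩ : ∃ n', n = n' + 2 := ⟨n - 2, by omega⟩
  rcases h'.words w hw' with e2 | ⟨_, e2 | e2⟩
  · exact H1.t3_ne_bch h1.mpos hi (Y := H1.ch t) (Z := lp (n + 2)) (V := H1.ch 2) (e1.symm.trans e2)
  · exact H1.t3_ne_chl3 (n := n) h1.mpos h1.pos hi (Y := H1.ch t) (e1.symm.trans e2)
  · exact H1.t3_ne_tt h1.mpos hi (e1.symm.trans e2)

/-- **T against S5**: the words -/
theorem dj_TS5' (h : TyT F g) (h' : TyS5 F' g') : ∀ w ∈ g.B, w ∉ g'.B := by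
  obtain ⟨s, n, hs, hn, h' | h' | h'⟩ := h'
  · exact dj_T_long (by omega) hn h h'
  · exact dj_T_long' (by omega) hn h h'
  · exact dj_T_s5 (by omega) hn h h'

theorem dj_TS5 : Dj (k := k) TyT TyS5 := fun _ _ _ _ h h' _ => dj_TS5' h h'

theorem TyT.inner_long {s n : ℕ} (hs : 3 ≤ s) (h : TyT F g)
    (h' : IsTri (lp (n + 2)) (H1.ch s) .nil F' g') : ∀ p ∈ g.arcs, ∀ w ∈ innA p, w ∉ g'.B := by
  obtain ⟨t, rfl, ec⟩ := ch_S5 hs
  intro p hp w hwi hw'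
  obtain ⟨b, m, a, i, hm, hi, e⟩ := h.innerI p hp w hwi
  rcases h'.words w hw' with e2 | ⟨_, e2 | e2⟩
  · have := H1.fb_Y3 (b := b) (m := m) (a := a) i
    rw [← e, e2] at this
    simp [w1, lp_S5, app, H1.fb, H1.isNil] at this
  · have := H1.lastB_Y3 (b := b) (m := m) (a := a) i
    rw [← e, e2] at this
    change H1.lastB (app (H1.ch (t + 3)) (lp (n + 2 + 1))) = false at this
    rw [H1.lastB_app (by rw [lp_S5]; simp), lastB_lp76] at this
    exact absurd this (by simp)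
  · have e3 : H1.t3Y b m a i = lp (n + 2) △ H1.ch (t + 3) := e.symm.trans e2
    exact H1.t3Y_ne_long hi e3

theorem TyT.inner_long' {s n : ℕ} (hs : 3 ≤ s) (h : TyT F g)
    (h' : IsTri .nil (H1.ch s) (lp (n + 2)) F' g') : ∀ p ∈ g.arcs, ∀ w ∈ innA p, w ∉ g'.B := by
  obtain ⟨t, rfl, ec⟩ := ch_S5 hs
  apply h.inner_hd h'
  rintro Y (rfl | rfl | rfl)
  · right; left
    change H1.lastB (H1.ch (t + 3) △ lp (n + 1 + 1)) = true
    rw [H1.lastB_cons (by rw [lp_S5]; simp)]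
    exact lastB_lp76 _
  · right; right; right; right; right
    exact ⟨t + 2, rfl⟩
  · left; rfl

theorem TyT.inner_s5 {s n : ℕ} (hn : 2 ≤ n) (h : TyT F g)
    (h' : IsTri (lp 1) (app (H1.ch s) (lp n)) (H1.ch 2) F' g') : ∀ p ∈ g.arcs, ∀ w ∈ innA p, w ∉ g'.B := by
  obtain ⟨n, rfl⟩ : ∃ n', n = n' + 2 := ⟨n - 2, by omega⟩
  apply h.inner_hd h'
  rintro Y (rfl | rfl | rfl)
  · left; rfl
  · right; left
    change H1.lastB (app (app (H1.ch s) (lp (n + 2))) (H1.ch 2 △ (.nil △ .nil))) = true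
    rw [H1.lastB_app (by simp)]
    rfl
  · right; left
    change H1.lastB (app (H1.ch 2) ((.nil △ .nil) △ app (H1.ch s) (lp (n + 1 + 1)))) = true
    have hne : app (H1.ch s) (lp (n + 1 + 1)) ≠ .nil := by
      intro h0
      have := H1.app_eq_nil.1 h0
      rw [lp_S5] at this
      simp at this
    rw [H1.lastB_app (by simp), H1.lastB_cons hne, H1.lastB_app (by rw [lp_S5]; simp)]
    exact lastB_lp76 _

/-- **T against S5**: the inner words of T -/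
theorem TyT.inner_S5 (h : TyT F g) (h' : TyS5 F' g') : ∀ p ∈ g.arcs, ∀ w ∈ innA p, w ∉ g'.B := by
  obtain ⟨s, n, hs, hn, h' | h' | h'⟩ := h'
  · exact h.inner_long (by omega) h'
  · exact h.inner_long' (by omega) h'
  · exact h.inner_s5 hn h'

end Pool.OddHC
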