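import Pool.Agent.Work.MP_8f87b2_h76.FyW
import Pool.Agent.Work.MP_8f87b2_fin.MatR
import Pool.Agent.Work.MP_8f87b2_fin.MatS
import Pool.Agent.Work.MP_8f87b2_fin.MatJ
import Pool.Agent.Work.MP_8f87b2_fin.MatN
import Pool.Agent.Work.MP_8f87b2_h29.DnRows
import Pool.Agent.Work.MP_8f87b2_fin.MatIR
import Pool.Agent.Work.MP_8f87b2_h50.J3Rows
import Pool.Agent.Work.MP_8f87b2_h25.JEOut

/-!
# MP_8f87b2_co: the rows of the type `TyFz` (content link of a fixed bare word)

Word rows `r_Fz_X`, and `i_Fz` (no arcs).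
-/

set_option autoImplicit false

namespace Pool.OddHC

open Finset Equiv BinaryTree Multiset Pool.Agent.Work.MP_8f87b2_co

variable {k c : ℕ} {R t X S : BinaryTree Unit} {F F' : Set (Cyc k)} {g g' : DG k}

theorem FxD.ge3 (h : FxD c R) : ∀ x ∈ cont R, 3 ≤ x := fun x hx => by
  have := h.part x hx
  have := h.c3
  omega

theorem FxD.hv (h : FxD c R) : H1.hv R := H1.hv_of_cont h.ge3

theorem FxD.um (h : FxD c R) : H1.UM R := H1.um_hv h.hv

theorem FxD.fb (h : FxD c R) : H1.fb R = false := H1.hv_fb h.hv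

theorem FxD.hf (h : FxD c R) : H1.Hf R := by
  have := H1.Hf.of h.hv h.ne (show H1.bl .nil = true from rfl)
  rwa [H1.app_nil] at this

theorem one_or_two {A : BinaryTree Unit} (h : 1 ∈ cont A) : 1 ∈ raise (cont A) ∨ 2 ∈ raise (cont A) := by
  unfold raise
  rcases Nat.lt_or_ge ((cont A).sup) 2 with h1 | h1
  · right
    have h2 := Multiset.le_sup h
    have h3 : (cont A).sup = 1 := by omega
    rw [h3]
    exact Multiset.mem_cons_self _ _
  · left
    exact Multiset.mem_cons_of_mem ((Multiset.mem_erase_of_ne (by omega)).2 h)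

/-- no word of a window with `Q = ()` -/
theorem FyP.not_W {R B S : BinaryTree Unit} (h : FyP t) {i : ℕ} (hi : i < 20) : t ≠ H1.W R .nil B S i := by
  have hb : 1 ∈ cont (.nil △ .nil : BinaryTree Unit) := by
    rw [cont_node, cont_nil, add_zero]
    exact Multiset.mem_singleton_self _
  rintro rfl
  interval_cases i
  · exact h.no_lst (Or.inr r_lf) (comps_app _ _)
  · refine h.no_lst (l := comps R ++ [.nil]) (Or.inl r_nil) ?_
    change comps (app R (.nil △ (.nil △ .nil))) = _
    rw [comps_app]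
    simp [comps]
  · exact h.no_fst (Or.inl r_nil) rfl
  · have := h.len
    simp [H1.W, comps] at this
  · exact h.no_fst (Or.inr r_lf) rfl
  · exact h.no_fst (Or.inl r_nil) rfl
  · refine h.no_lst (l := [R]) (Or.inl r_nil) rfl
  · have := h.len
    simp [H1.W, comps, app] at this
  · exact h.no_fst (Or.inl r_nil) rfl
  · have := h.len
    simp [H1.W, comps] at this
  · apply h.c2
    change 2 ∈ cont (app B ((.nil △ .nil) △ S))
    rw [cont_app, cont_node]
    exact Multiset.mem_add.2 (Or.inr (Multiset.mem_add.2 (Or.inl (by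
      rw [cont_node, cont_nil, add_zero]
      exact Multiset.mem_singleton_self _))))
  · have h1 := h.c1
    change (cont (app B (.nil △ (.nil △ S)))).count 1 ≤ 1 at h1
    rw [cont_app, cont_node, cont_node, Multiset.count_add, Multiset.count_add, Multiset.count_add, cont_nil,
      raise_zero, Multiset.count_singleton_self] at h1
    omega
  · refine h.no_lst (l := S :: comps B) (Or.inl r_nil) ?_
    change comps (S △ app B (.nil △ .nil)) = _
    rw [comps_node, comps_app]
    rfl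
  · refine h.no_lst (one_or_two (A := app B (.nil △ .nil)) ?_) (comps_app _ _)
    rw [cont_app]
    exact Multiset.mem_add.2 (Or.inr hb)
  · refine h.no_fst (one_or_two (A := .nil △ S) ?_) rfl
    rw [cont_node, cont_nil, raise_zero]
    exact Multiset.mem_add.2 (Or.inl (Multiset.mem_singleton_self _))
  · exact h.no_fst (Or.inl r_nil) rfl
  · refine h.no_lst (l := comps S ++ [B]) (Or.inl r_nil) ?_
    change comps (app S (B △ (.nil △ .nil))) = _
    rw [comps_app]
    simp [comps]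
  · have := h.len
    simp [H1.W, comps, app] at this
  · exact h.no_fst (Or.inl r_nil) rfl
  · have := h.len
    simp [H1.W, comps] at this

/-- no word of the gadget `JV` -/
theorem FyP.not_w9 {R X : BinaryTree Unit} (h : FyP t) {i : ℕ} (hi : i < 9) : t ≠ w9 R X i := by
  have l1 : ∀ A : BinaryTree Unit, (comps (A △ .nil)).length = 1 := fun A => rfl
  rintro rfl
  interval_cases i
  · exact h.no_lst (Or.inr r_lf) (comps_app _ _)
  · exact h.no_fst (Or.inr r_lf) rfl
  · exact absurd (h.len.trans_eq (l1 _)) (by omega)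
  · exact absurd (h.len.trans_eq (l1 _)) (by omega)
  · exact absurd (h.len.trans_eq (l1 _)) (by omega)
  · exact h.no_lst (l := [R]) (Or.inl r_nil) rfl
  · exact absurd (h.len.trans_eq (l1 _)) (by omega)
  · exact h.no_lst (Or.inl r_nil) (comps_app _ _)
  · exact h.no_fst (Or.inl r_nil) rfl

theorem comps_mir76 (t : BinaryTree Unit) : comps (Tsq.mir t) = (comps t).reverse.map Tsq.mir := by
  induction t with
  | nil => rfl
  | node _ A B _ ihB =>
    change comps (Tsq.mir (A △ B)) = (A :: comps B).reverse.map Tsq.mir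
    rw [Tsq.mir_node, comps_app, ihB, List.reverse_cons, List.map_append]
    rfl

/-- the features are symmetric -/
theorem FyP.mir (h : FyP t) : FyP (Tsq.mir t) := by
  have hc := comps_mir76 t
  refine ⟨?_, ?_, ?_, ?_, ?_, ?_⟩
  · rw [HM.cont_mir]; exact h.c2
  · rw [HM.cont_mir]; exact h.c1
  · rw [HM.cont_mir]; exact h.n3
  · obtain ⟨A, l, e, h1, h2⟩ := h.lst
    refine ⟨Tsq.mir A, (l.reverse).map Tsq.mir, ?_, by rwa [HM.cont_mir], by rwa [HM.cont_mir]⟩
    rw [hc, e]
    simp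
  · obtain ⟨A, l, e, h1, h2⟩ := h.fst
    refine ⟨Tsq.mir A, (l.reverse).map Tsq.mir, ?_, by rwa [HM.cont_mir], by rwa [HM.cont_mir]⟩
    rw [hc, e]
    simp
  · rw [hc, List.length_map, List.length_reverse]
    exact h.len

/-- no mirrored word of a window with `Q = ()` -/
theorem FyP.not_Wm {R B S : BinaryTree Unit} (h : FyP t) {i : ℕ} (hi : i < 20) :
    t ≠ Tsq.mir (H1.W R .nil B S i) := by
  intro e
  refine h.mir.not_W hi (R := R) (B := B) (S := S) ?_
  rw [e, Tsq.mir_mir]

/-- no mirrored word of the gadget `JV` -/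
theorem FyP.not_w9m {R X : BinaryTree Unit} (h : FyP t) {i : ℕ} (hi : i < 9) : t ≠ Tsq.mir (w9 R X i) := by
  intro e
  refine h.mir.not_w9 hi (R := R) (X := X) ?_
  rw [e, Tsq.mir_mir]

namespace MW

theorem r_E_Fz (h : TyE F g) (h' : TyFz F' g') : NC g g' := NC.symm (h'.disj_E h)

theorem r_Ed_Fz (h : TyEd F g) (h' : TyFz F' g') : NC g g' := NC.symm (h'.disj_E h.toE)

theorem r_L_Fz (h : TyL F g) (h' : TyFz F' g') : NC g g' := NC.symm (h'.disj_L h)

theorem r_TyKh_Fz (h : TyKh F g) (h' : TyFz F' g') : NC g g' := by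
  obtain ⟨S, _, h2⟩ := h
  exact NC.symm (h'.disj_K h2)

theorem r_KmS_Fz (h : KmS F g) (h' : TyFz F' g') : NC g g' := by
  obtain ⟨S, _, _, _, _, _, h2⟩ := h
  exact NC.symm (h'.disj_K' h2)

/-- content links with at most one large part in `U` -/
def sC1 (F : Set (Cyc k)) (g : DG k) : Prop := ∃ c U, (TyC c U F g ∨ TyC' c U F g) ∧ np3 (cont U) ≤ 1

theorem r_C_Fz (hs : sC1 F g) (h' : TyFz F' g') : NC g g' := by
  obtain ⟨c, U, h1 | h1, h2⟩ := hs
  · exact NC.symm (h'.disj_Cr h2 h1)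
  · exact NC.symm (h'.disj_Cl h2 h1)

/-- **DOWN** -/
theorem r_Dn_Fz (h : TyDn F g) (h' : TyFz F' g') : NC g g' := by
  obtain ⟨U, hU, h2⟩ := h
  obtain ⟨c, R, hR, hw⟩ := h'.words
  intro w hw1 hw2
  have hf := h'.fyp w hw2
  rcases IsTri.words h2 w hw1 with e | ⟨_, e | e⟩
  · apply hf.c2
    rw [e, cont_w1, show cont (H1.ch 2) = {2} from H1.ch_cont 1]
    simp
  · have hc : comps w.1 = comps U ++ [H1.ch 2] := by
      rw [e, comps_w1]
      rfl
    rcases hw w hw2 with e2 | ⟨_, e2 | e2⟩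
    · rw [e2, comps_w1, comps_chc (by have := hR.c3; omega)] at hc
      have h3 := congrArg List.dropLast hc
      simp [comps] at h3
      cases U with
      | nil => simp [comps] at h3
      | node _ A B =>
        rw [comps_node, List.cons.injEq] at h3
        have : B = .nil := by
          cases B with
          | nil => rfl
          | node _ _ _ => simp [comps] at h3
        exact hU.two A (by rw [this])
    · rw [e2, comps_w1] at hc
      have h3 := congrArg List.getLast? hc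
      simp [comps] at h3
      have h4 := congrArg OddHC.ht h3
      rw [H1.ch_ht, H1.ch_ht] at h4
      have := hR.c3
      omega
    · obtain ⟨A, l, h3, h4⟩ := hR.snoc
      rw [e2, comps_w1, h3] at hc
      have h5 := congrArg List.reverse hc
      simp at h5
      replace h5 := h5.1
      have h6 : 3 ∈ raise (cont A) := by
        rw [h5, show cont (H1.ch 2) = {2} from H1.ch_cont 1, raise_single]
        exact Multiset.mem_singleton_self _
      have h7 := hR.cpart h4 h6
      have := hR.c3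
      omega
  · apply hf.c2
    rw [e, cont_w1, show cont (H1.ch 2) = {2} from H1.ch_cont 1]
    simp

/-- **Fz - Fz** -/
theorem r_Fz_Fz (h : TyFz F g) (h' : TyFz F' g') (hd : ∀ c ∈ F, c ∉ F') : NC g g' := by
  obtain ⟨c, R, hR, h1⟩ := h
  obtain ⟨c', R', hR', h1'⟩ := h'
  have hc := hR.c3
  have hc' := hR'.c3
  intro w hw hw'
  have key : ∀ {c c' : ℕ} {R R' : BinaryTree Unit}, FxD c R → FxD c' R' → w.1 = w1 .nil R (H1.ch c) →
      ¬ (w.1 = w1 R' (H1.ch c') .nil ∨ w.1 = w1 (H1.ch c') .nil R') := by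
    intro c c' R R' hR hR' e h2
    have hc := hR.c3
    have hc' := hR'.c3
    have hl := hR'.two
    have e1 : (comps w.1).length = 2 := by
      rw [e, comps_w1, comps_chc (by omega)]
      simp [comps]
    rcases h2 with e2 | e2
    · rw [e2, comps_w1] at e1
      simp [comps] at e1
      omega
    · rw [e2, comps_w1, comps_chc (by omega)] at e1
      simp only [List.length_append, List.length_cons, List.length_nil] at e1
      omega
  rcases IsTri.words h1 w hw with e | ⟨hF, e⟩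
  · rcases IsTri.words h1' w hw' with e' | ⟨_, e'⟩
    · have e2 : comps (w1 .nil R (H1.ch c)) = comps (w1 .nil R' (H1.ch c')) := by rw [← e, ← e']
      rw [comps_w1, comps_w1, comps_chc (by omega), comps_chc (by omega)] at e2
      simp [comps] at e2
      obtain ⟨e3, e4⟩ := e2
      have e5 := congrArg OddHC.ht e4
      rw [H1.ch_ht, H1.ch_ht] at e5
      obtain rfl : c = c' := by omega
      subst e3
      obtain ⟨a, b, d, ha, hb, hd', -, -, -, rfl, -⟩ := h1
      obtain ⟨a', b', d', ha', hb', hd'', -, -, -, rfl, -⟩ := h1'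
      have : b = b' := Subtype.ext (by rw [hb, hb'])
      rw [this] at hd
      exact hd (cyc b') (Or.inl rfl) (Or.inl rfl)
    · exact key hR hR' e e'
  · rcases IsTri.words h1' w hw' with e' | ⟨hF', _⟩
    · exact key hR' hR e' e
    · exact hd _ hF hF'

/-- **S5** -/
theorem r_S5_Fz (h : TyS5 F g) (h' : TyFz F' g') : NC g g' := by
  have n0 : ∀ m, np3 (cont (lp m)) = 0 := by
    intro m
    induction m with
    | zero => rfl
    | succ m ih =>
      change np3 (cont (.nil △ lp m)) = 0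
      rw [cont_node, np3_add, np3_rnil, ih]
  have n1 : ∀ m, np3 (raise (cont (lp m))) ≤ 1 := by
    intro m
    have := np3_raise_le (cont (lp m))
    rw [n0] at this
    omega
  have nz : np3 (cont BinaryTree.nil) = 0 := by rw [cont_nil, np3_zero]
  have nr := np3_rnil
  have ns : ∀ s, np3 (cont (H1.ch s)) ≤ 1 := by
    intro s
    rw [H1.ch_eq]
    exact np3_pc s
  have nt : ∀ s, np3 (raise (cont (H1.ch s))) ≤ 1 := by
    intro s
    rw [H1.ch_eq]
    exact np3_rpc s
  have na : ∀ s m, np3 (cont (app (H1.ch s) (lp m))) ≤ 1 := by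
    intro s m
    rw [cont_app, np3_add, n0]
    exact ns s
  have nb : ∀ s m, np3 (raise (cont (app (H1.ch s) (lp m)))) ≤ 1 := by
    intro s m
    have h1 := np3_raise_le (cont (app (H1.ch s) (lp m)))
    have h2 := na s m
    omega
  have n2 : np3 (cont (H1.ch 2)) = 0 := by
    rw [show cont (H1.ch 2) = {2} from H1.ch_cont 1, np3_one]
    rfl
  have key : ∀ w ∈ g.B, np3 (cont w.1) ≤ 2 := by
    obtain ⟨s, n, -, -, h | h | h⟩ := h
    · refine np3_tri h ?_ ?_ ?_
      · have := n0 (n + 2); have := nt s; omega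
      · have := n0 (n + 2); have := ns s; omega
      · have := n1 (n + 2); have := ns s; omega
    · refine np3_tri h ?_ ?_ ?_
      · have := n0 (n + 2); have := nt s; omega
      · have := n1 (n + 2); have := ns s; omega
      · have := n0 (n + 2); have := ns s; omega
    · refine np3_tri h ?_ ?_ ?_
      · have := n0 1; have := nb s n; omega
      · have := n0 1; have := na s n; have := nt 2; omega
      · have := n1 1; have := na s n; omega
  intro w hw hw'
  have h1 := key w hw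
  have h2 := (h'.fyp w hw').n3
  omega

/-- **A** -/
theorem r_A_Fz (h : TyA F g) (h' : TyFz F' g') : NC g g' := by
  obtain ⟨c, R, hR, h1⟩ := h'
  exact h.disj_C h1 hR.um

/-- **T** -/
theorem r_T_Fz (h : TyT F g) (h' : TyFz F' g') : NC g g' := by
  intro w hw hw'
  obtain ⟨b, m, a, i, h1, hi, e1⟩ := h.word hw
  have hR : T2 (H1.R3 b m a) := by
    refine ⟨Multiset.count_pos.1 (by rw [H1.count2_R3]; exact h1.pos), ?_⟩
    rw [← ht_eq, H1.ht_R3]
  have hS : T2 (H1.S3 m a) := by
    refine ⟨Multiset.count_pos.1 (by rw [H1.count2_S3]; exact h1.pos), ?_⟩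
    rw [← ht_eq, (H1.dat3 b m a).htS, H1.ht_R3]
  apply (h'.fyp w hw').c2
  rw [e1]
  exact (T2.words hR hS hi).1

/-- **J1** -/
theorem r_J1_Fz (h : J1.TyJs F g) (h' : TyFz F' g') (hd : ∀ c ∈ F, c ∉ F') : NC g g' := by
  obtain ⟨c, R, hR, h1⟩ := h'
  have hc := hR.c3
  refine NC.symm (J1.js_C h1 h (dsymm hd) (by omega) hR.ht hR.fb ?_)
  rintro n rfl
  have := hR.two
  simp [comps] at this

/-- **J4** -/
theorem r_J4_Fz (hk : 13 ≤ k) (h : J1.TyJt F g) (h' : TyFz F' g') (hd : ∀ c ∈ F, c ∉ F') : NC g g' := by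
  obtain ⟨c, R, hR, h1⟩ := h'
  have hc := hR.c3
  refine NC.symm (J1.jt_C h1 h (dsymm hd) (by omega) hR.ht hk ?_)
  rintro s ⟨-, rfl⟩
  apply hR.no1
  rw [cont_app, cont_node]
  exact Multiset.mem_add.2 (Or.inr (Multiset.mem_add.2 (Or.inl (by
    rw [cont_nil, raise_zero]
    exact Multiset.mem_singleton_self _))))

/-- **J3V** -/
theorem r_J3V_Fz (h : TyJ3V F g) (h' : TyFz F' g') : NC g g' := by
  obtain ⟨R, B, S, -, hw⟩ := h.words
  intro w h1 h2
  obtain ⟨i, hi, -, e⟩ := hw w h1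
  exact (h'.fyp w h2).not_W hi e

/-- **JE** -/
theorem r_JE_Fz (h : JES F g) (h' : TyFz F' g') : NC g g' := by
  obtain ⟨R, B, S, w0, h1, hp, -, rfl⟩ := h
  intro w hw hw'
  unfold gadG13 at hw
  obtain ⟨i, hi, rfl⟩ := mem_gadOf_B.1 hw
  have hall : ∀ i ∈ ixG13, i < 20 := by decide
  have hi' := hall i hi
  exact (h'.fyp _ hw').not_W hi' (h1.word w0 hi')

/-- **JV** -/
theorem r_JV_Fz {S : BinaryTree Unit} (h : Is9 .nil .nil S F g) (h' : TyFz F' g') : NC g g' := by
  obtain ⟨w, h1, rfl, rfl⟩ := h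
  intro x hx hx'
  obtain ⟨i, hi, rfl⟩ := mem_gad9.1 hx
  exact (h'.fyp _ hx').not_w9 hi (h1.word i hi)

/-! ### Inner words -/

/-- a link has no arcs -/
theorem i_Fz (h : TyFz F g) : NI g g' := by
  obtain ⟨c, R, -, h1⟩ := h
  exact NI.of_empty (IsTri.arcs h1)

theorem i_A_Fz (h : TyA F g) (h' : TyFz F' g') : NI g g' := by
  obtain ⟨c, R, hR, h1⟩ := h'
  have h2 : TyC c (app R (lp 0)) F' g' := by
    rw [show lp 0 = .nil from rfl, H1.app_nil]
    exact h1
  exact fun p hp w hw => h.inner_Cr h2 hR.hv hR.ne hR.c3 hp w hw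

theorem i_R3_Fz (h : TyR3 F g) (h' : TyFz F' g') (hd : ∀ c ∈ F, c ∉ F')
    (hle : ∀ c ∈ F, ∀ d ∈ F', htc c ≤ htc d) : NI g g' := by
  obtain ⟨c, R, hR, h1⟩ := h'
  have hc := hR.c3
  exact i_R3_C h hd hle (Or.inl ⟨c, R, h1, by omega, (H1.nb_hv hR.hv).vb 0, fun x hx => Or.inr (hR.part x hx), hR.ht⟩)

theorem i_S3_Fz (h : TyS3 F g) (h' : TyFz F' g') (hd : ∀ c ∈ F, c ∉ F')
    (hle : ∀ c ∈ F, ∀ d ∈ F', htc c ≤ htc d) : NI g g' := by
  obtain ⟨c, R, hR, h1⟩ := h'
  have hc := hR.c3
  exact i_S3_C h hd hle (Or.inl ⟨c, R, h1, by omega, (H1.nb_hv hR.hv).vb 0, fun x hx => Or.inr (hR.part x hx), hR.ht⟩)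

theorem i_T_Fz (h : TyT F g) (h' : TyFz F' g') : NI g g' := by
  obtain ⟨c, R, hR, h1⟩ := h'
  have hc := hR.c3
  exact h.inner_C h1 (by omega) hR.hf

theorem i_J1_Fz (hk : 13 ≤ k) (h : J1.TyJs F g) (h' : TyFz F' g') : NI g g' := by
  obtain ⟨c, R, hR, h1⟩ := h'
  have hc := hR.c3
  exact h.inner_C hk h1 (by omega)

theorem i_J4_Fz (hk : 13 ≤ k) (h : J1.TyJt F g) (h' : TyFz F' g') : NI g g' := by
  obtain ⟨c, R, hR, h1⟩ := h'
  have hc := hR.c3
  exact h.inner_C hk h1 (by omega)

theorem i_J3V_Fz (h : TyJ3V F g) (h' : TyFz F' g') : NI g g' := by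
  obtain ⟨c, R, hR, h1⟩ := h'
  exact h.inner_Cr h1 ((J3.nbb_hv hR.ge3).bv 0)

/-- `T(((S)))` is no word of the link -/
def sJV_Fz (k : ℕ) (S : BinaryTree Unit) (F' : Set (Cyc k)) (g' : DG k) : Prop :=
  ∀ c R, FxD c R → TyC c R F' g' → JVI.N3 k S (R △ H1.ch c) ∧ JVI.N3 k S (app R (H1.ch (c + 1)))

theorem i_JV_Fz {S : BinaryTree Unit} (h : Is9 .nil .nil S F g) (h1 : ∀ x ∈ cont S, 2 ≤ x) (h3 : 3 ≤ OddHC.ht S)
    (h' : TyFz F' g') (hn : sJV_Fz k S F' g') : NI g g' := by
  obtain ⟨c, R, hR, h2⟩ := h'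
  have hc := hR.c3
  have h4 : TyC c (app R (lp 0)) F' g' := by
    rw [show lp 0 = .nil from rfl, H1.app_nil]
    exact h2
  exact h.inner_Cr h1 h3 ((SRun.Gd_of hR.ne (Multiset.count_eq_zero.2 hR.no1)).1) (by omega) h4 fun _ => hn c R hR h2

theorem i_JE_Fz {S : BinaryTree Unit} (h : TyJE S F g) (h' : TyFz F' g') (hn : sJV_Fz k S F' g') : NI g g' := by
  obtain ⟨c, R, hR, h2⟩ := h'
  have hc := hR.c3
  have h4 : TyC c (app R (lp 0)) F' g' := by
    rw [show lp 0 = .nil from rfl, H1.app_nil]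
    exact h2
  exact h.inner_Cr ((SRun.Gd_of hR.ne (Multiset.count_eq_zero.2 hR.no1)).1) (by omega) h4 fun _ => hn c R hR h2

end MW

end Pool.OddHC
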