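import Pool.Agent.Work.MP_8f87b2_h76.CertB9
import Pool.Agent.Work.MP_8f87b2_h76.B0w
import Pool.Agent.Work.MP_8f87b2_h35.Gen20
import Pool.Agent.Work.MP_8f87b2_h13.A0Low
import Pool.Agent.Work.MP_8f87b2_h60.InAr

/-!
# MP_8f87b2_co: type B9 = the merged mirrored bare window with `B = e` and word 18 on the T-cycle of word 2

`TyB9 F g`: `F = {cyc w0, cyc w1, cyc w2}`, all twenty words, arcs `12>3, 15>6, 14>8, 17>9`.
`TyB9.toA0`: the words and arcs are words and arcs of a gadget of type A0, so all rows of A0 hold.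
`NodeM.exB`: for `1 ≤ q` (parts `≥ 4`) there is always a gadget B0 or B9. `bare_B`: existence for a bare T-cycle.
-/

set_option autoImplicit false

set_option synthInstance.maxSize 1000

namespace Pool.OddHC

open Finset Equiv BinaryTree Pool.Agent.Work.MP_8f87b2_co HM

variable {k : ℕ} {F F' : Set (Cyc k)} {g g' : DG k}

/-- numbers of the words -/
def ixB9 : List ℕ := [0, 1, 2, 3, 4, 5, 6, 7, 8, 9, 10, 11, 12, 13, 14, 15, 16, 17, 18, 19]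

/-- new T-cycles with one word -/
def sgB9 : List ℕ := []

/-- new T-cycles with two words -/
def prB9 : List (ℕ × ℕ) := [(0, 10), (1, 11), (2, 18)]

/-- arcs -/
def arB9 : List (ℕ × ℕ) := [(12, 3), (15, 6), (14, 8), (17, 9)]

/-- old words -/
def odB9 : List ℕ := [3, 4, 5, 6, 7, 8, 9, 12, 13, 14, 15, 16, 17, 19]

/-- the gadget -/
noncomputable def gadB9 (w : ℕ → X k) : DG k := gadOf w ixB9 (sgB9 ++ prB9.map Prod.fst) arB9

theorem okB9 : CertOk ixB9 sgB9 prB9 arB9 odB9 CertB9.A CertB9.F_0 CertB9.Z_0 CertB9.x0_0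
    CertB9.z0_0 CertB9.al CertM.al := by
  refine ⟨?_, ?_, ?_, ?_, ?_, ?_, ?_, ?_, ?_, ?_, ?_, ?_, ?_, ?_, ?_⟩ <;> decide +kernel

/-- THE GADGET ABSORBS. -/
theorem gadB9_abs {R Q B S : BinaryTree Unit} (hR : Q.numNodes + R.numNodes + 2 = k)
    (hB : Q.numNodes + S.numNodes + B.numNodes + 2 = k)
    {w : ℕ → X k} (hw : ∀ i ∈ ixB9, (w i).1 = w20M R Q B S i)
    (hinj : ∀ i ∈ ixB9, ∀ j ∈ ixB9, w i = w j → i = j)
    (hpair : ∀ p ∈ prB9, TT.SameCycle (w p.1) (w p.2))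
    (hsep : ∀ i ∈ sgB9 ++ prB9.map Prod.fst, ∀ j ∈ sgB9 ++ prB9.map Prod.fst,
      TT.SameCycle (w i) (w j) → i = j)
    (hold : ∀ i ∈ sgB9 ++ prB9.map Prod.fst, ∀ j ∈ odB9, ¬ TT.SameCycle (w i) (w j)) :
    (gadB9 w).Abs :=
  gadOfM_abs hR hB okB9 CertB9.runS hw hinj hpair hsep hold

theorem mem_ixB9 {i : ℕ} : i ∈ ixB9 ↔ i < 20 := by
  constructor
  · intro h
    simp only [ixB9, List.mem_cons, List.not_mem_nil, or_false] at h
    omega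
  · intro h
    interval_cases i <;> decide

/-- TYPE B9: the merged mirrored window of a bead free T-cycle, `B = e`, word 18 on the T-cycle of word 2 -/
def TyB9 (F : Set (Cyc k)) (g : DG k) : Prop :=
  ∃ (q : ℕ) (R B S : BinaryTree Unit) (w0 : X k), 1 ≤ q ∧ NodeM k q R B S ∧
    mX R B S q w0 0 ≠ mX R B S q w0 10 ∧
    ¬ TT.SameCycle (mX R B S q w0 1) (mX R B S q w0 2) ∧
    B = .nil ∧ TT.SameCycle (mX R B S q w0 2) (mX R B S q w0 18) ∧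
    F = {cyc (mX R B S q w0 0), cyc (mX R B S q w0 1), cyc (mX R B S q w0 2)} ∧
    g = gadB9 (mX R B S q w0)

theorem mem_gadB9 {w : ℕ → X k} {x : X k} : x ∈ (gadB9 w).B ↔ ∃ i < 20, w i = x := by
  unfold gadB9
  rw [mem_gadOf_B]
  constructor
  · rintro ⟨i, hi, rfl⟩
    exact ⟨i, mem_ixB9.1 hi, rfl⟩
  · rintro ⟨i, hi, rfl⟩
    exact ⟨i, mem_ixB9.2 hi, rfl⟩

theorem gadB9_arcs {w : ℕ → X k} {p : X k × X k} : p ∈ (gadB9 w).arcs ↔
    p = (w 12, w 3) ∨ p = (w 15, w 6) ∨ p = (w 14, w 8) ∨ p = (w 17, w 9) := by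
  unfold gadB9
  rw [mem_gadOf_arcs]
  simp only [arB9, List.mem_cons, List.not_mem_nil, or_false]
  constructor
  · rintro ⟨q, (rfl | rfl | rfl | rfl), rfl⟩
    · exact Or.inl rfl
    · exact Or.inr (Or.inl rfl)
    · exact Or.inr (Or.inr (Or.inl rfl))
    · exact Or.inr (Or.inr (Or.inr rfl))
  · rintro (rfl | rfl | rfl | rfl)
    · exact ⟨_, Or.inl rfl, rfl⟩
    · exact ⟨_, Or.inr (Or.inl rfl), rfl⟩
    · exact ⟨_, Or.inr (Or.inr (Or.inl rfl)), rfl⟩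
    · exact ⟨_, Or.inr (Or.inr (Or.inr rfl)), rfl⟩

theorem TyB9.hF (h : TyB9 F g) : ∀ w, w ∈ g.F ↔ cyc w ∈ F := by
  obtain ⟨q, R, B, S, w0, hq, h1, hne, h12, hB, h18, rfl, rfl⟩ := h
  intro w
  change w ∈ (gadOf _ _ _ _).F ↔ (cyc w = _ ∨ cyc w = _ ∨ cyc w = _)
  rw [mem_gadOf_F]
  constructor
  · rintro ⟨c, hc, e⟩
    have hc' : c = 0 ∨ c = 1 ∨ c = 2 := by
      simpa [sgB9, prB9] using hc
    rcases hc' with rfl | rfl | rfl
    · exact Or.inl (cyc_eq.2 e.symm)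
    · exact Or.inr (Or.inl (cyc_eq.2 e.symm))
    · exact Or.inr (Or.inr (cyc_eq.2 e.symm))
  · rintro (e | e | e)
    · exact ⟨0, by simp [sgB9, prB9], (cyc_eq.1 e).symm⟩
    · exact ⟨1, by simp [sgB9, prB9], (cyc_eq.1 e).symm⟩
    · exact ⟨2, by simp [sgB9, prB9], (cyc_eq.1 e).symm⟩

theorem TyB9.new (h : TyB9 F g) : ∀ c ∈ F, ∃ u ∈ g.B, cyc u = c := by
  obtain ⟨q, R, B, S, w0, hq, h1, hne, h12, hB, h18, rfl, rfl⟩ := h
  rintro c (rfl | rfl | rfl)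
  · exact ⟨_, mem_gadB9.2 ⟨0, by norm_num, rfl⟩, rfl⟩
  · exact ⟨_, mem_gadB9.2 ⟨1, by norm_num, rfl⟩, rfl⟩
  · exact ⟨_, mem_gadB9.2 ⟨2, by norm_num, rfl⟩, rfl⟩

/-- the T-cycles of the other words are old -/
theorem holdB9 {q : ℕ} {R B S : BinaryTree Unit} (h1 : NodeM k q R B S) (w0 : X k) :
    ∀ i < 20, i ≠ 0 → i ≠ 1 → i ≠ 2 → i ≠ 10 → i ≠ 11 → i ≠ 18 →
      ¬ TT.SameCycle (mX R B S q w0 0) (mX R B S q w0 i) ∧
      ¬ TT.SameCycle (mX R B S q w0 1) (mX R B S q w0 i) ∧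
      ¬ TT.SameCycle (mX R B S q w0 2) (mX R B S q w0 i) := by
  intro i hi i0 i1 i2 i10 i11 i18
  exact ⟨h1.hold w0 i hi i0 i10,
    h1.holdY w0 (Or.inl rfl) i hi i1 i2 i11 (fun e => absurd e i18),
    h1.holdY w0 (Or.inr rfl) i hi i1 i2 i11 (fun e => absurd e i18)⟩

theorem TyB9.old (h : TyB9 F g) : ∃ u ∈ g.B, cyc u ∉ F := by
  obtain ⟨q, R, B, S, w0, hq, h1, hne, h12, hB, h18, rfl, rfl⟩ := h
  refine ⟨_, mem_gadB9.2 ⟨3, by norm_num, rfl⟩, ?_⟩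
  have h3 := holdB9 h1 w0 3 (by norm_num) (by norm_num) (by norm_num) (by norm_num)
    (by norm_num) (by norm_num) (by norm_num)
  rintro (e | e | e)
  · exact h3.1 (cyc_eq.1 e).symm
  · exact h3.2.1 (cyc_eq.1 e).symm
  · exact h3.2.2 (cyc_eq.1 e).symm

theorem TyB9.abs (h : TyB9 F g) : g.Abs := by
  obtain ⟨q, R, B, S, w0, hq, h1, hne, h12, hB, h18, rfl, rfl⟩ := h
  have e := h1.dat.num
  have es := h1.size
  have hl : sgB9 ++ prB9.map Prod.fst = [0, 1, 2] := rfl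
  apply gadB9_abs (R := Tsq.mir R) (Q := pc (q + 1)) (B := Tsq.mir B) (S := Tsq.mir S)
    (by rw [pc_num, Tsq.mir_num]; omega) (by rw [pc_num, Tsq.mir_num, Tsq.mir_num]; omega)
    (fun i hi => h1.word w0 (mem_ixB9.1 hi))
    (fun i hi j hj e => h1.inj w0 hne i (mem_ixB9.1 hi) j (mem_ixB9.1 hj) e)
  · intro p hp
    simp only [prB9, List.mem_cons, List.not_mem_nil, or_false] at hp
    rcases hp with rfl | rfl | rfl
    · exact h1.same10 w0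
    · exact h1.same11 w0
    · exact h18
  · rw [hl]
    intro i hi j hj hs
    simp only [List.mem_cons, List.not_mem_nil, or_false] at hi hj
    rcases hi with rfl | rfl | rfl <;> rcases hj with rfl | rfl | rfl
    · rfl
    · exact absurd hs (h1.h01 w0)
    · exact absurd hs (h1.h02 w0)
    · exact absurd hs.symm (h1.h01 w0)
    · rfl
    · exact absurd hs h12
    · exact absurd hs.symm (h1.h02 w0)
    · exact absurd hs.symm h12
    · rfl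
  · rw [hl]
    intro i hi j hj
    simp only [List.mem_cons, List.not_mem_nil, or_false] at hi
    have hj2 : j < 20 ∧ j ≠ 0 ∧ j ≠ 1 ∧ j ≠ 2 ∧ j ≠ 10 ∧ j ≠ 11 ∧ j ≠ 18 := by
      simp only [odB9, List.mem_cons, List.not_mem_nil, or_false] at hj
      omega
    have h3 := holdB9 h1 w0 j hj2.1 hj2.2.1 hj2.2.2.1 hj2.2.2.2.1 hj2.2.2.2.2.1 hj2.2.2.2.2.2.1
      hj2.2.2.2.2.2.2
    rcases hi with rfl | rfl | rfl
    · exact h3.1
    · exact h3.2.1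
    · exact h3.2.2

/-- **the words and arcs are words and arcs of a gadget A0** -/
theorem TyB9.toA0 (h : TyB9 F g) : ∃ (c : Cyc k) (g1 : DG k), c ∈ F ∧ TyA0 {c} g1 ∧ g.B = g1.B ∧
    ∀ p ∈ g.arcs, p ∈ g1.arcs := by
  obtain ⟨q, R, B, S, w0, hq, h1, hne, h12, hB, h18, rfl, rfl⟩ := h
  refine ⟨cyc (mX R B S q w0 0), gad20M (mX R B S q w0), Or.inl rfl,
    ⟨q, R, B, S, w0, h1, hne, rfl, rfl⟩, ?_, ?_⟩
  · ext x
    rw [mem_gadB9, mem_gad20M]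
  · intro p hp
    rcases gadB9_arcs.1 hp with rfl | rfl | rfl | rfl
    · exact Or.inr (Or.inr (Or.inl rfl))
    · exact Or.inr (Or.inr (Or.inr (Or.inl rfl)))
    · exact Or.inr (Or.inr (Or.inr (Or.inr (Or.inl rfl))))
    · exact Or.inr (Or.inr (Or.inr (Or.inr (Or.inr rfl))))

/-- all T-cycles of the group have the same height -/
theorem TyB9.htg (h : TyB9 F g) : ∀ c ∈ F, ∀ d ∈ F, htc c = htc d := by
  obtain ⟨q, R, B, S, w0, hq, h1, hne, h12, hB, h18, rfl, rfl⟩ := h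
  have key : ∀ c ∈ ({cyc (mX R B S q w0 0), cyc (mX R B S q w0 1), cyc (mX R B S q w0 2)} :
      Set (Cyc k)), htc c = ht R := by
    rintro c (rfl | rfl | rfl)
    · rw [htc_cyc, h1.ht012 w0 (Or.inl rfl)]
    · rw [htc_cyc, h1.ht012 w0 (Or.inr (Or.inl rfl))]
    · rw [htc_cyc, h1.ht012 w0 (Or.inr (Or.inr rfl))]
  intro c hc d hd
  rw [key c hc, key d hd]

/-- rank: every old word is strictly higher, or one of the words 4, 5, 13, 16 and `Lower` than the bare T-cycle -/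
theorem TyB9.rank (h : TyB9 F g) : ∀ w ∈ g.B, cyc w ∈ F ∨ (∀ c ∈ F, htc c < htc (cyc w)) ∨
    ∃ (q : ℕ) (R B S : BinaryTree Unit) (w0 : X k) (i : ℕ), NodeM k q R B S ∧
      cyc (mX R B S q w0 0) ∈ F ∧ (i = 4 ∨ i = 5 ∨ i = 13 ∨ i = 16) ∧
      w = mX R B S q w0 i ∧ H1.Lower (contc (cyc w)) (contc (cyc (mX R B S q w0 0))) := by
  have hg := h.htg
  obtain ⟨q, R, B, S, w0, hq, h1, hne, h12, hB, h18, rfl, rfl⟩ := h
  intro w hw
  obtain ⟨i, hi, rfl⟩ := mem_gadB9.1 hw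
  by_cases i0 : i = 0
  · left; rw [i0]; exact Or.inl rfl
  by_cases i1 : i = 1
  · left; rw [i1]; exact Or.inr (Or.inl rfl)
  by_cases i2 : i = 2
  · left; rw [i2]; exact Or.inr (Or.inr rfl)
  by_cases i10 : i = 10
  · left; rw [i10]; exact Or.inl (cyc_eq.2 (h1.same10 w0).symm)
  by_cases i11 : i = 11
  · left; rw [i11]; exact Or.inr (Or.inl (cyc_eq.2 (h1.same11 w0).symm))
  by_cases i18 : i = 18
  · left; rw [i18]; exact Or.inr (Or.inr (cyc_eq.2 h18.symm))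
  by_cases hi2 : i = 4 ∨ i = 5 ∨ i = 13 ∨ i = 16
  · right; right
    exact ⟨q, R, B, S, w0, i, h1, Or.inl rfl, hi2, rfl, h1.rank w0 i hi i0 i10⟩
  · right; left
    intro c hc
    have h2 := h1.htB w0 i hi (by omega)
    have h3 := hg c hc (cyc (mX R B S q w0 0)) (Or.inl rfl)
    rw [h3, htc_cyc, htc_cyc, h1.ht012 w0 (Or.inl rfl)]
    exact h2

theorem TyB9.path (h : TyB9 F g) : ∀ a ∈ g.arcs, ∃ n : ℕ, (TT ^ (n + 1)) a.1 = a.2 ∧ a.1 ∈ g.B ∧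
    ∀ i < n, (TT ^ (i + 1)) a.1 ∈ innA a := by
  obtain ⟨c, g1, hc, h1, hB, ha⟩ := h.toA0
  intro a hA
  obtain ⟨n, h2, h3, h4⟩ := h1.path a (ha a hA)
  exact ⟨n, h2, by rw [hB]; exact h3, h4⟩

/-- the words -/
theorem TyB9.words (h : TyB9 F g) : ∀ w ∈ g.B, ∃ (q : ℕ) (R B S : BinaryTree Unit) (w0 : X k) (i : ℕ),
    NodeM k q R B S ∧ i < 20 ∧ w = mX R B S q w0 i ∧ cyc (mX R B S q w0 0) ∈ F := by
  obtain ⟨q, R, B, S, w0, hq, h1, hne, h12, hB, h18, rfl, rfl⟩ := h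
  intro w hw
  obtain ⟨i, hi, rfl⟩ := mem_gadB9.1 hw
  exact ⟨q, R, B, S, w0, i, h1, hi, rfl, Or.inl rfl⟩

/-- **disjointness B9 - A0** -/
theorem TyB9.disA0 (h : TyB9 F g) (h' : TyA0 F' g') (hm : M2 F) (hm' : M2 F')
    (hd : ∀ c ∈ F, c ∉ F') : ∀ w ∈ g.B, w ∉ g'.B := by
  obtain ⟨c, g1, hc, h1, hB, -⟩ := h.toA0
  rw [hB]
  apply h1.dis h' (hm.one hc) hm'
  rintro d rfl
  exact hd d hc

/-- **disjointness B9 - B9** -/
theorem TyB9.dis (h : TyB9 F g) (h' : TyB9 F' g') (hm : M2 F) (hm' : M2 F')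
    (hd : ∀ c ∈ F, c ∉ F') : ∀ w ∈ g.B, w ∉ g'.B := by
  obtain ⟨c', g1', hc', h1', hB', -⟩ := h'.toA0
  rw [hB']
  apply h.disA0 h1' hm (hm'.one hc')
  intro d hd1 hd2
  rw [Set.mem_singleton_iff.1 hd2] at hd1
  exact hd c' hd1 hc'

/-- **disjointness B9 - B0** -/
theorem TyB9.disB0 (h : TyB9 F g) (h' : TyB0 F' g') (hm : M2 F) (hm' : M2 F')
    (hd : ∀ c ∈ F, c ∉ F') : ∀ w ∈ g.B, w ∉ g'.B := by
  obtain ⟨c, g1, hc, h1, hB, -⟩ := h.toA0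
  rw [hB]
  intro w hw hw'
  refine h'.disA0 h1 hm' (hm.one hc) ?_ w hw' hw
  intro d hd1 hd2
  rw [Set.mem_singleton_iff.1 hd2] at hd1
  exact hd c hc hd1

/-- **disjointness B9 - A** -/
theorem TyB9.disA (h : TyB9 F g) (h' : TyAo F' g') : ∀ w ∈ g.B, w ∉ g'.B := by
  obtain ⟨c, g1, hc, h1, hB, -⟩ := h.toA0
  rw [hB]
  exact h1.disA h'

/-- **disjointness B9 - Aq** -/
theorem TyB9.disAq (h : TyB9 F g) (h' : TyAq F' g') : ∀ w ∈ g.B, w ∉ g'.B := by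
  obtain ⟨c, g1, hc, h1, hB, -⟩ := h.toA0
  rw [hB]
  exact h1.disAq h'

/-- **transfer of word rows from A0** -/
theorem TyB9.nc (h : TyB9 F g)
    (row : ∀ (c : Cyc k) (g1 : DG k), c ∈ F → TyA0 {c} g1 → ∀ w ∈ g1.B, w ∉ g'.B) :
    ∀ w ∈ g.B, w ∉ g'.B := by
  obtain ⟨c, g1, hc, h1, hB, -⟩ := h.toA0
  rw [hB]
  exact row c g1 hc h1

/-- **transfer of inner rows from A0** (inner words of B9) -/
theorem TyB9.ni (h : TyB9 F g)
    (row : ∀ (c : Cyc k) (g1 : DG k), c ∈ F → TyA0 {c} g1 → ∀ p ∈ g1.arcs, ∀ w ∈ innA p, w ∉ g'.B) :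
    ∀ p ∈ g.arcs, ∀ w ∈ innA p, w ∉ g'.B := by
  obtain ⟨c, g1, hc, h1, -, ha⟩ := h.toA0
  intro p hp
  exact row c g1 hc h1 p (ha p hp)

/-- **transfer of inner rows from A0** (inner words of another gadget against the words of B9) -/
theorem TyB9.inn_of (h : TyB9 F g) {w : X k}
    (row : ∀ (c : Cyc k) (g1 : DG k), c ∈ F → TyA0 {c} g1 → w ∉ g1.B) : w ∉ g.B := by
  obtain ⟨c, g1, hc, h1, hB, -⟩ := h.toA0
  rw [hB]
  exact row c g1 hc h1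

theorem TyB9.words60 (h : TyB9 F g) : ∀ w ∈ g.B, ∃ (q : ℕ) (R B S : BinaryTree Unit) (w0 : X k) (j : ℕ),
    NodeM k q R B S ∧ j < 20 ∧ w = mX R B S q w0 j ∧ cyc (mX R B S q w0 0) ∈ F := by
  obtain ⟨q, R, B, S, w0, hq, h1, hne, h12, hB, h18, rfl, rfl⟩ := h
  intro w hw
  obtain ⟨j, hj, e⟩ := mem_gadB9.1 hw
  exact ⟨q, R, B, S, w0, j, h1, hj, e.symm, Or.inl rfl⟩

/-- the words, with `1 ≤ q` -/
theorem TyB9.words1 (h : TyB9 F g) : ∀ w ∈ g.B, ∃ (q : ℕ) (R B S : BinaryTree Unit) (w0 : X k) (j : ℕ),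
    1 ≤ q ∧ NodeM k q R B S ∧ j < 20 ∧ w = mX R B S q w0 j ∧ cyc (mX R B S q w0 0) ∈ F := by
  obtain ⟨q, R, B, S, w0, hq, h1, hne, h12, hB, h18, rfl, rfl⟩ := h
  intro w hw
  obtain ⟨j, hj, e⟩ := mem_gadB9.1 hw
  exact ⟨q, R, B, S, w0, j, hq, h1, hj, e.symm, Or.inl rfl⟩

theorem TyB9.inn60 (h : TyB9 F g) : ∀ p ∈ g.arcs, ∃ (q : ℕ) (R B S : BinaryTree Unit) (w0 : X k) (i i' : ℕ),
    NodeM k q R B S ∧ (i, i') ∈ [(3, 12), (6, 15), (8, 14), (9, 17)] ∧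
      p.1 = mX R B S q w0 i' ∧ cyc (mX R B S q w0 0) ∈ F := by
  obtain ⟨q, R, B, S, w0, hq, h1, hne, h12, hB, h18, rfl, rfl⟩ := h
  intro p hp
  rcases gadB9_arcs.1 hp with rfl | rfl | rfl | rfl
  · exact ⟨q, R, B, S, w0, 3, 12, h1, by simp, rfl, Or.inl rfl⟩
  · exact ⟨q, R, B, S, w0, 6, 15, h1, by simp, rfl, Or.inl rfl⟩
  · exact ⟨q, R, B, S, w0, 8, 14, h1, by simp, rfl, Or.inl rfl⟩
  · exact ⟨q, R, B, S, w0, 9, 17, h1, by simp, rfl, Or.inl rfl⟩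

/-- the inner words, with `1 ≤ q` -/
theorem TyB9.inn1 (h : TyB9 F g) : ∀ p ∈ g.arcs, ∃ (q : ℕ) (R B S : BinaryTree Unit) (w0 : X k) (i i' : ℕ),
    1 ≤ q ∧ NodeM k q R B S ∧ (i, i') ∈ [(3, 12), (6, 15), (8, 14), (9, 17)] ∧
      p.1 = mX R B S q w0 i' ∧ cyc (mX R B S q w0 0) ∈ F := by
  obtain ⟨q, R, B, S, w0, hq, h1, hne, h12, hB, h18, rfl, rfl⟩ := h
  intro p hp
  rcases gadB9_arcs.1 hp with rfl | rfl | rfl | rfl
  · exact ⟨q, R, B, S, w0, 3, 12, hq, h1, by simp, rfl, Or.inl rfl⟩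
  · exact ⟨q, R, B, S, w0, 6, 15, hq, h1, by simp, rfl, Or.inl rfl⟩
  · exact ⟨q, R, B, S, w0, 8, 14, hq, h1, by simp, rfl, Or.inl rfl⟩
  · exact ⟨q, R, B, S, w0, 9, 17, hq, h1, by simp, rfl, Or.inl rfl⟩

/-- **disjointness B9 - E** -/
theorem TyB9.disj_E (h : TyB9 F g) (h' : TyE F' g') (hd : ∀ c ∈ F, c ∉ F') : ∀ w ∈ g.B, w ∉ g'.B := by
  obtain ⟨q, R, B, S, w0, hq, h1, hne, h12, hB, h18, rfl, rfl⟩ := h
  obtain ⟨X, hX, ht, hl⟩ := h'.low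
  intro w hw hw'
  obtain ⟨i, hi, rfl⟩ := mem_gadB9.1 hw
  have e : aw (Tsq.mir R) (pc (q + 1)) (Tsq.mir B) (Tsq.mir S) i = w1 .nil X .nil ∨
      aw (Tsq.mir R) (pc (q + 1)) (Tsq.mir B) (Tsq.mir S) i = w1 X .nil .nil ∨
      aw (Tsq.mir R) (pc (q + 1)) (Tsq.mir B) (Tsq.mir S) i = w1 .nil .nil X := by
    rcases ht.words _ hw' with e1 | ⟨_, e1 | e1⟩ <;> rw [h1.word' w0 hi] at e1
    · exact Or.inl e1
    · exact Or.inr (Or.inl e1)
    · exact Or.inr (Or.inr e1)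
  obtain ⟨b, c, hb, hc', rfl⟩ := tri_F ht
  rcases aw_low h1.a0d (fun e => by omega) hX hl hi e with ⟨_, h⟩ | ⟨_, hB, _, h⟩ | ⟨hq2, -, -⟩
  · have e1 : c = mX R B S q w0 1 := by
      apply Subtype.ext
      rw [hc', h1.word' w0 (by norm_num), h]
      rfl
    exact hd (cyc (mX R B S q w0 1)) (Or.inr (Or.inl rfl)) (Or.inr (by rw [← e1]; rfl))
  · have e1 : b = mX R B S q w0 11 := by
      apply Subtype.ext
      rw [hb, h1.word' w0 (by norm_num), h, hB]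
      simp only [w1, aw, app_assoc', app]
    have e2 : cyc (mX R B S q w0 1) = cyc (mX R B S q w0 11) := cyc_eq.2 (h1.same11 w0)
    exact hd (cyc (mX R B S q w0 1)) (Or.inr (Or.inl rfl)) (Or.inl (by rw [e2, ← e1]))
  · omega

/-! ### Existence -/

/-- **the merged window exists for `1 ≤ q`** -/
theorem HM.NodeM.exB {q : ℕ} {R B S : BinaryTree Unit} (h : NodeM k q R B S) (hq : 1 ≤ q)
    (w0 : X k) (hne : mX R B S q w0 0 ≠ mX R B S q w0 10) :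
    (∃ g, TyB0c {cyc (mX R B S q w0 0), cyc (mX R B S q w0 1), cyc (mX R B S q w0 2)} g) ∨
    ∃ g, TyB9 {cyc (mX R B S q w0 0), cyc (mX R B S q w0 1), cyc (mX R B S q w0 2)} g := by
  have h12 := h.h12 hq w0
  by_cases hB : B = .nil
  · by_cases h18 : TT.SameCycle (mX R B S q w0 2) (mX R B S q w0 18)
    · exact Or.inr ⟨_, q, R, B, S, w0, hq, h, hne, h12, hB, h18, rfl, rfl⟩
    · exact Or.inl ⟨_, q, R, B, S, w0, h, hne, h12, fun _ => ⟨h.h118 hq hB w0, h18⟩,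
        fun e => by omega, rfl, rfl⟩
  · exact Or.inl ⟨_, q, R, B, S, w0, h, hne, h12, fun e => absurd e hB, fun e => by omega, rfl, rfl⟩

/-- **existence for a bare T-cycle**, smallest part `q + 3 ≥ 4` at least twice and a larger part -/
theorem bare_B {q : ℕ} (hq : 1 ≤ q) {p0 : Cyc k} (hc : q + 3 ∈ (contc p0).erase (q + 3))
    (hmin : ∀ x ∈ contc p0, q + 3 ≤ x) (htop : q + 3 < htc p0)
    (hz : ∃ z : X k, cyc z = p0 ∧ TT z ≠ z) :
    ∃ (R B S : BinaryTree Unit) (w0 : X k), NodeM k q R B S ∧ p0 = cyc (mX R B S q w0 0) ∧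
      ((∃ g, TyB0c {p0, cyc (mX R B S q w0 1), cyc (mX R B S q w0 2)} g) ∨
        ∃ g, TyB9 {p0, cyc (mX R B S q w0 1), cyc (mX R B S q w0 2)} g) := by
  obtain ⟨z, rfl, hz⟩ := hz
  rw [htc_cyc] at htop
  obtain ⟨R, B, S, h1, h2⟩ := ex_NodeM z hc hmin htop
  have hs := h2 z
  have hne : TT (mX R B S q z 0) ≠ mX R B S q z 0 := by
    intro e
    apply hz
    obtain ⟨n, hn⟩ := sameCycle_nat hs.symm
    have h3 : ∀ n : ℕ, (TT ^ n) (mX R B S q z 0) = mX R B S q z 0 := by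
      intro n
      induction n with
      | zero => rfl
      | succ n ih => rw [pow_succ', Perm.mul_apply, ih, e]
    rw [h3] at hn
    rw [← hn, e]
  have e0 : cyc z = cyc (mX R B S q z 0) := cyc_eq.2 hs
  refine ⟨R, B, S, z, h1, e0, ?_⟩
  rw [e0]
  exact h1.exB hq z (ne_of_not_fixed h1 z hne)

end Pool.OddHC
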