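import Pool.Agent.Work.MP_8f87b2_h76.BwFz

/-!
# MP_8f87b2_co: the inner words of the B-windows against the content links `TyFq`

`NodeBw.fi_h / fi_z / fi_y`: a common word forces `c = d`, `q = d - 1` or `q = d` (host), .. and exactly two smallest parts in
`U[d + 1]`, so this word is not `T`-fixed; for `[s][4][4]` the runs of the words differ. `MW.i_Bw_Fq`.
-/

set_option autoImplicit false

namespace Pool.OddHC

open Finset Equiv BinaryTree Multiset Pool.Agent.Work.MP_8f87b2_co

variable {k c q d : ℕ} {R B S U : BinaryTree Unit} {F F' : Set (Cyc k)} {g g' : DG k}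

/-! ### runs -/

theorem fac76a {m : ℕ} {r u w : List Bool} (h : List.replicate m false ++ r = u ++ true :: w) :
    ∃ u', r = u' ++ true :: w := by
  induction m generalizing u with
  | zero => exact ⟨u, h⟩
  | succ m ih =>
    rw [List.replicate_succ, List.cons_append] at h
    cases u with
    | nil =>
      rw [List.nil_append, List.cons.injEq] at h
      exact absurd h.1 (by simp)
    | cons x u =>
      rw [List.cons_append, List.cons.injEq] at h
      exact ih h.2

theorem fac76b {m m' : ℕ} {r v : List Bool} (h : List.replicate m' false ++ r = List.replicate m false ++ true :: v)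
    (hr : ∀ r', r ≠ false :: r') : m = m' ∧ r = true :: v := by
  induction m' generalizing m with
  | zero =>
    cases m with
    | zero => exact ⟨rfl, h⟩
    | succ m =>
      rw [List.replicate_zero, List.nil_append, List.replicate_succ, List.cons_append] at h
      exact absurd h (hr _)
  | succ m' ih =>
    cases m with
    | zero =>
      rw [List.replicate_succ, List.replicate_zero, List.nil_append, List.cons_append, List.cons.injEq] at h
      exact absurd h.1 (by simp)
    | succ m =>
      rw [List.replicate_succ, List.replicate_succ, List.cons_append, List.cons_append, List.cons.injEq] at h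
      obtain ⟨h1, h2⟩ := ih h.2
      exact ⟨by omega, h2⟩

/-- a run of `m` zeros between ones -/
theorem fac76 {n m m' : ℕ} {r u v : List Bool} (hm : 1 ≤ m)
    (h : List.replicate n true ++ (List.replicate m' false ++ r) = u ++ true :: (List.replicate m false ++ true :: v))
    (hr : ∀ r', r ≠ false :: r') :
    (m = m' ∧ r = true :: v) ∨ ∃ u', r = u' ++ true :: (List.replicate m false ++ true :: v) := by
  induction n generalizing u with
  | zero => exact Or.inr (fac76a h)
  | succ n ih =>
    rw [List.replicate_succ, List.cons_append] at h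
    cases u with
    | nil =>
      rw [List.nil_append, List.cons.injEq] at h
      left
      cases n with
      | zero => exact fac76b h.2 hr
      | succ n =>
        obtain ⟨m, rfl⟩ : ∃ m0, m = m0 + 1 := ⟨m - 1, by omega⟩
        have h3 := h.2
        rw [List.replicate_succ, List.replicate_succ, List.cons_append, List.cons_append, List.cons.injEq] at h3
        exact absurd h3.1 (by simp)
    | cons x u =>
      rw [List.cons_append, List.cons.injEq] at h
      exact ih h.2

theorem rep_cons76 (n : ℕ) (b : Bool) (X : List Bool) : List.replicate n b ++ b :: X = b :: (List.replicate n b ++ X) := by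
  induction n with
  | zero => rfl
  | succ n ih => rw [List.replicate_succ, List.cons_append, ih, List.cons_append]

theorem wd_h44 (s : ℕ) : wd (w1 .nil (app (pc s) (pc 4)) (H1.ch 3)) = List.replicate (s + 1) true ++
    (List.replicate s false ++ (List.replicate 4 true ++ (List.replicate 5 false ++ (List.replicate 3 true ++
      (List.replicate 3 false ++ []))))) := by
  have e : w1 .nil (app (pc s) (pc 4)) (H1.ch 3) = app (pc s) (pc 4) △ H1.ch 3 := rfl
  rw [e, ← H1.ch_eq, ← H1.ch_eq, wd_node, wd_app, H1.wd_ch, H1.wd_ch, H1.wd_ch]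
  simp [List.replicate_succ]

theorem wd_z44 (s : ℕ) : wd (w1 (app (pc s) (pc 4)) (H1.ch 3) .nil) = List.replicate s true ++
    (List.replicate s false ++ (List.replicate 4 true ++ (List.replicate 4 false ++ (List.replicate 4 true ++
      (List.replicate 4 false ++ []))))) := by
  have e : w1 (app (pc s) (pc 4)) (H1.ch 3) .nil = app (app (pc s) (pc 4)) (H1.ch 4) := rfl
  rw [e, ← H1.ch_eq, ← H1.ch_eq, wd_app, wd_app, H1.wd_ch, H1.wd_ch]
  simp

theorem wd_y44 (s : ℕ) : wd (w1 (H1.ch 3) .nil (app (pc s) (pc 4))) = List.replicate 3 true ++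
    (List.replicate 3 false ++ (List.replicate 1 true ++ (List.replicate 1 false ++ (List.replicate s true ++
      (List.replicate s false ++ (List.replicate 4 true ++ (List.replicate 4 false ++ []))))))) := by
  have e : w1 (H1.ch 3) .nil (app (pc s) (pc 4)) = app (H1.ch 3) (.nil △ app (pc s) (pc 4)) := rfl
  rw [e, ← H1.ch_eq, ← H1.ch_eq, wd_app, wd_node, wd_app, H1.wd_ch, H1.wd_ch, H1.wd_ch]
  simp [wd]

/-- `([s][4])[3]` has no run of exactly four zeros -/
theorem no_h44 {s : ℕ} (hs : 5 ≤ s) {u v : List Bool} :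
    wd (w1 .nil (app (pc s) (pc 4)) (H1.ch 3)) ≠ u ++ true :: (List.replicate 4 false ++ true :: v) := by
  rw [wd_h44]
  intro h
  rcases fac76 (by norm_num) h (by simp [List.replicate_succ]) with ⟨h1, -⟩ | ⟨u', h⟩
  · omega
  rcases fac76 (by norm_num) h (by simp [List.replicate_succ]) with ⟨h1, -⟩ | ⟨u', h⟩
  · omega
  rcases fac76 (by norm_num) h (by simp) with ⟨h1, -⟩ | ⟨u', h⟩
  · omega
  · exact absurd h (by simp)

/-- the run of four zeros in `[s][4][4]` -/
theorem no_z44 {s : ℕ} (hs : 5 ≤ s) {u v : List Bool}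
    (h : wd (w1 (app (pc s) (pc 4)) (H1.ch 3) .nil) = u ++ true :: (List.replicate 4 false ++ true :: v)) :
    v.length = 7 := by
  rw [wd_z44] at h
  rcases fac76 (by norm_num) h (by simp [List.replicate_succ]) with ⟨h1, -⟩ | ⟨u', h⟩
  · omega
  rcases fac76 (by norm_num) h (by simp [List.replicate_succ]) with ⟨-, h1⟩ | ⟨u', h⟩
  · have := congrArg List.length h1
    simp at this
    omega
  rcases fac76 (by norm_num) h (by simp) with ⟨h1, h2⟩ | ⟨u', h⟩
  · exact absurd h2 (by simp)
  · exact absurd h (by simp)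

/-- `[3]()[s][4]` has no run of exactly four zeros -/
theorem no_y44 {s : ℕ} (hs : 5 ≤ s) {u v : List Bool} :
    wd (w1 (H1.ch 3) .nil (app (pc s) (pc 4))) ≠ u ++ true :: (List.replicate 4 false ++ true :: v) := by
  rw [wd_y44]
  intro h
  obtain ⟨s, rfl⟩ : ∃ s', s = s' + 1 := ⟨s - 1, by omega⟩
  rcases fac76 (by norm_num) h (by simp [List.replicate_succ]) with ⟨h1, -⟩ | ⟨u', h⟩
  · omega
  rcases fac76 (by norm_num) h (by simp [List.replicate_succ]) with ⟨h1, -⟩ | ⟨u', h⟩
  · omega
  rcases fac76 (by norm_num) h (by simp [List.replicate_succ]) with ⟨h1, -⟩ | ⟨u', h⟩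
  · omega
  rcases fac76 (by norm_num) h (by simp) with ⟨h1, h2⟩ | ⟨u', h⟩
  · exact absurd h2 (by simp)
  · exact absurd h (by simp)

/-- a run of five zeros in `[3]()[s][4]` -/
theorem no_y45 {s : ℕ} (hs : 5 ≤ s) {u v : List Bool}
    (h : wd (w1 (H1.ch 3) .nil (app (pc s) (pc 4))) = u ++ true :: (List.replicate 5 false ++ true :: v)) :
    v.length = 7 := by
  rw [wd_y44] at h
  obtain ⟨s, rfl⟩ : ∃ s', s = s' + 1 := ⟨s - 1, by omega⟩
  rcases fac76 (by norm_num) h (by simp [List.replicate_succ]) with ⟨h1, -⟩ | ⟨u', h⟩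
  · omega
  rcases fac76 (by norm_num) h (by simp [List.replicate_succ]) with ⟨h1, -⟩ | ⟨u', h⟩
  · omega
  rcases fac76 (by norm_num) h (by simp [List.replicate_succ]) with ⟨-, h1⟩ | ⟨u', h⟩
  · have := congrArg List.length h1
    simp at this
    omega
  rcases fac76 (by norm_num) h (by simp) with ⟨h1, h2⟩ | ⟨u', h⟩
  · exact absurd h2 (by simp)
  · exact absurd h (by simp)

/-! ### the words -/

theorem raise_ge76 {M : Multiset ℕ} {a : ℕ} (h0 : ∃ x ∈ M, a ≤ x) (h : ∀ x ∈ M, x = c ∨ a ≤ x) :
    ∀ x ∈ raise M, x = c ∨ a ≤ x := by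
  intro x hx
  unfold raise at hx
  rcases Multiset.mem_cons.1 hx with rfl | hx
  · right
    obtain ⟨y, hy, h1⟩ := h0
    have := Multiset.le_sup hy
    omega
  · exact h x (Multiset.mem_of_mem_erase hx)

/-- the multiplicity of `d + 1` in `U` -/
theorem FxD.cnt1 (h : FxD d U) (h1 : (raise (cont U)).count (d + 1) = 1) (h2 : d + 2 ≤ (cont U).sup) :
    (cont U).count (d + 1) = 1 := by
  rwa [count_raise (d + 1) (by omega) (by omega)] at h1

theorem FxD.mem_r (h : FxD d U) : d + 1 ∈ raise (cont U) := by
  unfold raise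
  apply Multiset.mem_cons_of_mem
  rcases eq_or_ne (d + 1) (cont U).sup with e | e
  · rw [← e]
    have h1 : ∀ x ∈ cont U, x = d + 1 := by
      intro x hx
      have := h.part x hx
      have := Multiset.le_sup hx
      omega
    have h2 : cont U = Multiset.replicate (Multiset.card (cont U)) (d + 1) := Multiset.eq_replicate_card.2 h1
    have h3 := h.card
    rw [← Multiset.one_le_count_iff_mem, Multiset.count_erase_self, h2, Multiset.count_replicate_self]
    omega
  · exact (Multiset.mem_erase_of_ne e).2 h.mem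

namespace NodeBw

theorem fmt76 (h : NodeBw k c q R B S) (c3 : 3 ≤ c) : ∃ a b, H1.FM R a b ∧ q + 2 ≤ a.length := by
  have hp : ∀ x ∈ OddHC.cont R, c ≤ x := by
    intro x hx
    have := h.lt
    rcases h.part x hx with e | e <;> omega
  have ht : c < Tsq.ht R := by
    rw [H1.ht_eq]
    have := h.top
    have := h.lt
    omega
  obtain ⟨a, b, h1⟩ := H1.hg_FMT (by omega) (H1.hg_of_cont (by omega) hp) ht
  refine ⟨a, b, h1.fm, ?_⟩
  have h2 := h1.fm.top
  have h3 := h.top
  rw [← H1.ht_eq] at h3
  have : a.count true ≤ a.length := List.count_le_length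
  omega

/-- the inner words 3, 6, 8, 9: the run of zeros from `[q + 1]`, `[q + 2]` -/
theorem run_inn (h : NodeBw k c q R B S) (c3 : 3 ≤ c) (w0 : X k) {i : ℕ} (hi : i ∈ [3, 6, 8, 9]) :
    ∃ u v, wd (TT (H1.wX R B S q w0 i)).1 =
      u ++ true :: (List.replicate (if i = 3 ∨ i = 9 then q + 1 else q + 2) false ++ true :: v) ∧
      2 * q + 5 ≤ v.length := by
  obtain ⟨a, b, h1, ha⟩ := h.fmt76 c3
  have hn : Tsq.ht (.nil : BinaryTree Unit) = 0 := rfl
  have hc : ∀ n, Tsq.ht (H1.ch n) = n := fun n => by rw [H1.ht_eq, H1.ch_ht]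
  have htop : q + 3 ≤ Tsq.ht R := by rw [H1.ht_eq]; exact h.top
  simp only [List.mem_cons, List.not_mem_nil, or_false] at hi
  rcases hi with rfl | rfl | rfl | rfl
  · have k1 := (h1.app_right (Z := .nil △ H1.ch (q + 1)) (by
      rw [Tsq.ht_node, hc, hn]; omega)).node (Z := .nil) (by rw [hn]; omega)
    have e' : (H1.wX R B S q w0 3).1 = (app R (.nil △ H1.ch (q + 1)) △ .nil) := h.word w0 (by norm_num)
    rw [← e'] at k1
    refine ⟨b.map not ++ [false], List.replicate q true ++ true :: false :: false :: a.map not, ?_, ?_⟩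
    · rw [k1.wdT, wd_node, H1.wd_ch, List.replicate_succ (a := true), List.replicate_succ' (a := false)]
      simp [wd, List.replicate_succ, rep_cons76]
    · simp
      omega
  · have k1 := h1.node (Z := H1.ch (q + 2)) (by rw [hc]; omega)
    have e' : (H1.wX R B S q w0 6).1 = (R △ H1.ch (q + 2)) := h.word w0 (by norm_num)
    rw [← e'] at k1
    refine ⟨b.map not, List.replicate (q + 1) true ++ false :: false :: a.map not, ?_, ?_⟩
    · rw [k1.wdT, H1.wd_ch]
      simp [List.replicate_succ]
    · simp
      omega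
  · have k1 := (h1.node (Z := .nil) (by rw [hn]; omega)).app_left
      (P := app (H1.ch (q + 1)) (.nil △ .nil)) (by
        rw [Tsq.ht_node, Tsq.ht_app, Tsq.ht_node, hc, hn]; omega)
    have e' : (H1.wX R B S q w0 8).1 = app (app (H1.ch (q + 1)) (.nil △ .nil)) (R △ .nil) := by
      rw [H1.app_assoc]; exact h.word w0 (by norm_num)
    rw [← e'] at k1
    refine ⟨b.map not, List.replicate q true ++ false :: true :: false :: a.map not, ?_, ?_⟩
    · rw [k1.wdT, wd_app, H1.wd_ch]
      simp [wd, List.replicate_succ]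
    · simp
      omega
  · have k1 := (h1.node (Z := .nil) (by rw [hn]; omega)).node (Z := H1.ch (q + 1)) (by
      rw [Tsq.ht_node, hc, hn]; omega)
    have e' : (H1.wX R B S q w0 9).1 = ((R △ .nil) △ H1.ch (q + 1)) := h.word w0 (by norm_num)
    rw [← e'] at k1
    refine ⟨b.map not ++ [true], List.replicate q true ++ false :: false :: false :: a.map not, ?_, ?_⟩
    · rw [k1.wdT, H1.wd_ch]
      simp [wd, List.replicate_succ]
    · simp
      omega

/-- the contents of the inner words -/
theorem cinn (h : NodeBw k c q R B S) (w0 : X k) {i : ℕ} (hi : i ∈ [0, 1, 3, 6, 8, 9]) :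
    cont (TT (H1.wX R B S q w0 i)).1 =
      if i = 0 then cont R + {q + 3} else if i = 1 then cont R + ({1} + ({q + 1} + {1}))
      else if i = 3 then raise (cont R) + ({1} + {q + 1}) else if i = 6 then raise (cont R) + {q + 2}
      else if i = 8 then raise (cont R) + ({1} + {q + 1}) else raise (raise (cont R)) + {q + 1} := by
  rw [cont_same (w := TT (H1.wX R B S q w0 i)) (u := H1.wX R B S q w0 i) ⟨-1, by simp⟩, h.word w0 (bw_list20 hi)]
  have hch : ∀ n, cont (H1.ch (n + 1)) = {n + 1} := fun n => H1.ch_cont n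
  have hsup : ({1} + {q + 1} : Multiset ℕ).sup < (cont R).sup := by
    have := h.htR76
    rw [Multiset.sup_add, Multiset.sup_singleton, Multiset.sup_singleton]
    simp
    omega
  simp only [List.mem_cons, List.not_mem_nil, or_false] at hi
  rcases hi with rfl | rfl | rfl | rfl | rfl | rfl
  · change cont (app R (H1.ch (q + 2 + 1))) = _
    rw [cont_app, hch]
    rfl
  · change cont (app R (.nil △ app (H1.ch (q + 1)) (.nil △ .nil))) = _
    rw [cont_app, cont_node, cont_app, cont_node, cont_nil, raise_zero, hch, add_zero]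
    rfl
  · change cont (app R (.nil △ H1.ch (q + 1)) △ .nil) = _
    rw [cont_node, cont_app, cont_node, cont_nil, raise_zero, hch, add_zero]
    refine H1.raise_add ?_ ?_
    · intro e
      have := h.htR76
      rw [e] at this
      simp at this
    · intro x hx
      have := Multiset.le_sup hx
      omega
  · change cont (R △ H1.ch (q + 1 + 1)) = _
    rw [cont_node, hch]
    rfl
  · change cont (app (H1.ch (q + 1)) (.nil △ (R △ .nil))) = _
    rw [cont_app, cont_node, cont_node, cont_nil, raise_zero, hch, add_zero]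
    change {q + 1} + ({1} + raise (cont R)) = raise (cont R) + ({1} + {q + 1})
    abel
  · change cont ((R △ .nil) △ H1.ch (q + 1)) = _
    rw [cont_node, cont_node, cont_nil, hch, add_zero]
    rfl

/-- the numbers in `raise (cont R)` -/
theorem rpart76 (h : NodeBw k c q R B S) : ∀ x ∈ raise (cont R), x = c ∨ q + 3 ≤ x :=
  raise_ge76 ⟨(cont R).sup, sup_mem (by
    intro e
    have := h.htR76
    rw [e] at this
    simp at this), h.htR76⟩ h.part

theorem rcnt76 (h : NodeBw k c q R B S) : (raise (cont R)).count c = 1 := by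
  have := h.htR76
  have := h.lt
  rw [count_raise c (by omega) (by omega)]
  exact h.one

theorem rrpart76 (h : NodeBw k c q R B S) : ∀ x ∈ raise (raise (cont R)), x = c ∨ q + 3 ≤ x := by
  refine raise_ge76 ⟨(cont R).sup + 1, ?_, ?_⟩ h.rpart76
  · unfold raise
    exact Multiset.mem_cons_self _ _
  · have := h.htR76
    omega

theorem rrcnt76 (h : NodeBw k c q R B S) : (raise (raise (cont R))).count c = 1 := by
  have := h.htR76
  have := h.lt
  rw [count_raise c (by rw [sup_raise]; omega) (by rw [sup_raise]; omega)]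
  exact h.rcnt76

/-- **inner words, host `(U)[d]`** -/
theorem fi_h (h : NodeBw k c q R B S) (c3 : 3 ≤ c) (hU : FxD d U) (w0 : X k) {i : ℕ} (hi : i ∈ [0, 1, 3, 6, 8, 9])
    (e : (TT (H1.wX R B S q w0 i)).1 = w1 .nil U (H1.ch d)) :
    (i = 0 ∧ cont R + {q + 3} = raise (cont U) + {d}) ∨
      (d = c ∧ (cont U).count (d + 1) = 1 ∧ ((i = 6 ∧ c = q + 1) ∨ (i = 9 ∧ c = q))) := by
  have hc := hU.c3
  have hlt := h.lt
  have hq := h.q1f c3
  have hN := h.cinn w0 hi
  have hsup := h.htR76
  have ez : cont (w1 .nil U (H1.ch d)) = raise (cont U) + {d} := by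
    rw [cont_w1, cont_nil, zero_add, cont_chc (by omega)]
  rw [e, ez] at hN
  have hst : c ≤ d := H1.stop_ch (h.innP c3 w0 hi).1 (by omega) (show _ = app (U △ .nil) (H1.ch d) from e)
  have ge : ∀ x ∈ raise (cont U) + {d}, d ≤ x := by
    intro x hx
    rcases Multiset.mem_add.1 hx with hx | hx
    · have := hU.rpart hx
      omega
    · rw [Multiset.mem_singleton] at hx
      omega
  have c1 : (raise (cont U) + {d}).count d = 1 := by
    rw [Multiset.count_add, Multiset.count_singleton_self, Multiset.count_eq_zero.2]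
    intro hx
    have := hU.rpart hx
    omega
  have hmr := hU.mem_r
  have s1 := Multiset.le_sup hU.mem
  simp only [List.mem_cons, List.not_mem_nil, or_false] at hi
  rcases hi with rfl | rfl | rfl | rfl | rfl | rfl
  · left
    exact ⟨rfl, hN.symm⟩
  · exfalso
    have h1 : 1 ∈ raise (cont U) + {d} := by rw [hN]; simp
    have := ge 1 h1
    omega
  · exfalso
    have h1 : 1 ∈ raise (cont U) + {d} := by rw [hN]; simp
    have := ge 1 h1
    omega
  · right
    have hN' : raise (cont U) + {d} = raise (cont R) + {q + 2} := hN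
    have h1 : c ∈ raise (cont U) + {d} := by
      rw [hN']
      exact Multiset.mem_add.2 (Or.inl (Multiset.one_le_count_iff_mem.1 h.rcnt76.ge))
    have h2 : d = c := by
      have := ge c h1
      omega
    subst h2
    have h3 : q + 2 ≠ d := by
      rintro h3
      rw [hN', Multiset.count_add, h.rcnt76, h3, Multiset.count_singleton_self] at c1
      omega
    have h4 : d + 1 = q + 2 := by
      have h5 : d + 1 ∈ raise (cont R) + {q + 2} := by
        rw [← hN']
        exact Multiset.mem_add.2 (Or.inl hmr)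
      rcases Multiset.mem_add.1 h5 with h5 | h5
      · rcases h.rpart76 _ h5 with h5 | h5 <;> omega
      · exact Multiset.mem_singleton.1 h5
    refine ⟨rfl, hU.cnt1 ?_ ?_, Or.inl ⟨rfl, by omega⟩⟩
    · have h5 := congrArg (Multiset.count (d + 1)) hN'
      rw [Multiset.count_add, Multiset.count_add, h4, Multiset.count_singleton_self,
        Multiset.count_eq_zero.2 (show q + 2 ∉ ({d} : Multiset ℕ) by rw [Multiset.mem_singleton]; omega),
        Multiset.count_eq_zero.2 (show q + 2 ∉ raise (cont R) by
          intro h6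
          rcases h.rpart76 _ h6 with h6 | h6 <;> omega)] at h5
      rw [h4]
      omega
    · have h5 := congrArg Multiset.sup hN'
      rw [Multiset.sup_add, Multiset.sup_add, sup_raise, sup_raise, Multiset.sup_singleton, Multiset.sup_singleton,
        sup_eq_left.2 (by omega), sup_eq_left.2 (by omega)] at h5
      omega
  · exfalso
    have h1 : 1 ∈ raise (cont U) + {d} := by rw [hN]; simp
    have := ge 1 h1
    omega
  · right
    have hN' : raise (cont U) + {d} = raise (raise (cont R)) + {q + 1} := hN
    have h1 : c ∈ raise (cont U) + {d} := by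
      rw [hN']
      exact Multiset.mem_add.2 (Or.inl (Multiset.one_le_count_iff_mem.1 h.rrcnt76.ge))
    have h2 : d = c := by
      have := ge c h1
      omega
    subst h2
    have h3 : q + 1 ≠ d := by
      rintro h3
      rw [hN', Multiset.count_add, h.rrcnt76, h3, Multiset.count_singleton_self] at c1
      omega
    have h7 : d ≤ q + 1 := ge _ (by rw [hN']; simp)
    have h4 : d + 1 = q + 1 := by
      have h5 : d + 1 ∈ raise (raise (cont R)) + {q + 1} := by
        rw [← hN']
        exact Multiset.mem_add.2 (Or.inl hmr)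
      rcases Multiset.mem_add.1 h5 with h5 | h5
      · rcases h.rrpart76 _ h5 with h5 | h5 <;> omega
      · exact Multiset.mem_singleton.1 h5
    refine ⟨rfl, hU.cnt1 ?_ ?_, Or.inr ⟨rfl, by omega⟩⟩
    · have h5 := congrArg (Multiset.count (d + 1)) hN'
      rw [Multiset.count_add, Multiset.count_add, h4, Multiset.count_singleton_self,
        Multiset.count_eq_zero.2 (show q + 1 ∉ ({d} : Multiset ℕ) by rw [Multiset.mem_singleton]; omega),
        Multiset.count_eq_zero.2 (show q + 1 ∉ raise (raise (cont R)) by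
          intro h6
          rcases h.rrpart76 _ h6 with h6 | h6 <;> omega)] at h5
      rw [h4]
      omega
    · have h5 := congrArg Multiset.sup hN'
      rw [Multiset.sup_add, Multiset.sup_add, sup_raise, sup_raise, sup_raise, Multiset.sup_singleton,
        Multiset.sup_singleton, sup_eq_left.2 (by omega), sup_eq_left.2 (by omega)] at h5
      omega

/-- **inner words, `U[d + 1]`** -/
theorem fi_z (h : NodeBw k c q R B S) (c3 : 3 ≤ c) (hU : FxD d U) (w0 : X k) {i : ℕ} (hi : i ∈ [0, 1, 3, 6, 8, 9])
    (e : (TT (H1.wX R B S q w0 i)).1 = w1 U (H1.ch d) .nil) :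
    i = 0 ∨ (d + 1 = c ∧ (cont U).count (d + 1) = 1 ∧ ((i = 6 ∧ c = q + 2) ∨ (i = 9 ∧ c = q + 1))) := by
  have hc := hU.c3
  have hlt := h.lt
  have hq := h.q1f c3
  have hN := h.cinn w0 hi
  have hsup := h.htR76
  have ez : cont (w1 U (H1.ch d) .nil) = cont U + {d + 1} := by rw [FxD.c_z' d U, add_comm]
  rw [e, ez] at hN
  have hst : c ≤ d + 1 := H1.stop_ch (h.innP c3 w0 hi).1 (by omega) (show _ = app U (H1.ch (d + 1)) from e)
  have ge : ∀ x ∈ cont U + {d + 1}, d + 1 ≤ x := by
    intro x hx
    rcases Multiset.mem_add.1 hx with hx | hx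
    · exact hU.part x hx
    · rw [Multiset.mem_singleton] at hx
      omega
  have hm := Multiset.one_le_count_iff_mem.2 hU.mem
  simp only [List.mem_cons, List.not_mem_nil, or_false] at hi
  rcases hi with rfl | rfl | rfl | rfl | rfl | rfl
  · exact Or.inl rfl
  · exfalso
    have h1 : 1 ∈ cont U + {d + 1} := by rw [hN]; simp
    have := ge 1 h1
    omega
  · exfalso
    have h1 : 1 ∈ cont U + {d + 1} := by rw [hN]; simp
    have := ge 1 h1
    omega
  · right
    have hN' : cont U + {d + 1} = raise (cont R) + {q + 2} := hN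
    have h1 : c ∈ cont U + {d + 1} := by
      rw [hN']
      exact Multiset.mem_add.2 (Or.inl (Multiset.one_le_count_iff_mem.1 h.rcnt76.ge))
    have h2 : d + 1 = c := by
      have := ge c h1
      omega
    subst h2
    have h5 := congrArg (Multiset.count (d + 1)) hN'
    rw [Multiset.count_add, Multiset.count_add, Multiset.count_singleton_self, h.rcnt76, Multiset.count_singleton] at h5
    by_cases h6 : d + 1 = q + 2
    · rw [if_pos h6] at h5
      exact ⟨rfl, by omega, Or.inl ⟨rfl, h6⟩⟩
    · rw [if_neg h6] at h5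
      omega
  · exfalso
    have h1 : 1 ∈ cont U + {d + 1} := by rw [hN]; simp
    have := ge 1 h1
    omega
  · right
    have hN' : cont U + {d + 1} = raise (raise (cont R)) + {q + 1} := hN
    have h1 : c ∈ cont U + {d + 1} := by
      rw [hN']
      exact Multiset.mem_add.2 (Or.inl (Multiset.one_le_count_iff_mem.1 h.rrcnt76.ge))
    have h2 : d + 1 = c := by
      have := ge c h1
      omega
    subst h2
    have h5 := congrArg (Multiset.count (d + 1)) hN'
    rw [Multiset.count_add, Multiset.count_add, Multiset.count_singleton_self, h.rrcnt76, Multiset.count_singleton] at h5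
    by_cases h6 : d + 1 = q + 1
    · rw [if_pos h6] at h5
      exact ⟨rfl, by omega, Or.inr ⟨rfl, h6⟩⟩
    · rw [if_neg h6] at h5
      omega

/-- **inner words, `[d]()U`** -/
theorem fi_y (h : NodeBw k c q R B S) (c3 : 3 ≤ c) (hU : FxD d U) (w0 : X k) {i : ℕ} (hi : i ∈ [0, 1, 3, 6, 8, 9])
    (e : (TT (H1.wX R B S q w0 i)).1 = w1 (H1.ch d) .nil U) :
    d = c ∧ c = q ∧ (cont U).count (d + 1) = 1 ∧ (i = 3 ∨ i = 8) := by
  have hc := hU.c3
  have hlt := h.lt
  have hq := h.q1f c3
  have hN := h.cinn w0 hi
  have hsup := h.htR76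
  have ez : cont (w1 (H1.ch d) .nil U) = cont U + {1} + {d} := hU.c_y'
  rw [e, ez] at hN
  have hst : c ≤ d := H1.start_ch (h.innP c3 w0 hi).1 (by omega) (show _ = app (H1.ch d) (.nil △ U) from e)
  have c1 : (cont U + {1} + {d}).count 1 = 1 := by
    rw [Multiset.count_add, Multiset.count_add, Multiset.count_singleton_self, Multiset.count_eq_zero.2 hU.no1,
      Multiset.count_eq_zero.2 (by rw [Multiset.mem_singleton]; omega)]
  have cd : (cont U + {1} + {d}).count d = 1 := by
    rw [Multiset.count_add, Multiset.count_add, Multiset.count_singleton_self,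
      Multiset.count_eq_zero.2 (fun hx => by have := hU.part d hx; omega),
      Multiset.count_eq_zero.2 (by rw [Multiset.mem_singleton]; omega)]
  have fin : cont U + {1} + {d} = raise (cont R) + ({1} + {q + 1}) → d = c ∧ c = q ∧ (cont U).count (d + 1) = 1 := by
    intro hN'
    have h1 : c ∈ cont U + {1} + {d} := by
      rw [hN']
      exact Multiset.mem_add.2 (Or.inl (Multiset.one_le_count_iff_mem.1 h.rcnt76.ge))
    have h2 : d = c := by
      rcases Multiset.mem_add.1 h1 with h1 | h1
      · rcases Multiset.mem_add.1 h1 with h1 | h1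
        · have := hU.part c h1
          omega
        · rw [Multiset.mem_singleton] at h1
          omega
      · exact (Multiset.mem_singleton.1 h1).symm
    subst h2
    have h3 : q + 1 ≠ d := by
      rintro h3
      rw [hN', Multiset.count_add, Multiset.count_add, h.rcnt76, h3, Multiset.count_singleton_self] at cd
      omega
    have h7 : d ≤ q + 1 := by
      have h8 : q + 1 ∈ cont U + {1} + {d} := by rw [hN']; simp
      rcases Multiset.mem_add.1 h8 with h8 | h8
      · rcases Multiset.mem_add.1 h8 with h8 | h8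
        · have := hU.part _ h8
          omega
        · rw [Multiset.mem_singleton] at h8
          omega
      · rw [Multiset.mem_singleton] at h8
        omega
    have h4 : d + 1 = q + 1 := by
      have h5 : d + 1 ∈ raise (cont R) + ({1} + {q + 1}) := by
        rw [← hN']
        exact Multiset.mem_add.2 (Or.inl (Multiset.mem_add.2 (Or.inl hU.mem)))
      rcases Multiset.mem_add.1 h5 with h5 | h5
      · rcases h.rpart76 _ h5 with h5 | h5 <;> omega
      · rcases Multiset.mem_add.1 h5 with h5 | h5
        · rw [Multiset.mem_singleton] at h5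
          omega
        · exact Multiset.mem_singleton.1 h5
    refine ⟨rfl, by omega, ?_⟩
    have h5 := congrArg (Multiset.count (d + 1)) hN'
    rw [Multiset.count_add, Multiset.count_add, Multiset.count_add, Multiset.count_add, h4,
      Multiset.count_singleton_self,
      Multiset.count_eq_zero.2 (show q + 1 ∉ ({d} : Multiset ℕ) by rw [Multiset.mem_singleton]; omega),
      Multiset.count_eq_zero.2 (show q + 1 ∉ ({1} : Multiset ℕ) by rw [Multiset.mem_singleton]; omega),
      Multiset.count_eq_zero.2 (show q + 1 ∉ raise (cont R) by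
        intro h6
        rcases h.rpart76 _ h6 with h6 | h6 <;> omega)] at h5
    rw [h4]
    omega
  have no1 : ∀ {M : Multiset ℕ}, cont U + {1} + {d} = M → (∀ x ∈ M, x = c ∨ 2 ≤ x) → False := by
    intro M h1 h2
    rw [h1] at c1
    have h3 := Multiset.one_le_count_iff_mem.1 c1.ge
    rcases h2 1 h3 with h4 | h4 <;> omega
  simp only [List.mem_cons, List.not_mem_nil, or_false] at hi
  rcases hi with rfl | rfl | rfl | rfl | rfl | rfl
  · refine (no1 (M := cont R + {q + 3}) hN ?_).elim
    intro x hx
    rcases Multiset.mem_add.1 hx with hx | hx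
    · rcases h.part x hx with h1 | h1 <;> omega
    · rw [Multiset.mem_singleton] at hx
      omega
  · exfalso
    have hN' : cont U + {1} + {d} = cont R + ({1} + ({q + 1} + {1})) := hN
    rw [hN', Multiset.count_add, Multiset.count_add, Multiset.count_add, Multiset.count_singleton_self] at c1
    omega
  · obtain ⟨h1, h2, h3⟩ := fin hN
    exact ⟨h1, h2, h3, Or.inl rfl⟩
  · refine (no1 (M := raise (cont R) + {q + 2}) hN ?_).elim
    intro x hx
    rcases Multiset.mem_add.1 hx with hx | hx
    · rcases h.rpart76 x hx with h1 | h1 <;> omega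
    · rw [Multiset.mem_singleton] at hx
      omega
  · obtain ⟨h1, h2, h3⟩ := fin hN
    exact ⟨h1, h2, h3, Or.inr rfl⟩
  · refine (no1 (M := raise (raise (cont R)) + {q + 1}) hN ?_).elim
    intro x hx
    rcases Multiset.mem_add.1 hx with hx | hx
    · rcases h.rrpart76 x hx with h1 | h1 <;> omega
    · rw [Multiset.mem_singleton] at hx
      omega

end NodeBw

/-- **inner row Bw – Fq** -/
theorem MW.i_Bw_Fq (h : TyBw F g) (h2 : ∀ d ∈ F, 2 ∉ contc d) (h' : TyFq F' g') (hd : ∀ c ∈ F, c ∉ F')
    (hle : ∀ c ∈ F, ∀ d ∈ F', htc c ≤ htc d) : ∀ p ∈ g.arcs, ∀ w ∈ innA p, w ∉ g'.B := by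
  obtain ⟨d, U, z, hU, hz, hQ, hT⟩ := h'
  intro p hp w hw hB
  obtain ⟨c, q, R, B, S, w0, i, h1, hi, rfl, hm⟩ := h.inn0 p hp w hw
  have c3 := h1.c3 w0 (h2 _ hm)
  have hc := hU.c3
  have key : (cont U).count (d + 1) = 1 → ∃ s, 5 ≤ s ∧ d = 3 ∧ U = app (pc s) (pc 4) := by
    intro h3
    rcases hQ with h4 | h4
    · exact absurd h4 (hU.no_fix hz h3)
    · exact h4
  rcases IsTri.words hT _ hB with e | ⟨hF, e | e⟩
  · rcases h1.fi_h c3 hU w0 hi e with ⟨h3, h4⟩ | ⟨h3, h4, h5⟩
    · obtain ⟨b, b', hb, -, hF⟩ := tri_F hT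
      have h5 := hle _ hm (cyc b) (by rw [hF]; simp)
      have e1 : htc (cyc (H1.wX R B S q w0 0)) = (cont R + {q + 3}).sup := by
        unfold htc
        rw [contc_cyc, h1.toV.cont0]
      have e2 : htc (cyc b) = (cont U + {d + 1}).sup := by
        unfold htc
        rw [contc_cyc, hb, FxD.c_z' d U, add_comm]
      have h6 := Multiset.le_sup hU.mem
      rw [e1, e2, h4, Multiset.sup_add, Multiset.sup_add, sup_raise, Multiset.sup_singleton, Multiset.sup_singleton,
        sup_eq_left.2 (by omega), sup_eq_left.2 (by omega)] at h5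
      omega
    · obtain ⟨s, hs, rfl, rfl⟩ := key h4
      rcases h5 with ⟨rfl, h6⟩ | ⟨rfl, h6⟩
      · obtain ⟨u, v, h7, -⟩ := h1.run_inn c3 w0 (show 6 ∈ [3, 6, 8, 9] by decide)
        rw [e] at h7
        obtain rfl : q = 2 := by omega
        exact no_h44 hs h7
      · obtain ⟨u, v, h7, -⟩ := h1.run_inn c3 w0 (show 9 ∈ [3, 6, 8, 9] by decide)
        rw [e] at h7
        obtain rfl : q = 3 := by omega
        exact no_h44 hs h7
  · rcases h1.fi_z c3 hU w0 hi e with rfl | ⟨h3, h4, h5⟩
    · apply hd _ hm
      rw [← show cyc (TT (H1.wX R B S q w0 0)) = cyc (H1.wX R B S q w0 0) from cyc_eq.2 ⟨-1, by simp⟩]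
      exact hF
    · obtain ⟨s, hs, rfl, rfl⟩ := key h4
      rcases h5 with ⟨rfl, h6⟩ | ⟨rfl, h6⟩
      · obtain ⟨u, v, h7, h8⟩ := h1.run_inn c3 w0 (show 6 ∈ [3, 6, 8, 9] by decide)
        rw [e] at h7
        obtain rfl : q = 2 := by omega
        have := no_z44 hs h7
        omega
      · obtain ⟨u, v, h7, h8⟩ := h1.run_inn c3 w0 (show 9 ∈ [3, 6, 8, 9] by decide)
        rw [e] at h7
        obtain rfl : q = 3 := by omega
        have := no_z44 hs h7
        omega
  · obtain ⟨h3, h4, h5, h6⟩ := h1.fi_y c3 hU w0 hi e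
    obtain ⟨s, hs, rfl, rfl⟩ := key h5
    rcases h6 with rfl | rfl
    · obtain ⟨u, v, h7, -⟩ := h1.run_inn c3 w0 (show 3 ∈ [3, 6, 8, 9] by decide)
      rw [e] at h7
      obtain rfl : q = 3 := by omega
      exact no_y44 hs h7
    · obtain ⟨u, v, h7, h8⟩ := h1.run_inn c3 w0 (show 8 ∈ [3, 6, 8, 9] by decide)
      rw [e] at h7
      obtain rfl : q = 3 := by omega
      have := no_y45 hs h7
      omega

end Pool.OddHC
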