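import Pool.Agent.Work.MP_8f87b2_h76.FyReg
import Pool.Agent.Work.MP_8f87b2_h63.BWr
import Pool.Agent.Work.MP_8f87b2_h69w.BwE

/-!
# MP_8f87b2_co: B-windows against the content links `TyFz`

`NodeBw.fz_list`: a common word of a B-window (`3 ≤ c`) and the link `(U)[d]`, `U[d + 1]`, `[d]()U` of a bare word: then
`c = q + 2`, `d = q + 1`, `U = S(B)`, `B ≠ nil`.
-/

set_option autoImplicit false

namespace Pool.OddHC

open Finset Equiv BinaryTree Multiset Pool.Agent.Work.MP_8f87b2_co

variable {k c q d : ℕ} {R B S U : BinaryTree Unit} {F F' : Set (Cyc k)} {g g' : DG k}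

theorem one_raise76 {M : Multiset ℕ} (h : 1 ∈ M) (h2 : 2 ≤ M.sup) : 1 ∈ raise M := by
  unfold raise
  rw [Multiset.mem_cons]
  right
  exact (Multiset.mem_erase_of_ne (by omega)).2 h

theorem FxD.c0 (h : FxD c R) : 0 < c := by have := h.c3; omega

/-- the parts of the host -/
theorem FxD.host_ge (h : FxD d U) : ∀ x ∈ cont (w1 .nil U (H1.ch d)), d ≤ x := by
  have hc := h.c3
  intro x hx
  rw [cont_w1, cont_nil, zero_add, cont_chc (by omega)] at hx
  rcases Multiset.mem_add.1 hx with hx | hx
  · have := h.rpart hx
    omega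
  · rw [Multiset.mem_singleton] at hx
    omega

theorem FxD.z_ge (h : FxD d U) : ∀ x ∈ cont (w1 U (H1.ch d) .nil), d + 1 ≤ x := by
  intro x hx
  rw [FxD.c_z' d U] at hx
  rcases Multiset.mem_add.1 hx with hx | hx
  · rw [Multiset.mem_singleton] at hx
    omega
  · exact h.part x hx

theorem FxD.host_comps (h : FxD d U) : comps (w1 .nil U (H1.ch d)) = [U, H1.ch (d - 1)] := by
  have hc := h.c3
  rw [comps_w1, comps_chc (by omega)]
  rfl

theorem z_comps76 (d : ℕ) (U : BinaryTree Unit) : comps (w1 U (H1.ch d) .nil) = comps U ++ [H1.ch d] := by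
  rw [comps_w1]
  rfl

theorem FxD.y_comps (h : FxD d U) : comps (w1 (H1.ch d) .nil U) = H1.ch (d - 1) :: .nil :: comps U := by
  have hc := h.c3
  rw [comps_w1, comps_chc (by omega)]
  rfl

theorem ch_inj76 {a b : ℕ} (h : H1.ch a = H1.ch b) : a = b := by
  have h1 := congrArg OddHC.ht h
  rwa [H1.ch_ht, H1.ch_ht] at h1

namespace NodeBw

theorem q1f (h : NodeBw k c q R B S) (c3 : 3 ≤ c) : 1 ≤ q := by
  have := h.lt
  omega

theorem R3f (h : NodeBw k c q R B S) (c3 : 3 ≤ c) : ∀ x ∈ cont R, 3 ≤ x := by
  intro x hx
  rcases h.part x hx with h1 | h1 <;> omega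

theorem S3f (h : NodeBw k c q R B S) (c3 : 3 ≤ c) : ∀ x ∈ cont S, 3 ≤ x := by
  intro x hx
  rcases h.partS x hx with h1 | h1 <;> omega

theorem htS76 (h : NodeBw k c q R B S) : q + 3 ≤ (cont S).sup := by
  rw [← OddHC.ht_eq, h.dat.htS]
  exact h.top

theorem htR76 (h : NodeBw k c q R B S) : q + 3 ≤ (cont R).sup := by
  rw [← OddHC.ht_eq]
  exact h.top

theorem ne_nil_of {T A : BinaryTree Unit} (h : ∀ x ∈ cont T, 3 ≤ x) (hA : A ∈ comps T) : A ≠ .nil := by
  rintro rfl
  have h1 := mem_comps hA r_nil
  have := h 1 h1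
  omega

theorem neRf (h : NodeBw k c q R B S) : R ≠ .nil := by
  rintro rfl
  have h1 := h.htR76
  rw [cont_nil] at h1
  simp at h1

theorem neSf (h : NodeBw k c q R B S) : S ≠ .nil := by
  rintro rfl
  have h1 := h.htS76
  rw [cont_nil] at h1
  simp at h1

/-- the words with a part 1 -/
theorem one_Wf (h : NodeBw k c q R B S) (c3 : 3 ≤ c) {i : ℕ} (hi : i ∈ [1, 2, 3, 4, 5, 7, 8, 11, 12, 13, 14, 18]) :
    1 ∈ cont (H1.W R (H1.ch (q + 1)) B S i) := by
  have hq := h.q1f c3
  have e1 : cont (H1.ch (q + 1)) = {q + 1} := H1.ch_cont q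
  have hR := h.htR76
  have hS := h.htS76
  have m1 : (1 : ℕ) ∈ ({1} : Multiset ℕ) := Multiset.mem_singleton_self _
  simp only [List.mem_cons, List.not_mem_nil, or_false] at hi
  rcases hi with rfl | rfl | rfl | rfl | rfl | rfl | rfl | rfl | rfl | rfl | rfl | rfl
  · change 1 ∈ cont (app R (.nil △ app (H1.ch (q + 1)) (.nil △ .nil)))
    rw [cont_app, cont_node, cont_nil, raise_zero]
    simp
  · change 1 ∈ cont (.nil △ app R (.nil △ H1.ch (q + 1)))
    rw [cont_node, cont_nil, raise_zero]
    simp
  · change 1 ∈ cont (app R (.nil △ H1.ch (q + 1)) △ .nil)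
    rw [cont_node, cont_nil, add_zero]
    apply one_raise76
    · rw [cont_app, cont_node, cont_nil, raise_zero]
      simp
    · rw [cont_app, Multiset.sup_add]
      exact le_trans (by omega) le_sup_left
  · change 1 ∈ cont (app (H1.ch (q + 1)) (.nil △ .nil) △ R)
    rw [cont_node]
    apply Multiset.mem_add.2
    left
    apply one_raise76
    · rw [cont_app, cont_node, cont_nil, raise_zero]
      simp
    · rw [cont_app, Multiset.sup_add, e1, Multiset.sup_singleton]
      exact le_trans (by omega) le_sup_left
  · change 1 ∈ cont (H1.ch (q + 1) △ (.nil △ R))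
    rw [cont_node, cont_node, cont_nil, raise_zero]
    simp
  · change 1 ∈ cont (app (H1.ch (q + 1)) ((.nil △ R) △ .nil))
    rw [cont_app, cont_node, cont_node, cont_nil, add_zero, raise_zero]
    apply Multiset.mem_add.2
    right
    apply one_raise76
    · simp
    · rw [Multiset.sup_add]
      exact le_trans (by omega) le_sup_right
  · change 1 ∈ cont (app (H1.ch (q + 1)) (.nil △ (R △ .nil)))
    rw [cont_app, cont_node, cont_nil, raise_zero]
    simp
  · change 1 ∈ cont (app B (.nil △ app (H1.ch (q + 1)) (.nil △ S)))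
    rw [cont_app, cont_node, cont_nil, raise_zero]
    simp
  · change 1 ∈ cont (S △ app B (.nil △ H1.ch (q + 1)))
    rw [cont_node, cont_app, cont_node, cont_nil, raise_zero]
    simp
  · change 1 ∈ cont (app S (app B (.nil △ H1.ch (q + 1)) △ .nil))
    rw [cont_app, cont_node, cont_nil, add_zero]
    apply Multiset.mem_add.2
    right
    apply one_raise76
    · rw [cont_app, cont_node, cont_nil, raise_zero]
      simp
    · rw [cont_app, cont_node, Multiset.sup_add, Multiset.sup_add, e1, Multiset.sup_singleton]
      exact le_trans (by omega) (le_sup_right.trans le_sup_right)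
  · change 1 ∈ cont (app (H1.ch (q + 1)) (.nil △ S) △ B)
    rw [cont_node]
    apply Multiset.mem_add.2
    left
    apply one_raise76
    · rw [cont_app, cont_node, cont_nil, raise_zero]
      simp
    · rw [cont_app, Multiset.sup_add, e1, Multiset.sup_singleton]
      exact le_trans (by omega) le_sup_left
  · change 1 ∈ cont (app (H1.ch (q + 1)) (.nil △ app S (B △ .nil)))
    rw [cont_app, cont_node, cont_nil, raise_zero]
    simp

/-- **the host `(U)[d]`** -/
theorem fz_h (h : NodeBw k c q R B S) (c3 : 3 ≤ c) (hU : FxD d U) {i : ℕ} (hi : i < 20)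
    (e : H1.W R (H1.ch (q + 1)) B S i = w1 .nil U (H1.ch d)) :
    d = q + 1 ∧ c = q + 2 ∧ B ≠ .nil ∧ U = app S (B △ .nil) := by
  have hq := h.q1f c3
  have hlt := h.lt
  have hc := hU.c3
  have no1 : 1 ∉ cont (H1.W R (H1.ch (q + 1)) B S i) := by
    rw [e]
    intro h1
    have := hU.host_ge 1 h1
    omega
  have e1 := congrArg comps e
  rw [hU.host_comps] at e1
  have cq : comps (H1.ch (q + 1)) = [H1.ch q] := rfl
  have two := hU.two
  have nR := comps_ne h.neRf
  have nS := comps_ne h.neSf
  have lR : 0 < (comps R).length := List.length_pos_iff.2 nR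
  have lS : 0 < (comps S).length := List.length_pos_iff.2 nS
  have one : ∀ {T : BinaryTree Unit}, U = T → (comps T).length ≤ 1 → False := by
    rintro T rfl h1
    omega
  interval_cases i
  · have e2 : comps R ++ [H1.ch (q + 2)] = [U] ++ [H1.ch (d - 1)] := by
      rw [show [U] ++ [H1.ch (d - 1)] = [U, H1.ch (d - 1)] from rfl, ← e1]
      change _ = comps (app R (H1.ch (q + 2) △ .nil))
      rw [comps_app]
      rfl
    obtain ⟨e3, e4⟩ := List.append_inj' e2 rfl
    have e5 := ch_inj76 (List.cons.inj e4).1
    have e6 : R = U △ .nil := comps_inj e3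
    have h1 := h.memR
    rw [e6, cont_node, cont_nil, add_zero] at h1
    have := hU.rpart h1
    omega
  · exact absurd (h.one_Wf c3 (by decide)) no1
  · exact absurd (h.one_Wf c3 (by decide)) no1
  · exact absurd (h.one_Wf c3 (by decide)) no1
  · exact absurd (h.one_Wf c3 (by decide)) no1
  · exact absurd (h.one_Wf c3 (by decide)) no1
  · have e2 : [R, H1.ch (q + 1)] = [U, H1.ch (d - 1)] := e1
    rw [List.cons.injEq, List.cons.injEq] at e2
    have e3 := ch_inj76 e2.2.1
    have h1 := h.memR
    rw [e2.1] at h1
    have := hU.part _ h1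
    omega
  · exact absurd (h.one_Wf c3 (by decide)) no1
  · exact absurd (h.one_Wf c3 (by decide)) no1
  · have e2 : [R △ .nil, H1.ch q] = [U, H1.ch (d - 1)] := e1
    rw [List.cons.injEq] at e2
    exact (one e2.1.symm (by simp [comps])).elim
  · have e2 : comps B ++ (H1.ch (q + 2) :: comps S) = [U, H1.ch (d - 1)] := by
      rw [← e1]
      change _ = comps (app B (H1.ch (q + 2) △ S))
      rw [comps_app]
      rfl
    have e3 := congrArg List.length e2
    simp only [List.length_append, List.length_cons, List.length_nil] at e3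
    have e4 : comps B = [] := List.length_eq_zero_iff.1 (by omega)
    rw [e4, List.nil_append, List.cons.injEq] at e2
    exact (one e2.1.symm (by rw [show q + 2 = (q + 1) + 1 from rfl]; simp [H1.ch, comps])).elim
  · exact absurd (h.one_Wf c3 (by decide)) no1
  · exact absurd (h.one_Wf c3 (by decide)) no1
  · exact absurd (h.one_Wf c3 (by decide)) no1
  · exact absurd (h.one_Wf c3 (by decide)) no1
  · have e2 : H1.ch (q + 1) :: S :: comps B = [U, H1.ch (d - 1)] := e1
    rw [List.cons.injEq] at e2
    exact (one e2.1.symm (by simp [H1.ch, comps])).elim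
  · have e2 : comps S ++ [B, H1.ch (q + 1)] = [U, H1.ch (d - 1)] := by
      rw [← e1]
      change _ = comps (app S (B △ (H1.ch (q + 1) △ .nil)))
      rw [comps_app]
      rfl
    have e3 := congrArg List.length e2
    simp only [List.length_append, List.length_cons, List.length_nil] at e3
    omega
  · have e2 : [H1.ch q, S △ B] = [U, H1.ch (d - 1)] := e1
    rw [List.cons.injEq] at e2
    refine (one e2.1.symm ?_).elim
    cases q with
    | zero => omega
    | succ q => simp [H1.ch, comps]
  · exact absurd (h.one_Wf c3 (by decide)) no1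
  · have e2 : [app S (B △ .nil), H1.ch q] = [U, H1.ch (d - 1)] := e1
    rw [List.cons.injEq, List.cons.injEq] at e2
    have e3 := ch_inj76 e2.2.1
    have h1 : c ∈ cont U := by
      rw [← e2.1, cont_app]
      exact Multiset.mem_add.2 (Or.inl h.memS)
    have h2 := hU.part _ h1
    refine ⟨by omega, by omega, ?_, e2.1.symm⟩
    rintro rfl
    apply hU.no1
    rw [← e2.1, cont_app, cont_node, cont_nil, raise_zero]
    simp

/-- **the word `U[d + 1]`** -/
theorem fz_z (h : NodeBw k c q R B S) (c3 : 3 ≤ c) (hU : FxD d U) {i : ℕ} (hi : i < 20)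
    (e : H1.W R (H1.ch (q + 1)) B S i = w1 U (H1.ch d) .nil) :
    d = q + 1 ∧ c = q + 2 ∧ B ≠ .nil ∧ U = app S (B △ .nil) := by
  have hq := h.q1f c3
  have hlt := h.lt
  have hc := hU.c3
  have ez : cont (H1.W R (H1.ch (q + 1)) B S i) = {d + 1} + cont U := by rw [e]; exact FxD.c_z' d U
  have no1 : 1 ∉ cont (H1.W R (H1.ch (q + 1)) B S i) := by
    rw [e]
    intro h1
    have := hU.z_ge 1 h1
    omega
  have e1 := congrArg comps e
  rw [z_comps76] at e1
  have two := hU.two
  have nR := comps_ne h.neRf
  have nS := comps_ne h.neSf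
  have lR : 0 < (comps R).length := List.length_pos_iff.2 nR
  have lS : 0 < (comps S).length := List.length_pos_iff.2 nS
  have len : 3 ≤ (comps (H1.W R (H1.ch (q + 1)) B S i)).length := by
    rw [e1, List.length_append, List.length_cons, List.length_nil]
    omega
  have cnt : ∀ {M : Multiset ℕ}, cont (H1.W R (H1.ch (q + 1)) B S i) = M → c ∈ M →
      (∀ x ∈ M, x = c ∨ q + 3 ≤ x) → M.count c = 1 → False := by
    rintro M h1 h2 h3 h4
    rw [ez] at h1
    have h5 : d + 1 ∈ M := by rw [← h1]; simp
    have h6 : d + 1 ≤ c := by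
      rw [← h1] at h2
      rcases Multiset.mem_add.1 h2 with h2 | h2
      · rw [Multiset.mem_singleton] at h2
        omega
      · exact hU.part _ h2
    have h7 : d + 1 = c := by
      rcases h3 _ h5 with h7 | h7 <;> omega
    have h8 : 2 ≤ M.count c := by
      rw [← h1, ← h7, Multiset.count_add, Multiset.count_singleton_self]
      have := Multiset.one_le_count_iff_mem.2 hU.mem
      omega
    omega
  have cR : ∀ x ∈ cont R + {q + 3}, x = c ∨ q + 3 ≤ x := by
    intro x hx
    rcases Multiset.mem_add.1 hx with hx | hx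
    · exact h.part x hx
    · rw [Multiset.mem_singleton] at hx
      omega
  have c0 : (cont R + {q + 3}).count c = 1 := by
    rw [Multiset.count_add, h.one, Multiset.count_eq_zero.2]
    rw [Multiset.mem_singleton]
    omega
  interval_cases i
  · refine (cnt (M := cont R + {q + 3}) ?_ (Multiset.mem_add.2 (Or.inl h.memR)) cR c0).elim
    change cont (app R (H1.ch (q + 2 + 1))) = _
    rw [cont_app, H1.ch_cont]
  · exact absurd (h.one_Wf c3 (by decide)) no1
  · exact absurd (h.one_Wf c3 (by decide)) no1
  · exact absurd (h.one_Wf c3 (by decide)) no1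
  · exact absurd (h.one_Wf c3 (by decide)) no1
  · exact absurd (h.one_Wf c3 (by decide)) no1
  · exact absurd (show 3 ≤ 2 from len) (by omega)
  · exact absurd (h.one_Wf c3 (by decide)) no1
  · exact absurd (h.one_Wf c3 (by decide)) no1
  · exact absurd (show 3 ≤ 2 from len) (by omega)
  · refine (cnt (M := cont R + {q + 3}) ?_ (Multiset.mem_add.2 (Or.inl h.memR)) cR c0).elim
    change cont (app B (H1.ch (q + 2) △ S)) = _
    rw [cont_app, cont_node, ← h.eq]
    have : raise (cont (H1.ch (q + 2))) = {q + 3} := by
      rw [show cont (H1.ch (q + 2)) = {q + 2} from H1.ch_cont (q + 1), raise_single]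
    rw [this]
    abel
  · exact absurd (h.one_Wf c3 (by decide)) no1
  · exact absurd (h.one_Wf c3 (by decide)) no1
  · exact absurd (h.one_Wf c3 (by decide)) no1
  · exact absurd (h.one_Wf c3 (by decide)) no1
  · -- (Q)(S)B
    exfalso
    have e2 : H1.ch (q + 1) :: S :: comps B = comps U ++ [H1.ch d] := e1
    have h0 : c ∈ {d + 1} + cont U := by
      rw [← ez]
      change c ∈ cont (H1.ch (q + 1) △ (S △ B))
      rw [cont_node, cont_node]
      refine Multiset.mem_add.2 (Or.inr (Multiset.mem_add.2 (Or.inl ?_)))
      unfold raise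
      exact Multiset.mem_cons_of_mem ((Multiset.mem_erase_of_ne (by have := h.htS76; omega)).2 h.memS)
    have h6 : d + 1 ≤ c := by
      rcases Multiset.mem_add.1 h0 with h2 | h2
      · rw [Multiset.mem_singleton] at h2
        omega
      · exact hU.part _ h2
    cases hb : comps B with
    | nil =>
      rw [hb] at e2
      have := congrArg List.length e2
      simp only [List.length_append, List.length_cons, List.length_nil] at this
      omega
    | cons a l =>
      obtain ⟨L, b, hL⟩ : ∃ L b, comps B = L ++ [b] :=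
        ⟨_, _, (List.dropLast_append_getLast (by rw [hb]; simp)).symm⟩
      rw [hL] at e2
      have e3 : (H1.ch (q + 1) :: S :: L) ++ [b] = comps U ++ [H1.ch d] := by
        rw [← e2]
        rfl
      have e4 := (List.append_inj' e3 rfl).2
      have e5 : b = H1.ch d := (List.cons.inj e4).1
      have h7 : b ∈ comps B := by rw [hL]; simp
      have h8 : d + 1 ∈ raise (cont b) := by
        rw [e5, cont_chc (by omega), raise_single]
        exact Multiset.mem_singleton_self _
      have := h.bare _ (mem_comps h7 h8)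
      omega
  · -- S(B)(Q)
    have e2 : (comps S ++ [B]) ++ [H1.ch (q + 1)] = comps U ++ [H1.ch d] := by
      rw [← e1]
      change _ = comps (app S (B △ (H1.ch (q + 1) △ .nil)))
      rw [comps_app, List.append_assoc]
      rfl
    obtain ⟨e3, e4⟩ := List.append_inj' e2 rfl
    have e5 := ch_inj76 (List.cons.inj e4).1
    have e6 : U = app S (B △ .nil) := by
      apply comps_inj
      rw [comps_app, ← e3]
      rfl
    have h1 : c ∈ cont U := by
      rw [e6, cont_app]
      exact Multiset.mem_add.2 (Or.inl h.memS)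
    have h2 := hU.part _ h1
    refine ⟨by omega, by omega, ?_, e6⟩
    rintro rfl
    apply hU.no1
    rw [e6, cont_app, cont_node, cont_nil, raise_zero]
    simp
  · exact absurd (show 3 ≤ 2 from len) (by omega)
  · exact absurd (h.one_Wf c3 (by decide)) no1
  · exact absurd (show 3 ≤ 2 from len) (by omega)

/-- **the word `[d]()U`** -/
theorem fz_y (h : NodeBw k c q R B S) (c3 : 3 ≤ c) (hU : FxD d U) {i : ℕ} (hi : i < 20)
    (e : H1.W R (H1.ch (q + 1)) B S i = w1 (H1.ch d) .nil U) :
    d = q + 1 ∧ c = q + 2 ∧ B ≠ .nil ∧ U = app S (B △ .nil) := by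
  have hq := h.q1f c3
  have hlt := h.lt
  have hc := hU.c3
  have hf := hU.wy
  rw [← e] at hf
  have e1 := congrArg comps e
  rw [hU.y_comps] at e1
  have two := hU.two
  have nR := comps_ne h.neRf
  have nS := comps_ne h.neSf
  have nilR : ∀ A ∈ comps R, A ≠ .nil := fun A hA => ne_nil_of (h.R3f c3) hA
  have nilS : ∀ A ∈ comps S, A ≠ .nil := fun A hA => ne_nil_of (h.S3f c3) hA
  have nilB : ∀ A ∈ comps B, A ≠ .nil := fun A hA => ne_nil_of (T := B) (fun x hx => by
    have := h.bare x hx
    omega) hA
  have chn : ∀ n, 1 ≤ n → H1.ch n ≠ .nil := by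
    intro n hn e9
    have := congrArg OddHC.ht e9
    rw [H1.ch_ht] at this
    change n = 0 at this
    omega
  have one : (cont (H1.W R (H1.ch (q + 1)) B S i)).count 1 = 1 := by
    have h1 : (cont U).count 1 = 0 := Multiset.count_eq_zero.2 hU.no1
    rw [e, hU.c_y', Multiset.count_add, Multiset.count_add, h1, Multiset.count_singleton_self,
      Multiset.count_eq_zero.2 (by rw [Multiset.mem_singleton]; omega)]
  have len : 4 ≤ (comps (H1.W R (H1.ch (q + 1)) B S i)).length := by
    rw [e1, List.length_cons, List.length_cons]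
    omega
  have no1 : ∀ {M : Multiset ℕ}, cont (H1.W R (H1.ch (q + 1)) B S i) = M → (∀ x ∈ M, 3 ≤ x) → False := by
    intro M h1 h2
    rw [h1] at one
    have h3 := Multiset.one_le_count_iff_mem.1 one.ge
    have := h2 1 h3
    omega
  obtain ⟨r, R', hr⟩ := List.exists_cons_of_ne_nil nR
  obtain ⟨s, S', hs⟩ := List.exists_cons_of_ne_nil nS
  have sec : ∀ {T : BinaryTree Unit} {L : List (BinaryTree Unit)}, (∀ A ∈ comps T, A ≠ .nil) → T ≠ .nil →
      (∀ a l, L = a :: l → a ≠ .nil) → comps T ++ L ≠ H1.ch (d - 1) :: .nil :: comps U := by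
    intro T L h1 h2 h3 h4
    obtain ⟨t, T', ht⟩ := List.exists_cons_of_ne_nil (comps_ne h2)
    rw [ht, List.cons_append, List.cons.injEq] at h4
    cases T' with
    | nil =>
      rw [List.nil_append] at h4
      exact h3 _ _ h4.2 rfl
    | cons a l =>
      rw [List.cons_append, List.cons.injEq] at h4
      exact h1 a (by rw [ht]; simp) h4.2.1
  interval_cases i
  · refine (no1 (M := cont R + {q + 3}) ?_ ?_).elim
    · change cont (app R (H1.ch (q + 2 + 1))) = _
      rw [cont_app, H1.ch_cont]
    · intro x hx
      rcases Multiset.mem_add.1 hx with hx | hx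
      · exact h.R3f c3 x hx
      · rw [Multiset.mem_singleton] at hx
        omega
  · exfalso
    have h1 : (cont (app R (.nil △ app (H1.ch (q + 1)) (.nil △ .nil)))).count 1 = 1 := one
    rw [cont_app, cont_node, cont_app, cont_node, cont_nil, raise_zero] at h1
    simp only [Multiset.count_add, Multiset.count_singleton_self] at h1
    omega
  · exfalso
    rw [show comps (H1.W R (H1.ch (q + 1)) B S 2) = .nil :: comps (app R (.nil △ H1.ch (q + 1))) from rfl,
      List.cons.injEq] at e1
    exact chn (d - 1) (by omega) e1.1.symm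
  · exact absurd (show 4 ≤ 1 from len) (by omega)
  · exfalso
    have e2 : app (H1.ch (q + 1)) (.nil △ .nil) :: comps R = H1.ch (d - 1) :: .nil :: comps U := e1
    rw [List.cons.injEq, hr, List.cons.injEq] at e2
    exact nilR r (by rw [hr]; simp) e2.2.1
  · exfalso
    have e2 : H1.ch (q + 1) :: .nil :: comps R = H1.ch (d - 1) :: .nil :: comps U := e1
    rw [List.cons.injEq, List.cons.injEq] at e2
    have e3 := ch_inj76 e2.1
    have e4 : R = U := comps_inj e2.2.2
    have h1 := h.memR
    rw [e4] at h1
    have := hU.part _ h1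
    omega
  · exact absurd (show 4 ≤ 2 from len) (by omega)
  · exact absurd (show 4 ≤ 2 from len) (by omega)
  · exact absurd (show 4 ≤ 3 from len) (by omega)
  · exact absurd (show 4 ≤ 2 from len) (by omega)
  · refine (no1 (M := cont B + ({q + 3} + cont S)) ?_ ?_).elim
    · change cont (app B (H1.ch (q + 2) △ S)) = _
      rw [cont_app, cont_node, show cont (H1.ch (q + 2)) = {q + 2} from H1.ch_cont (q + 1), raise_single]
    · intro x hx
      rcases Multiset.mem_add.1 hx with hx | hx
      · have := h.bare x hx
        omega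
      · rcases Multiset.mem_add.1 hx with hx | hx
        · rw [Multiset.mem_singleton] at hx
          omega
        · exact h.S3f c3 x hx
  · exfalso
    have h1 : (cont (app B (.nil △ app (H1.ch (q + 1)) (.nil △ S)))).count 1 = 1 := one
    rw [cont_app, cont_node, cont_app, cont_node, cont_nil, raise_zero] at h1
    simp only [Multiset.count_add, Multiset.count_singleton_self] at h1
    omega
  · exfalso
    have e2 : S :: comps (app B (.nil △ H1.ch (q + 1))) = H1.ch (d - 1) :: .nil :: comps U := e1
    rw [List.cons.injEq] at e2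
    have h1 := h.memS
    have h2 := h.htS76
    rw [e2.1, cont_chc (by omega)] at h1 h2
    rw [Multiset.mem_singleton] at h1
    rw [Multiset.sup_singleton] at h2
    omega
  · exfalso
    refine sec (T := S) (L := [app B (.nil △ H1.ch (q + 1))]) nilS h.neSf ?_ ?_
    · intro a l e2
      rw [List.cons.injEq] at e2
      rw [← e2.1]
      exact H1.app_ne (by simp)
    · rw [← e1]
      change _ = comps (app S (app B (.nil △ H1.ch (q + 1)) △ .nil))
      rw [comps_app]
      rfl
  · exfalso
    have e2 : app (H1.ch (q + 1)) (.nil △ S) :: comps B = H1.ch (d - 1) :: .nil :: comps U := e1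
    rw [List.cons.injEq] at e2
    exact nilB .nil (by rw [e2.2]; simp) rfl
  · exfalso
    have e2 : H1.ch (q + 1) :: S :: comps B = H1.ch (d - 1) :: .nil :: comps U := e1
    rw [List.cons.injEq, List.cons.injEq] at e2
    exact h.neSf e2.2.1
  · exfalso
    rcases eq_or_ne B .nil with rfl | hB
    · have e2 : comps S ++ [.nil, H1.ch (q + 1)] = H1.ch (d - 1) :: .nil :: comps U := by
        rw [← e1]
        change _ = comps (app S (.nil △ (H1.ch (q + 1) △ .nil)))
        rw [comps_app]
        rfl
      rw [hs, List.cons_append, List.cons.injEq] at e2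
      cases S' with
      | nil =>
        have := congrArg List.length e2.2
        simp only [List.nil_append, List.length_cons, List.length_nil] at this
        omega
      | cons a l =>
        rw [List.cons_append, List.cons.injEq] at e2
        exact nilS a (by rw [hs]; simp) e2.2.1
    · refine sec (T := S) (L := [B, H1.ch (q + 1)]) nilS h.neSf ?_ ?_
      · intro a l e2
        rw [List.cons.injEq] at e2
        rw [← e2.1]
        exact hB
      · rw [← e1]
        change _ = comps (app S (B △ (H1.ch (q + 1) △ .nil)))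
        rw [comps_app]
        rfl
  · exact absurd (show 4 ≤ 2 from len) (by omega)
  · have e2 : H1.ch q :: .nil :: (comps S ++ [B]) = H1.ch (d - 1) :: .nil :: comps U := by
      rw [← e1]
      change _ = H1.ch q :: .nil :: comps (app S (B △ .nil))
      rw [comps_app]
      rfl
    rw [List.cons.injEq, List.cons.injEq] at e2
    have e3 := ch_inj76 e2.1
    have e6 : U = app S (B △ .nil) := by
      apply comps_inj
      rw [comps_app, ← e2.2.2]
      rfl
    have h1 : c ∈ cont U := by
      rw [e6, cont_app]
      exact Multiset.mem_add.2 (Or.inl h.memS)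
    have h2 := hU.part _ h1
    refine ⟨by omega, by omega, ?_, e6⟩
    rintro rfl
    apply hU.no1
    rw [e6, cont_app, cont_node, cont_nil, raise_zero]
    simp
  · exact absurd (show 4 ≤ 2 from len) (by omega)

end NodeBw

/-- **row Bw3 – Fz**: marker 3 -/
theorem MW.r_Bw3_Fz (h : TyBw3 F g) (h' : TyFz F' g') : ∀ w ∈ g.B, w ∉ g'.B := by
  obtain ⟨q, R, B, S, w0, h1, -, -, rfl⟩ := h
  obtain ⟨d, U, hU, hw⟩ := h'.words
  intro w hw1 hw2
  obtain ⟨i, hi, rfl⟩ := mem_gad20.1 hw1
  have hc := hU.c3
  rcases hw _ hw2 with e | ⟨-, e | e⟩ <;> rw [h1.word w0 hi] at e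
  · have := h1.fz_h le_rfl hU hi e
    omega
  · have := h1.fz_z le_rfl hU hi e
    omega
  · have := h1.fz_y le_rfl hU hi e
    omega

/-- no `T`-fixed word has exactly two smallest parts -/
theorem fix_no2g : ∀ (b k : ℕ) (M : Multiset ℕ) (z : X k), TT z = z → 1 ≤ b → (∀ x ∈ M, b < x) → M ≠ 0 →
    cont z.1 = M + {b} + {b} → False := by
  intro b
  induction b with
  | zero => intro k M z _ h; omega
  | succ b ih =>
    intro k M z hz _ hM hM0 hc
    obtain ⟨j, u, e, he, hw, h1, h2⟩ := red_ex z
    obtain ⟨a, rfl⟩ := exists_lf he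
    obtain ⟨f1, f2⟩ := fix_red hz hw
    have hl : (lf a).length = 2 * u.1.numNodes + 1 := by rw [lf_length, X_num]
    have hsum : (lf a).sum = (2 * j + 1) * a 0 := by
      rw [lf_sum, Finset.sum_congr rfl (fun x _ => f2 x), Finset.sum_const, Finset.card_univ, ZMod.card]
      rfl
    have hcz := cont_ins u.1 (lf a) hl
    rw [← hw, hc] at hcz
    have hcnt : (cont z.1).count 1 = (lf a).sum := by
      rw [hw]
      exact count_one_ins u.1 _ hl
    obtain ⟨m, hm⟩ := Multiset.exists_mem_of_ne_zero hM0
    rcases Nat.eq_zero_or_pos b with rfl | hb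
    · have h3 : (cont z.1).count 1 = 2 := by
        rw [hc, Multiset.count_add, Multiset.count_add, Multiset.count_singleton_self, Multiset.count_eq_zero.2
          (fun h4 => absurd (hM 1 h4) (by omega))]
      have h5 : (2 * j + 1) * a 0 = 2 := by omega
      have h7 : u.1 ≠ .nil := by
        intro e0
        rw [e0, cont_nil, Multiset.map_zero, zero_add] at hcz
        have h8 : m ∈ (M + {0 + 1} + {0 + 1} : Multiset ℕ) :=
          Multiset.mem_add.2 (Or.inl (Multiset.mem_add.2 (Or.inl hm)))
        rw [hcz] at h8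
        have := Multiset.eq_of_mem_replicate h8
        have := hM m hm
        omega
      have h8 : 1 ≤ j := by
        have h9 := X_num u
        have key : ∀ t : BinaryTree Unit, t.numNodes = 0 → t = .nil := by
          intro t ht
          cases t with
          | nil => rfl
          | node _ A B =>
            change A.numNodes + B.numNodes + 1 = 0 at ht
            omega
        by_contra h10
        exact h7 (key _ (by omega))
      rcases Nat.eq_zero_or_pos (a 0) with ha | ha
      · rw [ha] at h5
        omega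
      · have := Nat.mul_le_mul (show 3 ≤ 2 * j + 1 by omega) ha
        omega
    · have h3 : (cont z.1).count 1 = 0 := by
        rw [Multiset.count_eq_zero, hc]
        intro h4
        rcases Multiset.mem_add.1 h4 with h4 | h4
        · rcases Multiset.mem_add.1 h4 with h4 | h4
          · have := hM 1 h4
            omega
          · rw [Multiset.mem_singleton] at h4
            omega
        · rw [Multiset.mem_singleton] at h4
          omega
      rw [← hcnt, h3, Multiset.replicate_zero, add_zero] at hcz
      have hMM : Multiset.map (fun x : ℕ => x + 1) (Multiset.map (fun x : ℕ => x - 1) M) = M := by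
        rw [Multiset.map_map]
        conv_rhs => rw [← Multiset.map_id M]
        refine Multiset.map_congr rfl fun x hx => ?_
        have := hM x hx
        change x - 1 + 1 = x
        omega
      refine ih j (M.map (fun x => x - 1)) u f1 hb ?_ ?_ ?_
      · intro x hx
        obtain ⟨y, hy, rfl⟩ := Multiset.mem_map.1 hx
        have := hM y hy
        omega
      · intro e0
        rw [Multiset.map_eq_zero] at e0
        exact hM0 e0
      · apply Multiset.map_injective (f := fun x : ℕ => x + 1) (add_left_injective 1)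
        change _ = Multiset.map (fun x : ℕ => x + 1) (Multiset.map (fun x : ℕ => x - 1) M + {b} + {b})
        rw [Multiset.map_add, Multiset.map_add, Multiset.map_singleton, hMM]
        exact hcz.symm

/-- `z = U[d + 1]` with `d + 1` exactly once in `U` is not `T`-fixed -/
theorem FxD.no_fix (h : FxD d U) {z : X k} (hz : z.1 = app U (H1.ch (d + 1))) (h1 : (cont U).count (d + 1) = 1) :
    TT z ≠ z := by
  intro hT
  have hc := h.c3
  refine fix_no2g (d + 1) k ((cont U).erase (d + 1)) z hT (by omega) ?_ ?_ ?_
  · intro x hx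
    have h2 := h.part x (Multiset.mem_of_mem_erase hx)
    rcases eq_or_ne x (d + 1) with rfl | h3
    · exfalso
      have h4 := Multiset.one_le_count_iff_mem.2 hx
      rw [Multiset.count_erase_self, h1] at h4
      omega
    · omega
  · intro e
    have h2 := h.card
    have h3 := Multiset.cons_erase h.mem
    rw [e] at h3
    rw [← h3] at h2
    simp at h2
  · rw [hz, cont_app, show cont (H1.ch (d + 1)) = {d + 1} from H1.ch_cont d]
    congr 1
    rw [add_comm, Multiset.singleton_add, Multiset.cons_erase h.mem]

/-- TYPE Fq: the content link of a word `z = U[d + 1]`, `T`-fixed or `z = [s][4][4]` -/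
def TyFq (F : Set (Cyc k)) (g : DG k) : Prop :=
  ∃ (d : ℕ) (U : BinaryTree Unit) (z : X k), FxD d U ∧ z.1 = app U (H1.ch (d + 1)) ∧ FxQ z d U ∧ TyC d U F g

theorem TyFq.fz (h : TyFq F g) : TyFz F g := by
  obtain ⟨d, U, z, h1, -, -, h2⟩ := h
  exact ⟨d, U, h1, h2⟩

/-- the case left over -/
theorem NodeBw.fq_no (h : NodeBw k c q R B S) (hU : FxD d U) {z : X k} (hz : z.1 = app U (H1.ch (d + 1)))
    (hQ : FxQ z d U) (hh : d = q + 1 ∧ c = q + 2 ∧ B ≠ .nil ∧ U = app S (B △ .nil)) : False := by
  obtain ⟨rfl, rfl, hB, rfl⟩ := hh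
  have hrB : ∀ x ∈ raise (cont B), q + 3 ≤ x := by
    intro x hx
    unfold raise at hx
    rcases Multiset.mem_cons.1 hx with rfl | hx
    · obtain ⟨y, hy⟩ : ∃ y, y ∈ cont B := by
        cases hb : comps B with
        | nil =>
          exfalso
          apply hB
          apply comps_inj
          rw [hb]
          rfl
        | cons a l =>
          obtain ⟨y, hy⟩ := Multiset.exists_mem_of_ne_zero (show raise (cont a) ≠ 0 from Multiset.cons_ne_zero)
          exact ⟨y, mem_comps (by rw [hb]; simp) hy⟩
      have := Multiset.le_sup hy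
      have := h.bare y hy
      omega
    · exact h.bare x (Multiset.mem_of_mem_erase hx)
  have hcB : (raise (cont B)).count (q + 2) = 0 := by
    rw [Multiset.count_eq_zero]
    intro hx
    have := hrB _ hx
    omega
  rcases hQ with hT | ⟨s, hs, h3, h4⟩
  · refine hU.no_fix hz ?_ hT
    rw [cont_app, cont_node, cont_nil, add_zero, Multiset.count_add, hcB]
    exact h.cS
  · have e1 := congrArg comps h4
    rw [comps_app, comps_app] at e1
    have e2 : comps S ++ [B] = comps (pc s) ++ [pc 3] := e1
    have e3 := (List.append_inj' e2 rfl).2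
    have e4 : B = pc 3 := (List.cons.inj e3).1
    have e5 := h.bare 3 (by rw [e4, cont_pc 2]; simp)
    omega

/-- **row Bw – Fq**: every marker `c ≥ 3` -/
theorem MW.r_Bw_Fq (h : TyBw F g) (h2 : ∀ d ∈ F, 2 ∉ contc d) (h' : TyFq F' g') : ∀ w ∈ g.B, w ∉ g'.B := by
  obtain ⟨d, U, z, hU, hz, hQ, hT⟩ := h'
  intro w hw1 hw2
  obtain ⟨c, q, R, B, S, w0, i, h1, hi, rfl, hm⟩ := h.words w hw1
  have c3 := h1.c3 w0 (h2 _ hm)
  rcases IsTri.words hT _ hw2 with e | ⟨-, e | e⟩ <;> rw [h1.word w0 hi] at e
  · exact h1.fq_no hU hz hQ (h1.fz_h c3 hU hi e)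
  · exact h1.fq_no hU hz hQ (h1.fz_z c3 hU hi e)
  · exact h1.fq_no hU hz hQ (h1.fz_y c3 hU hi e)

end Pool.OddHC
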