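import Pool.Agent.Work.MP_8f87b2_h76.Single
import Pool.Agent.Work.MP_8f87b2_fin.PartK
import Pool.Agent.Work.MP_8f87b2_h20.S5Ty
import Pool.Agent.Work.MP_8f87b2_mid.DisC

/-!
# MP_8f87b2_co: the `T`-fixed bare words

`TyFx`: the left content link `[c](R)`, `[c + 1]R`, `R()[c]` of a `T`-fixed bare word `z = [c + 1]R`, `3 ≤ c`, `R` has at
least two components. `fx_ex`: existence. `fx_uniq`: one `T`-fixed word for one content. `cls_fx_z`, `cls_fx_y`: the
classes of the two new T-cycles.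
-/

set_option autoImplicit false

namespace Pool.OddHC

open Finset Equiv BinaryTree Multiset Pool.Agent.Work.MP_8f87b2_co

variable {j k c : ℕ} {R : BinaryTree Unit} {F F' : Set (Cyc k)} {g g' : DG k}

/-- the data of the link of the `T`-fixed bare word `[c + 1]R` -/
structure FxD (c : ℕ) (R : BinaryTree Unit) : Prop where
  c3 : 3 ≤ c
  part : ∀ x ∈ cont R, c + 1 ≤ x
  mem : c + 1 ∈ cont R
  two : 2 ≤ (comps R).length

/-- TYPE Fx: host `[c](R)`, new words `[c + 1]R` (the `T`-fixed word) and `R()[c]` -/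
def TyFx (F : Set (Cyc k)) (g : DG k) : Prop :=
  ∃ (c : ℕ) (R : BinaryTree Unit), FxD c R ∧ (∀ z : X k, z.1 = H1.ch c △ R → TT z = z) ∧ TyC' c R F g

theorem FxD.ne (h : FxD c R) : R ≠ .nil := by
  rintro rfl
  have := h.two
  simp [comps] at this

theorem FxD.ht (h : FxD c R) : c + 1 ≤ OddHC.ht R := by
  rw [ht_eq]
  exact Multiset.le_sup h.mem

/-! ### Fixed words -/

theorem fix_same {z w : X k} (hz : TT z = z) (h : (TT : Perm (X k)).SameCycle z w) : w = z := by
  obtain ⟨n, hn⟩ := sameCycle_nat h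
  rw [← hn]
  clear hn h
  induction n with
  | zero => rfl
  | succ n ih => rw [pow_succ', Perm.mul_apply, ih, hz]

theorem fix_mir {z : X k} (hz : TT z = z) : TT (Tsq.mirX z) = Tsq.mirX z := by
  have h := Tsq.TT_mir z
  rwa [hz] at h

/-- a `T`-fixed word ends with its smallest part -/
theorem fix_end {b : ℕ} {z : X k} (hz : TT z = z) (h : b + 1 ∈ cont z.1)
    (hmin : ∀ x ∈ cont z.1, b + 1 ≤ x) : ∃ R, z.1 = app R (pc (b + 1)) := by
  obtain ⟨w, R, hs, hw⟩ := exists_end b z h hmin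
  rw [fix_same hz hs] at hw
  exact ⟨R, hw⟩

/-- a `T`-fixed word starts with its smallest part -/
theorem fix_start {b : ℕ} {z : X k} (hz : TT z = z) (h : b + 1 ∈ cont z.1)
    (hmin : ∀ x ∈ cont z.1, b + 1 ≤ x) : ∃ R, z.1 = pc b △ R := by
  obtain ⟨R, hR⟩ := fix_end (fix_mir hz) (by
    change b + 1 ∈ cont (Tsq.mir z.1)
    rw [HM.cont_mir]; exact h) (by
    intro x hx
    change x ∈ cont (Tsq.mir z.1) at hx
    rw [HM.cont_mir] at hx
    exact hmin x hx)
  refine ⟨Tsq.mir R, ?_⟩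
  have h1 : Tsq.mir (Tsq.mir z.1) = Tsq.mir (app R (pc (b + 1))) := congrArg Tsq.mir hR
  rw [Tsq.mir_mir, Tsq.mir_app, HM.mir_pc] at h1
  rw [h1]
  rfl

/-- **the form of a `T`-fixed word with smallest part `c + 1` and at least three solitons** -/
theorem fx_form (hc : 3 ≤ c) {z : X k} (hz : TT z = z) (h : c + 1 ∈ cont z.1)
    (hmin : ∀ x ∈ cont z.1, c + 1 ≤ x) (h3 : 3 ≤ Multiset.card (cont z.1)) :
    ∃ R, FxD c R ∧ z.1 = H1.ch c △ R := by
  obtain ⟨R, hR⟩ := fix_start hz h hmin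
  obtain ⟨R2, hR2⟩ := fix_end hz h hmin
  have e0 : cont z.1 = {c + 1} + cont R := by
    rw [hR, cont_node]
    congr 1
    have h1 : cont (pc c △ .nil) = {c + 1} := cont_pc c
    rwa [cont_node, cont_nil, add_zero] at h1
  rw [hR] at hR2
  cases R2 with
  | nil =>
    exfalso
    have h1 : R = .nil := by
      have h2 : pc c △ R = pc c △ .nil := hR2
      injection h2
    rw [e0, h1, cont_nil, add_zero, Multiset.card_singleton] at h3
    omega
  | node _ A B =>
    have h1 : R = app B (pc (c + 1)) := by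
      have h2 : pc c △ R = A △ app B (pc (c + 1)) := hR2
      injection h2
    have h2 : cont R = cont B + {c + 1} := by rw [h1, cont_app, cont_pc]
    refine ⟨R, ⟨hc, ?_, ?_, ?_⟩, by rw [hR, H1.ch_eq]⟩
    · intro x hx
      apply hmin
      rw [e0]
      exact Multiset.mem_add.2 (Or.inr hx)
    · rw [h2]
      exact Multiset.mem_add.2 (Or.inr (Multiset.mem_singleton_self _))
    · have hB : B ≠ .nil := by
        rintro rfl
        rw [e0, h2, cont_nil, zero_add, Multiset.card_add, Multiset.card_singleton] at h3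
        omega
      have h4 := comps_ne hB
      have h5 : (comps R).length = (comps B).length + 1 := by
        rw [h1, comps_app, List.length_append]
        rfl
      have h6 : 1 ≤ (comps B).length := by
        rcases hB' : comps B with _ | ⟨a, l⟩
        · exact absurd hB' h4
        · simp
      omega

/-! ### The link -/

theorem cont_chn (c : ℕ) (R : BinaryTree Unit) : cont (H1.ch c △ R) = {c + 1} + cont R := by
  rw [cont_node]
  congr 1
  have h1 : cont (pc c △ .nil) = {c + 1} := cont_pc c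
  rw [cont_node, cont_nil, add_zero] at h1
  rwa [H1.ch_eq]

theorem cont_chr (c : ℕ) (R : BinaryTree Unit) : cont (app R (H1.ch (c + 1))) = {c + 1} + cont R := by
  rw [cont_app, H1.ch_eq, cont_pc, add_comm]

theorem FxD.no1 (h : FxD c R) : 1 ∉ cont R := by
  intro hx
  have := h.part 1 hx
  have := h.c3
  omega

theorem FxD.no2 (h : FxD c R) : 2 ∉ cont R := by
  intro hx
  have := h.part 2 hx
  have := h.c3
  omega

theorem raise_nil : raise (cont (.nil : BinaryTree Unit)) = {1} := rfl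

/-- the contents of the words of the link -/
theorem FxD.c_y (h : FxD c R) : cont (w1 R .nil (H1.ch c)) = cont R + {1} + {c} := by
  obtain ⟨c', rfl⟩ : ∃ c', c = c' + 1 := ⟨c - 1, by have := h.c3; omega⟩
  rw [cont_w1, raise_nil, H1.ch_eq, cont_pc, add_assoc]

theorem FxD.c_y' (h : FxD c R) : cont (w1 (H1.ch c) .nil R) = cont R + {1} + {c} := by
  obtain ⟨c', rfl⟩ : ∃ c', c = c' + 1 := ⟨c - 1, by have := h.c3; omega⟩
  rw [cont_w1, raise_nil, H1.ch_eq, cont_pc]
  abel

theorem FxD.c_z (c : ℕ) (R : BinaryTree Unit) : cont (w1 .nil (H1.ch c) R) = {c + 1} + cont R :=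
  cont_chn c R

theorem FxD.c_z' (c : ℕ) (R : BinaryTree Unit) : cont (w1 R (H1.ch c) .nil) = {c + 1} + cont R := by
  rw [cont_w1, cont_nil, add_zero, add_comm]
  congr 1
  have h1 : cont (pc c △ .nil) = {c + 1} := cont_pc c
  rw [cont_node, cont_nil, add_zero] at h1
  rwa [H1.ch_eq]

theorem FxD.ht_y (h : FxD c R) : OddHC.ht (w1 R .nil (H1.ch c)) = OddHC.ht R := by
  have := h.ht
  rw [ht_w1, H1.ch_ht, show OddHC.ht .nil = 0 from rfl]
  omega

theorem FxD.ht_y' (h : FxD c R) : OddHC.ht (w1 (H1.ch c) .nil R) = OddHC.ht R := by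
  have := h.ht
  rw [ht_w1, H1.ch_ht, show OddHC.ht .nil = 0 from rfl]
  omega

theorem FxD.ht_z (h : FxD c R) : OddHC.ht (w1 .nil (H1.ch c) R) = OddHC.ht R := by
  have := h.ht
  rw [ht_w1, H1.ch_ht, show OddHC.ht .nil = 0 from rfl]
  omega

theorem FxD.ht_z' (h : FxD c R) : OddHC.ht (w1 R (H1.ch c) .nil) = OddHC.ht R := by
  have := h.ht
  rw [ht_w1, H1.ch_ht, show OddHC.ht .nil = 0 from rfl]
  omega

theorem FxD.cne (h : FxD c R) : cont R + {1} + {c} ≠ {c + 1} + cont R := by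
  intro e
  have h1 : 1 ∈ {c + 1} + cont R := by
    rw [← e]
    simp
  rcases Multiset.mem_add.1 h1 with h2 | h2
  · have := h.c3
    rw [Multiset.mem_singleton] at h2
    omega
  · exact h.no1 h2

/-- **the left link** -/
theorem fx_mk (h : FxD c R) (hk : R.numNodes + c + 1 = k) :
    ∃ (y z : X k) (g : DG k), y.1 = app R (.nil △ H1.ch c) ∧ z.1 = H1.ch c △ R ∧
      TyC' c R {cyc y, cyc z} g := by
  have hht := h.ht
  obtain ⟨b, d, g, hb, hd, hg⟩ := mk_tri (k := k) (H1.ch c) R .nil (by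
    rw [H1.ch_num]
    change c + R.numNodes + 0 + 1 = k
    omega) (by
    rw [h.c_y, FxD.c_z]
    exact h.cne) (by rw [h.ht_y, h.ht_z]) (by
    rw [h.ht_y, ht_w1, show OddHC.ht .nil = 0 from rfl]
    omega)
  exact ⟨b, d, g, hb, hd, hg⟩

/-- **the right link** -/
theorem fx_mk' (h : FxD c R) (hk : R.numNodes + c + 1 = k) :
    ∃ (z y : X k) (g : DG k), z.1 = app R (H1.ch (c + 1)) ∧ y.1 = app (H1.ch c) (.nil △ R) ∧
      TyC c R {cyc z, cyc y} g := by
  have hht := h.ht
  obtain ⟨b, d, g, hb, hd, hg⟩ := mk_tri (k := k) .nil R (H1.ch c) (by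
    rw [H1.ch_num]
    change 0 + R.numNodes + c + 1 = k
    omega) (by
    rw [h.c_y', FxD.c_z']
    exact h.cne.symm) (by rw [h.ht_y', h.ht_z']) (by
    rw [h.ht_z', ht_w1, show OddHC.ht .nil = 0 from rfl]
    omega)
  exact ⟨b, d, g, hb, hd, hg⟩

/-- TYPE Fy (right form): host `(R)[c]`, new words `R[c + 1]` (the `T`-fixed word) and `[c]()R` -/
def TyFy (F : Set (Cyc k)) (g : DG k) : Prop :=
  ∃ (c : ℕ) (R : BinaryTree Unit), FxD c R ∧ (∀ z : X k, z.1 = app R (H1.ch (c + 1)) → TT z = z) ∧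
    TyC c R F g

/-- **existence, left form** -/
theorem fx_ex (hc : 3 ≤ c) {p0 : Cyc k} (h : c + 1 ∈ contc p0) (hmin : ∀ x ∈ contc p0, c + 1 ≤ x)
    (h3 : 3 ≤ Multiset.card (contc p0)) (hz : ∃ z : X k, cyc z = p0 ∧ TT z = z) :
    ∃ (R : BinaryTree Unit) (y : X k) (g : DG k), FxD c R ∧ contc p0 = {c + 1} + cont R ∧
      y.1 = app R (.nil △ H1.ch c) ∧ contc (cyc y) = cont R + {1} + {c} ∧ TyFx {cyc y, p0} g := by
  obtain ⟨z, rfl, hz⟩ := hz
  obtain ⟨R, hR, hzR⟩ := fx_form hc hz h hmin h3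
  have hk : R.numNodes + c + 1 = k := by
    have h1 := X_num z
    rw [hzR] at h1
    change (H1.ch c).numNodes + R.numNodes + 1 = k at h1
    rw [H1.ch_num] at h1
    omega
  obtain ⟨y, z', g, hy, hz', hg⟩ := fx_mk hR hk
  have e : z' = z := Subtype.ext (by rw [hz', hzR])
  rw [e] at hg
  refine ⟨R, y, g, hR, ?_, hy, ?_, c, R, hR, ?_, hg⟩
  · change cont z.1 = _
    rw [hzR, cont_chn]
  · change cont y.1 = _
    rw [hy]
    exact hR.c_y
  · intro x hx
    have : x = z := Subtype.ext (by rw [hx, hzR])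
    rw [this]
    exact hz

/-- a `T`-fixed word is also `R[c + 1]` -/
theorem fx_form' (hc : 3 ≤ c) {z : X k} (hz : TT z = z) (h : c + 1 ∈ cont z.1)
    (hmin : ∀ x ∈ cont z.1, c + 1 ≤ x) (h3 : 3 ≤ Multiset.card (cont z.1)) :
    ∃ R, FxD c R ∧ z.1 = app R (H1.ch (c + 1)) := by
  obtain ⟨R, hR, hzR⟩ := fx_form hc (fix_mir hz) (by
    change c + 1 ∈ cont (Tsq.mir z.1)
    rw [HM.cont_mir]; exact h) (by
    intro x hx
    change x ∈ cont (Tsq.mir z.1) at hx
    rw [HM.cont_mir] at hx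
    exact hmin x hx) (by
    change 3 ≤ Multiset.card (cont (Tsq.mir z.1))
    rw [HM.cont_mir]; exact h3)
  have h1 : Tsq.mir (Tsq.mir z.1) = Tsq.mir (H1.ch c △ R) := congrArg Tsq.mir hzR
  rw [Tsq.mir_mir, Tsq.mir_node, H1.ch_eq, HM.mir_pc] at h1
  have h2 : ∀ t : BinaryTree Unit, (comps (Tsq.mir t)).length = (comps t).length := by
    intro t
    induction t with
    | nil => rfl
    | node _ A B _ ih =>
      change (comps (Tsq.mir (A △ B))).length = (comps (A △ B)).length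
      rw [Tsq.mir_node, comps_app, comps_node, List.length_append, ih]
      rfl
  refine ⟨Tsq.mir R, ⟨hc, ?_, ?_, ?_⟩, ?_⟩
  · intro x hx
    rw [HM.cont_mir] at hx
    exact hR.part x hx
  · rw [HM.cont_mir]; exact hR.mem
  · rw [h2]; exact hR.two
  · rw [h1, H1.ch_eq]
    rfl

/-- **existence, right form** -/
theorem fy_ex (hc : 3 ≤ c) {p0 : Cyc k} (h : c + 1 ∈ contc p0) (hmin : ∀ x ∈ contc p0, c + 1 ≤ x)
    (h3 : 3 ≤ Multiset.card (contc p0)) (hz : ∃ z : X k, cyc z = p0 ∧ TT z = z) :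
    ∃ (R : BinaryTree Unit) (y : X k) (g : DG k), FxD c R ∧ contc p0 = {c + 1} + cont R ∧
      y.1 = app (H1.ch c) (.nil △ R) ∧ contc (cyc y) = cont R + {1} + {c} ∧ TyFy {p0, cyc y} g := by
  obtain ⟨z, rfl, hz⟩ := hz
  obtain ⟨R, hR, hzR⟩ := fx_form' hc hz h hmin h3
  have hk : R.numNodes + c + 1 = k := by
    have h1 := X_num z
    rw [hzR, num_app, H1.ch_num] at h1
    omega
  obtain ⟨z', y, g, hz', hy, hg⟩ := fx_mk' hR hk
  have e : z' = z := Subtype.ext (by rw [hz', hzR])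
  rw [e] at hg
  refine ⟨R, y, g, hR, ?_, hy, ?_, c, R, hR, ?_, hg⟩
  · change cont z.1 = _
    rw [hzR, cont_chr]
  · change cont y.1 = _
    rw [hy]
    exact hR.c_y'
  · intro x hx
    have : x = z := Subtype.ext (by rw [hx, hzR])
    rw [this]
    exact hz

/-! ### The classes -/

section

variable {τp τw : Type} {Pp : τp → Set (Cyc k) → DG k → Prop} {Pw : τw → Set (Cyc k) → DG k → Prop}
  {AE : Cyc k → Cyc k → Prop} {X : Set (Cyc k)}

/-- the class of the `T`-fixed word -/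
theorem cls_fx_z (hc : 3 ≤ c) {p0 : Cyc k} (hmin : ∀ x ∈ contc p0, c + 1 ≤ x) (hX : p0 ∈ X) :
    ClsOK AE (cl p0) X ∅ ∅ Pp Pw := by
  apply cls_inX _ _ hX
  · intro h
    have := hmin 1 h
    omega
  · intro h
    have := hmin 2 h
    omega

/-- **the class of the second T-cycle**: one guest, the rest of the ring is matched -/
theorem cls_fx_y (h : FxD c R) {p0 : Cyc k} (hp : contc p0 = cont R + {1} + {c})
    (hEnv : ClsEnv AE Pp Pw (cl p0)) (hX : ∀ p, cl p = cl p0 → (p ∈ X ↔ p = p0)) :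
    ∃ Gp Gw, ClsOK AE (cl p0) X Gp Gw Pp Pw := by
  have hc3 := h.c3
  obtain ⟨⟨j, U⟩, hU⟩ : ∃ d : RD, Rd p0 = d := ⟨_, rfl⟩
  have h1 : (contc p0).count 1 = 1 := by
    have e1 : (cont R).count 1 = 0 := Multiset.count_eq_zero.2 h.no1
    have e2 : Multiset.count 1 ({c} : Multiset ℕ) = 0 := by
      rw [Multiset.count_eq_zero, Multiset.mem_singleton]; omega
    rw [hp, Multiset.count_add, Multiset.count_add, e1, e2, Multiset.count_singleton_self]
  have h2 : 2 ∉ contc p0 := by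
    rw [hp]
    intro hx
    rcases Multiset.mem_add.1 hx with hx | hx
    · rcases Multiset.mem_add.1 hx with hx | hx
      · exact h.no2 hx
      · rw [Multiset.mem_singleton] at hx
        omega
    · rw [Multiset.mem_singleton] at hx
      omega
  have h3 : 1 ∉ contc (Rd p0).2 := not_mem_Rd h2
  have hk := Rd_size p0
  rw [hU, h1] at hk
  rw [hU] at h3
  have h4 : (contc U).count 1 = 0 := Multiset.count_eq_zero.2 h3
  refine r1_guest hEnv hU le_rfl hk (oddF_one j) p0 U rfl hU (by rw [h4]; exact oddF_zero _) hX ?_ ?_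
  · intro e
    rw [h4] at e
    omega
  · intro e
    omega

end

end Pool.OddHC
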