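import Pool.Agent.Work.MP_8f87b2_h76.Fix
import Pool.Agent.Work.MP_8f87b2_h13.Drift2

/-!
# MP_8f87b2_co: one `T`-fixed word for one content

`fix_uniq`; `fx_guest`: two groups of type Fx (or Fy) whose second T-cycles have the same content are over one T-fixed word.
-/

set_option autoImplicit false

namespace Pool.OddHC

open Finset Equiv BinaryTree Multiset Pool.Agent.Work.MP_8f87b2_co

/-- the reduction of a fixed word is fixed, and all gaps have the same number of beads -/
theorem fix_red {j k : ℕ} {z : X k} (hz : TT z = z) {u : X j} {a : ZMod (2 * j + 1) → ℕ}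
    (h : z.1 = ins u.1 (lf a)) : TT u = u ∧ ∀ x, a x = a 0 := by
  have hn : ∀ t : ℕ, (TT ^ t) z = z := by
    intro t
    induction t with
    | zero => rfl
    | succ t ih => rw [pow_succ', Perm.mul_apply, ih, hz]
  have key : ∀ t : ℕ, ((TT ^ t) u).1 = u.1 ∧ ∀ x, a (x + sp u t) = a x := by
    intro t
    have h1 := word_pow h t
    rw [hn t, h] at h1
    obtain ⟨e1, e2⟩ := ins_inj (by rw [lf_length, X_num]) (by rw [lf_length, X_num]) h1
    refine ⟨e1.symm, fun x => ?_⟩
    exact (congrFun (lf_inj e2) x).symm
  constructor
  · have h1 := (key 1).1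
    rw [pow_one] at h1
    exact Subtype.ext h1
  · intro x
    obtain ⟨t, ht, -⟩ := indep1 u (lf a) (lf_length _) z h x 0
    have h1 := (key t).2 0
    rw [ht, zero_add] at h1
    exact h1

/-- **one `T`-fixed word for one content** -/
theorem fix_uniq : ∀ (k : ℕ) (z z' : X k), TT z = z → TT z' = z' → cont z.1 = cont z'.1 → z = z' := by
  intro k
  induction k using Nat.strong_induction_on with
  | _ k ih =>
    intro z z' hz hz' hc
    rcases Nat.eq_zero_or_pos k with rfl | hk
    · apply Subtype.ext
      have h1 := X_num z
      have h2 := X_num z'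
      have key : ∀ t : BinaryTree Unit, t.numNodes = 0 → t = .nil := by
        intro t ht
        cases t with
        | nil => rfl
        | node _ A B =>
          change A.numNodes + B.numNodes + 1 = 0 at ht
          omega
      rw [key _ h1, key _ h2]
    · obtain ⟨j, u, e, he, hw, h1, h2⟩ := red_ex z
      obtain ⟨j', u', e', he', hw', h1', h2'⟩ := red_ex z'
      have hp : pkn z.1 = pkn z'.1 := by rw [← cont_card, ← cont_card, hc]
      have hj : j' = j := by omega
      subst hj
      obtain ⟨a, rfl⟩ := exists_lf he
      obtain ⟨a', rfl⟩ := exists_lf he'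
      have hne : z.1 ≠ .nil := by
        intro e
        have h3 := X_num z
        rw [e] at h3
        change 0 = k at h3
        omega
      have hp1 : 1 ≤ pkn z.1 := by
        rw [← cont_card]
        apply Multiset.card_pos.2
        intro e
        exact hne (cont_eq_zero.1 e)
      obtain ⟨f1, f2⟩ := fix_red hz hw
      obtain ⟨f1', f2'⟩ := fix_red hz' hw'
      have hl : (lf a).length = 2 * u.1.numNodes + 1 := by rw [lf_length, X_num]
      have hl' : (lf a').length = 2 * u'.1.numNodes + 1 := by rw [lf_length, X_num]
      have hs : (lf a).sum = (lf a').sum := by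
        rw [← count_one_ins u.1 _ hl, ← count_one_ins u'.1 _ hl', ← hw, ← hw', hc]
      have hcu : cont u.1 = cont u'.1 := by
        rw [hw, hw', cont_ins _ _ hl, cont_ins _ _ hl', hs] at hc
        exact Multiset.map_injective (add_left_injective 1) (add_right_cancel hc)
      have e1 := ih j' (by omega) u u' f1 f1' hcu
      have e2 : a = a' := by
        rw [lf_sum, lf_sum] at hs
        have g1 : ∑ x, a x = (2 * j' + 1) * a 0 := by
          rw [Finset.sum_congr rfl (fun x _ => f2 x), Finset.sum_const, Finset.card_univ, ZMod.card]
          rfl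
        have g2 : ∑ x, a' x = (2 * j' + 1) * a' 0 := by
          rw [Finset.sum_congr rfl (fun x _ => f2' x), Finset.sum_const, Finset.card_univ, ZMod.card]
          rfl
        rw [g1, g2] at hs
        have g3 : a 0 = a' 0 := Nat.eq_of_mul_eq_mul_left (by omega) hs
        funext x
        rw [f2 x, f2' x, g3]
      apply Subtype.ext
      rw [hw, hw', e1, e2]

end Pool.OddHC
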