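import Pool.Agent.Work.MP_8f87b2_h76.FyW
import Pool.Agent.Work.MP_8f87b2_h76.FixU
import Pool.Agent.Work.MP_8f87b2_h38.PartDnV

/-!
# MP_8f87b2_co: the bare T-cycles `z = R[c + 1]` with the content link `TyFz` and their guests

`DFx z d`: `z` is the T-cycle of a `T`-fixed word `R[c + 1]` or of `[s][4][4]`, `d` the doubly reduced T-cycle of
`y = [c]()R`. `DFx.bare`, `DFx.size` (`M = 1`), `DFx.inj1`, `DFx.inj2`, `DFx.reg`: the relation `D` of helper38's `reg_dn`.
-/

set_option autoImplicit false

namespace Pool.OddHC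

open Finset Equiv BinaryTree Multiset Pool.Agent.Work.MP_8f87b2_co

variable {j k c : ℕ} {R : BinaryTree Unit}

/-- the words which take the content link: `T`-fixed, or `[s][4][4]` -/
def FxQ (z : X k) (c : ℕ) (R : BinaryTree Unit) : Prop :=
  TT z = z ∨ ∃ s, 5 ≤ s ∧ c = 3 ∧ R = app (pc s) (pc 4)

/-- no `T`-fixed word has the content `{s, b, b}`, `b < s` -/
theorem fix_no2 : ∀ (b k s : ℕ) (z : X k), TT z = z → 1 ≤ b → b < s → cont z.1 = {s} + {b} + {b} → False := by
  intro b
  induction b with
  | zero => intro k s z _ h; omega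
  | succ b ih =>
    intro k s z hz _ hs hc
    obtain ⟨j, u, e, he, hw, h1, h2⟩ := red_ex z
    obtain ⟨a, rfl⟩ := exists_lf he
    obtain ⟨f1, f2⟩ := fix_red hz hw
    have hl : (lf a).length = 2 * u.1.numNodes + 1 := by rw [lf_length, X_num]
    have hsum : (lf a).sum = (2 * j + 1) * a 0 := by
      rw [lf_sum, Finset.sum_congr rfl (fun x _ => f2 x), Finset.sum_const, Finset.card_univ, ZMod.card]
      rfl
    have hcz := cont_ins u.1 (lf a) hl
    rw [← hw, hc] at hcz
    have hcnt : (cont z.1).count 1 = (lf a).sum := by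
      rw [hw]
      exact count_one_ins u.1 _ hl
    rcases Nat.eq_zero_or_pos b with rfl | hb
    · have h3 : (cont z.1).count 1 = 2 := by
        rw [hc, Multiset.count_add, Multiset.count_add, Multiset.count_singleton_self, Multiset.count_eq_zero.2
          (by rw [Multiset.mem_singleton]; omega)]
      have h5 : (2 * j + 1) * a 0 = 2 := by omega
      have h6 : pkn z.1 = 3 := by
        rw [← cont_card, hc]
        rfl
      have h7 : u.1 ≠ .nil := by
        intro e0
        rw [e0, cont_nil, Multiset.map_zero, zero_add] at hcz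
        have : s ∈ ({s} + {0 + 1} + {0 + 1} : Multiset ℕ) := by simp
        rw [hcz] at this
        have := Multiset.eq_of_mem_replicate this
        omega
      have h8 : 1 ≤ j := by
        have h9 := X_num u
        have key : ∀ t : BinaryTree Unit, t.numNodes = 0 → t = .nil := by
          intro t ht
          cases t with
          | nil => rfl
          | node _ A B =>
            change A.numNodes + B.numNodes + 1 = 0 at ht
            omega
        by_contra h10
        exact h7 (key _ (by omega))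
      rcases Nat.eq_zero_or_pos (a 0) with ha | ha
      · rw [ha] at h5
        omega
      · have := Nat.mul_le_mul (show 3 ≤ 2 * j + 1 by omega) ha
        omega
    · have h3 : (cont z.1).count 1 = 0 := by
        rw [Multiset.count_eq_zero, hc]
        intro h4
        simp at h4
        omega
      rw [← hcnt, h3, Multiset.replicate_zero, add_zero] at hcz
      refine ih j (s - 1) u f1 hb (by omega) ?_
      apply Multiset.map_injective (f := fun x : ℕ => x + 1) (add_left_injective 1)
      change _ = Multiset.map (fun x : ℕ => x + 1) ({s - 1} + {b} + {b})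
      rw [Multiset.map_add, Multiset.map_add, Multiset.map_singleton, Multiset.map_singleton,
        show s - 1 + 1 = s by omega]
      exact hcz.symm

theorem FxD.min_eq {c' : ℕ} {R' : BinaryTree Unit} (h : FxD c R) (h' : FxD c' R')
    (e : cont R + {c} = cont R' + {c'}) : c = c' ∧ cont R = cont R' := by
  have h1 : c ∈ cont R' + {c'} := by rw [← e]; simp
  have h2 : c' ∈ cont R + {c} := by rw [e]; simp
  have h3 : c = c' := by
    rcases Multiset.mem_add.1 h1 with h1 | h1
    · rcases Multiset.mem_add.1 h2 with h2 | h2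
      · have := h'.part c h1
        have := h.part c' h2
        omega
      · exact (Multiset.mem_singleton.1 h2).symm
    · exact Multiset.mem_singleton.1 h1
  subst h3
  exact ⟨rfl, add_right_cancel e⟩

theorem FxD.min_eq' {c' : ℕ} {R' : BinaryTree Unit} (h : FxD c R) (h' : FxD c' R')
    (e : {c + 1} + cont R = {c' + 1} + cont R') : c = c' ∧ cont R = cont R' := by
  have h1 : c + 1 ∈ {c' + 1} + cont R' := by rw [← e]; simp
  have h2 : c' + 1 ∈ {c + 1} + cont R := by rw [e]; simp
  have h3 : c' ≤ c := by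
    rcases Multiset.mem_add.1 h1 with h1 | h1
    · have := Multiset.mem_singleton.1 h1
      omega
    · have := h'.part _ h1
      omega
  have h4 : c ≤ c' := by
    rcases Multiset.mem_add.1 h2 with h2 | h2
    · have := Multiset.mem_singleton.1 h2
      omega
    · have := h.part _ h2
      omega
  obtain rfl : c = c' := by omega
  exact ⟨rfl, add_left_cancel e⟩

/-- the word of the content is unique -/
theorem FxQ.uniq {c : ℕ} {R R' : BinaryTree Unit} {w w' : X k} (h : FxD c R) (h' : FxD c R')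
    (hw : w.1 = app R (H1.ch (c + 1))) (hw' : w'.1 = app R' (H1.ch (c + 1))) (q : FxQ w c R) (q' : FxQ w' c R')
    (e : cont R = cont R') : R = R' ∧ w = w' := by
  have c4 : cont (pc 4) = {4} := cont_pc 3
  have cR : ∀ {s : ℕ}, 5 ≤ s → cont (app (pc s) (pc 4)) = {s} + {4} := by
    intro s hs
    obtain ⟨s, rfl⟩ : ∃ s', s = s' + 1 := ⟨s - 1, by omega⟩
    rw [cont_app, c4, cont_pc]
  have key : ∀ {R : BinaryTree Unit} {w : X k} {s : ℕ}, w.1 = app R (H1.ch (3 + 1)) → TT w = w → 5 ≤ s →
      cont R = {s} + {4} → False := by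
    intro R w s h1 h2 h3 h4
    refine fix_no2 4 k s w h2 (by omega) (by omega) ?_
    rw [h1, cont_app, h4, H1.ch_eq, c4]
  have fin : R = R' → R = R' ∧ w = w' := by
    rintro rfl
    exact ⟨rfl, Subtype.ext (by rw [hw, hw'])⟩
  rcases q with q | ⟨s, hs, rfl, rfl⟩
  · rcases q' with q' | ⟨s', hs', rfl, rfl⟩
    · have h1 : w = w' := fix_uniq k w w' q q' (by rw [hw, hw', cont_app, cont_app, e])
      refine ⟨?_, h1⟩
      have h2 : app R (H1.ch (c + 1)) = app R' (H1.ch (c + 1)) := by rw [← hw, ← hw', h1]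
      have h3 := congrArg comps h2
      rw [comps_app, comps_app] at h3
      exact comps_inj (List.append_cancel_right h3)
    · exact (key hw q hs' (by rw [e, cR hs'])).elim
  · rcases q' with q' | ⟨s', hs', -, rfl⟩
    · exact (key hw' q' hs (by rw [← e, cR hs])).elim
    · apply fin
      rw [cR hs, cR hs'] at e
      have h1 := Multiset.singleton_inj.1 (add_right_cancel e)
      rw [h1]

/-- **THE RELATION**: the bare T-cycle `z` of `R[c + 1]`, the doubly reduced T-cycle `d` of `[c]()R` -/
def DFx (z : Cyc k) (d : RD) : Prop :=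
  ∃ (c : ℕ) (R : BinaryTree Unit) (w y : X k), FxD c R ∧ w.1 = app R (H1.ch (c + 1)) ∧ FxQ w c R ∧
    y.1 = app (H1.ch c) (.nil △ R) ∧ cyc w = z ∧ Rd (Rd (cyc y)).2 = d

variable {z z' : Cyc k} {d d' : RD}

theorem DFx.bare (h : DFx z d) : 1 ∉ contc z ∧ 2 ∉ contc z := by
  obtain ⟨c, R, w, y, h1, h2, -, -, rfl, -⟩ := h
  have e : contc (cyc w) = {c + 1} + cont R := by
    change cont w.1 = _
    rw [h2, cont_chr]
  have hc := h1.c3
  rw [e]
  constructor <;> intro hx <;> rcases Multiset.mem_add.1 hx with hx | hx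
  · rw [Multiset.mem_singleton] at hx
    omega
  · exact h1.no1 hx
  · rw [Multiset.mem_singleton] at hx
    omega
  · exact h1.no2 hx

theorem cnt_y {y : X k} (h : FxD c R) (hy : y.1 = app (H1.ch c) (.nil △ R)) :
    contc (cyc y) = cont R + {1} + {c} ∧ (contc (cyc y)).count 1 = 1 ∧ 2 ∉ contc (cyc y) := by
  have e : contc (cyc y) = cont R + {1} + {c} := by
    change cont y.1 = _
    rw [hy]
    exact h.c_y'
  have hc := h.c3
  refine ⟨e, ?_, ?_⟩
  · have e1 : (cont R).count 1 = 0 := Multiset.count_eq_zero.2 h.no1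
    have e2 : Multiset.count 1 ({c} : Multiset ℕ) = 0 := by
      rw [Multiset.count_eq_zero, Multiset.mem_singleton]; omega
    rw [e, Multiset.count_add, Multiset.count_add, e1, e2, Multiset.count_singleton_self]
  · rw [e]
    intro hx
    rcases Multiset.mem_add.1 hx with hx | hx
    · rcases Multiset.mem_add.1 hx with hx | hx
      · exact h.no2 hx
      · rw [Multiset.mem_singleton] at hx
        omega
    · rw [Multiset.mem_singleton] at hx
      omega

theorem aa_zero {p : Cyc k} (h : 2 ∉ contc p) : aa p = 0 := Multiset.count_eq_zero.2 (not_mem_Rd h)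

/-- `M = 1` -/
theorem DFx.size (h : DFx z d) : d.1 + 2 * pkc d.2 + 1 = k := by
  obtain ⟨c, R, w, y, h1, -, -, h4, -, rfl⟩ := h
  obtain ⟨e, e1, e2⟩ := cnt_y h1 h4
  have h3 := ov_total (V := (Rd (Rd (cyc y)).2).2) (p := cyc y) rfl
  have h5 := aa_zero e2
  omega

/-- one `z` for one `d` -/
theorem DFx.inj1 (h : DFx z d) (h' : DFx z' d) : z = z' := by
  obtain ⟨c, R, w, y, h1, h2, h3, h4, rfl, h5⟩ := h
  obtain ⟨c', R', w', y', h1', h2', h3', h4', rfl, h5'⟩ := h'
  obtain ⟨e, e1, e2⟩ := cnt_y h1 h4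
  obtain ⟨e', e1', e2'⟩ := cnt_y h1' h4'
  have h6 : cl (cyc y) = cl (cyc y') := by
    rw [ov_cl (V := d.2) (by rw [h5]) (by rw [h5']), aa_zero e2, aa_zero e2']
  have h7 : contc (cyc y) = contc (cyc y') := congrArg Prod.snd h6
  rw [e, e'] at h7
  have h8 : cont R + {c} = cont R' + {c'} := by
    rw [add_right_comm, add_right_comm (cont R')] at h7
    exact add_right_cancel h7
  obtain ⟨rfl, h9⟩ := h1.min_eq h1' h8
  rw [(FxQ.uniq h1 h1' h2 h2' h3 h3' h9).2]

/-- one `d` for one `z` -/
theorem DFx.inj2 (h : DFx z d) (h' : DFx z d') : d = d' := by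
  obtain ⟨c, R, w, y, h1, h2, h3, h4, h5, rfl⟩ := h
  obtain ⟨c', R', w', y', h1', h2', h3', h4', h5', rfl⟩ := h'
  have h6 : cont w.1 = cont w'.1 := by
    change contc (cyc w) = contc (cyc w')
    rw [h5, h5']
  rw [h2, h2', cont_chr, cont_chr] at h6
  obtain ⟨rfl, h9⟩ := h1.min_eq' h1' h6
  obtain ⟨rfl, -⟩ := FxQ.uniq h1 h1' h2 h2' h3 h3' h9
  have : y = y' := Subtype.ext (by rw [h4, h4'])
  rw [this]

namespace PV

variable {τ : Type} {P : τ → Set (Cyc k) → DG k → Prop}

/-- **THE CLASSES OF `z` AND OF ITS GUEST** -/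
theorem DFx_reg (h : DFx z d) (env : ∀ p0 : Cyc k, Rd (Rd p0).2 = d → ClsEnv (AEP P) P P (cl p0))
    (dty : ∀ F g, TyFz F g → Typd P P F) : ClsReg P ({cl z} ∪ {κ | κ.1 = d} : Set (RD × Multiset ℕ)) := by
  have hz := h.bare
  have hM := h.size
  obtain ⟨c, R, w, y, h1, h2, -, h4, rfl, h5⟩ := h
  obtain ⟨y', g, hy', -, hg⟩ := fz_ex h1 h2
  obtain rfl : y' = y := Subtype.ext (by rw [hy', h4])
  obtain ⟨e, e1, e2⟩ := cnt_y h1 h4
  refine ⟨{{cyc w, cyc y'}}, ?_, ?_, ?_⟩
  · rintro F hF
    rw [Set.mem_singleton_iff] at hF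
    subst hF
    refine ⟨⟨_, Or.inl rfl⟩, dty _ g hg, ?_⟩
    rintro c (rfl | rfl)
    · exact Or.inl rfl
    · exact Or.inr h5
  · rintro F hF F' hF' c _ _
    rw [Set.mem_singleton_iff] at hF hF'
    rw [hF, hF']
  · rintro p0 (hp0 | hp0)
    · have e0 : p0 = cyc w := cl_single hz.1 hz.2 hp0
      subst e0
      refine ⟨∅, ∅, cls_inX hz.1 hz.2 ?_⟩
      rw [inG_single]
      exact Or.inl rfl
    · have hp1 : Rd (Rd p0).2 = d := hp0
      have hp2 : Rd (Rd p0).2 = ⟨d.1, d.2⟩ := hp1
      have h6 : Rd (Rd (cyc y')).2 = ⟨d.1, d.2⟩ := h5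
      have h7 := ov_total hp2
      have h8 : cl p0 = cl (cyc y') := by
        rw [ov_cl hp2 h6, aa_zero e2]
        omega
      rw [h8, inG_single]
      obtain ⟨⟨j, U⟩, hU⟩ : ∃ d : RD, Rd (cyc y') = d := ⟨_, rfl⟩
      have h9 : 1 ∉ contc (Rd (cyc y')).2 := not_mem_Rd e2
      have hk := Rd_size (cyc y')
      rw [hU, e1] at hk
      rw [hU] at h9
      have h10 : (contc U).count 1 = 0 := Multiset.count_eq_zero.2 h9
      refine r1_guest (env (cyc y') h5) hU le_rfl hk (oddF_one j) (cyc y') U rfl hU (by rw [h10]; exact oddF_zero _)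
        ?_ (fun h => absurd (h10.symm.trans h) (by norm_num)) (fun h => absurd h (by norm_num))
      intro p hp
      constructor
      · rintro (rfl | rfl)
        · exfalso
          have h11 : contc (cyc w) = contc (cyc y') := congrArg Prod.snd hp
          rw [← h11, Multiset.count_eq_zero.2 hz.1] at e1
          omega
        · rfl
      · rintro rfl
        exact Or.inr rfl

end PV

end Pool.OddHC
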